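import Mathlib
import Pool.Agent.H6.CT2
import Pool.Agent.H6.Nice

/-!
# MP_103a5c_GP: definitions

Positive proportion of small and large gaps between zeros of zeta under RH (two-sided resonators).
-/

open MeasureTheory Set Filter Topology
open scoped Real ContDiff ComplexConjugate

namespace Pool.Agent.H14.GP

open Pool.Agent.H6

/-- the character `n ↦ n^(-it)`, with `0 ↦ 0` -/
noncomputable def chi (t : ℝ) : ℕ →* ℂ where
  toFun n := if n = 0 then 0 else Complex.exp (-((t * Real.log n : ℝ) : ℂ) * Complex.I)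
  map_one' := by simp
  map_mul' m n := by
    by_cases hm : m = 0
    · simp [hm]
    by_cases hn : n = 0
    · simp [hn]
    have hm' : (m : ℝ) ≠ 0 := by exact_mod_cast hm
    have hn' : (n : ℝ) ≠ 0 := by exact_mod_cast hn
    simp only [mul_eq_zero, hm, hn, or_self, if_false]
    rw [← Complex.exp_add, Nat.cast_mul, Real.log_mul hm' hn']
    congr 1
    push_cast
    ring

/-- Dirichlet polynomials with real coefficients: finitely supported functions on `ℕ`, multiplication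
is Dirichlet convolution -/
abbrev DPoly := MonoidAlgebra ℝ ℕ

/-- value `X(t) = ∑ X(n) n^(-it)` -/
noncomputable def ev (t : ℝ) : DPoly →ₐ[ℝ] ℂ := MonoidAlgebra.lift ℝ ℂ ℕ (chi t)

/-- diagonal inner product -/
noncomputable def ip (X Y : DPoly) : ℝ := ∑ n ∈ X.coeff.support, X.coeff n * Y.coeff n

/-- `ℓ¹` norm -/
noncomputable def l1 (X : DPoly) : ℝ := ∑ n ∈ X.coeff.support, |X.coeff n|

/-- supported on `1 ≤ n ≤ N` -/
def SuppLe (N : ℝ) (X : DPoly) : Prop := ∀ n, X.coeff n ≠ 0 → 1 ≤ n ∧ (n : ℝ) ≤ N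

/-- the prime sum `∑_p G(log p / log T) p^(-1/2) [p]` -/
noncomputable def bb (G : ℝ → ℝ) (T : ℝ) : DPoly :=
  ∑ p ∈ (Finset.range (⌊T⌋₊ + 1)).filter Nat.Prime,
    MonoidAlgebra.single p (G (Real.log p / Real.log T) * (p : ℝ) ^ (-(1 / 2) : ℝ))

/-- weights -/
structure Wgt (v : ℝ → ℝ) : Prop where
  smooth : ContDiff ℝ ∞ v
  supp : ∃ a b, 0 < a ∧ a < b ∧ ∀ x, x ∉ Icc a b → v x = 0
  nonneg : ∀ x, 0 ≤ v x

/-- weighted mean of a real function -/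
noncomputable def EE (v : ℝ → ℝ) (T : ℝ) (f : ℝ → ℝ) : ℝ := (1 / T) * ∫ t, v (t / T) * f t

/-- weighted mean of a complex function -/
noncomputable def EC (v : ℝ → ℝ) (T : ℝ) (f : ℝ → ℂ) : ℂ := ((1 / T : ℝ) : ℂ) * ∫ t, (v (t / T) : ℂ) * f t

/-- Cell functions: `G j` is smooth, nonnegative, supported in `(θ(j-1)/M, θ j/M)` away from `0`,
with `∫ G_j(x)^2 dx/x = 1/j`. -/
structure Cells (M : ℕ) (θ : ℝ) (G : ℕ → ℝ → ℝ) : Prop where
  M_pos : 2 ≤ M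
  θ_pos : 0 < θ
  θ_lt : θ < 1 / 2
  smooth : ∀ j, ContDiff ℝ ∞ (G j)
  nonneg : ∀ j x, 0 ≤ G j x
  low : ∃ a, 0 < a ∧ ∀ j x, x ≤ a → G j x = 0
  cell : ∀ j x, G j x ≠ 0 → θ * ((j : ℝ) - 1) / M < x ∧ x < θ * j / M
  out : ∀ j, (j < 1 ∨ M ≤ j) → ∀ x, G j x = 0
  norm : ∀ j, 1 ≤ j → j < M → ∫ x in Ioi (0 : ℝ), G j x ^ 2 / x = 1 / (j : ℝ)

/-- variances -/
noncomputable def sM (M j : ℕ) : ℝ := if 1 ≤ j ∧ j < M then 1 / (j : ℝ) else 0

/-- coefficients of `exp (c ∑ y_j z^j)`, by Newton's recursion -/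
noncomputable def cf {𝒜 : Type*} [CommRing 𝒜] [Algebra ℝ 𝒜] (c : ℝ) (y : ℕ → 𝒜) : ℕ → 𝒜
  | 0 => 1
  | (n + 1) => (c / ((n : ℝ) + 1)) • ∑ j : Fin (n + 1), (((j : ℕ) : ℝ) + 1) • (y ((j : ℕ) + 1) * cf c y (n - j))
decreasing_by omega

/-- polynomials in `Y_j` (variable `inl j`) and their conjugates (variable `inr j`) -/
abbrev PP := MvPolynomial (ℕ ⊕ ℕ) ℝ

open Classical in
/-- Gaussian moment of a monomial, with `E |Y_j|^2 = s j` -/
noncomputable def mval (s : ℕ → ℝ) (m : (ℕ ⊕ ℕ) →₀ ℕ) : ℝ :=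
  if ∀ j, m (Sum.inl j) = m (Sum.inr j) then
    m.prod fun i e => Sum.elim (fun j => (e.factorial : ℝ) * s j ^ e) (fun _ => 1) i
  else 0

/-- Gaussian expectation of a polynomial -/
noncomputable def EG (s : ℕ → ℝ) : PP →ₗ[ℝ] ℝ :=
  (MvPolynomial.basisMonomials (ℕ ⊕ ℕ) ℝ).constr ℝ (fun m => mval s m)

/-- `∑_{j<M} κ_j ∂/∂Ȳ_j` -/
noncomputable def DK (M : ℕ) (κ : ℕ → ℝ) (P : PP) : PP :=
  ∑ j ∈ Finset.range M, κ j • MvPolynomial.pderiv (Sum.inr j) P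

/-- weighted bidegree at most `N` -/
def Deg2 (N : ℕ) (P : PP) : Prop :=
  ∀ m ∈ P.support, (m.sum fun i e => Sum.elim (fun j => j * e) (fun _ => 0) i) ≤ N ∧
    (m.sum fun i e => Sum.elim (fun _ => 0) (fun j => j * e) i) ≤ N

/-- the two-sided resonator: Wick ordered product of truncated exponentials.
`c = ± √R`. -/
noncomputable def Amp (c : ℝ) (R M : ℕ) (f : ℕ → ℝ) : PP :=
  ∑ k ∈ Finset.range (R + 1), ∑ n ∈ Finset.range M, ∑ m ∈ Finset.range M,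
    if k ≤ n ∧ k ≤ m then
      ((-1) ^ k * (R.choose k : ℝ) * f n * f m) •
        (cf c (fun j => (MvPolynomial.X (Sum.inl j) : PP)) (n - k) * cf c (fun j => (MvPolynomial.X (Sum.inr j) : PP)) (m - k))
    else 0

/-- `C(n+R-1, R-1)`, the coefficient of `x^n` in `(1-x)^(-R)` -/
noncomputable def rho (R n : ℕ) : ℝ := ((n + R - 1).choose n : ℝ)

/-- `ν = ∑ f(n)^2 ρ(n)` -/
noncomputable def nu (R M : ℕ) (f : ℕ → ℝ) : ℝ := ∑ n ∈ Finset.range M, f n ^ 2 * rho R n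

/-- `K_j = ∑_n f(n) f(n+j) ρ(n)` -/
noncomputable def KK (R M : ℕ) (f : ℕ → ℝ) (j : ℕ) : ℝ :=
  ∑ n ∈ Finset.range (M - j), f n * f (n + j) * rho R n

/-- evaluation of a polynomial at the prime sums -/
noncomputable def evP (G : ℕ → ℝ → ℝ) (T t : ℝ) : PP →ₐ[ℝ] ℂ :=
  MvPolynomial.aeval (Sum.elim (fun j => ev t (bb (G j) T)) (fun j => conj (ev t (bb (G j) T))))

/-- the resonator as a (real) function of `t` -/
noncomputable def AR (c : ℝ) (R M : ℕ) (f : ℕ → ℝ) (G : ℕ → ℝ → ℝ) (T t : ℝ) : ℝ :=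
  (evP G T t (Amp c R M f)).re

/-- number of zeros (with multiplicity) in `|γ - t| ≤ π β / log T`, among `0 < γ ≤ T` -/
noncomputable def cnt {ι : Type*} (γ w : ι → ℝ) (F : ℝ → Finset ι) (β T t : ℝ) : ℝ :=
  ∑ i ∈ F T, if |t - γ i| ≤ π * β / Real.log T then w i else 0

end Pool.Agent.H14.GP
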