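import Mathlib
import Pool.Agent.H14.GP.Defs

/-!
# Row Ga (200 lines): Gaussian integration by parts (Stein) for the functional `EG`

`EG_monomial'`: value on monomials (definition through `MvPolynomial.basisMonomials.constr`).
`stein_l`: `EG (X (inl j) * P) = s j * EG (∂/∂(inr j) P)`; `stein_r`: with `inl`, `inr` exchanged.
PROOF. By linearity (both sides are linear in `P`; `MvPolynomial.induction_on'` or `as_sum`) take `P = monomial m 1`. Then `X (inl j) * P = monomial (m + single (inl j) 1) 1` and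
`∂_{inr j} P = m(inr j) monomial (m - single (inr j) 1)`. If `m(inl i) ≠ m(inr i)` for some `i ≠ j`, or `m(inl j) + 1 ≠ m(inr j)`, both sides vanish (if `m(inr j) = 0` the right side
is `0` and the left side is `0` because `m(inl j) + 1 ≠ 0`). If `m(inl i) = m(inr i)` for `i ≠ j` and `m(inr j) = m(inl j) + 1 =: e + 1`: left `= (e+1)! s_j^{e+1} R`, right
`= s_j (e+1) e! s_j^e R`, `R` the product over the other indices (`Finsupp.prod`).
`EG_one`: `EG 1 = 1`.
-/

open MvPolynomial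

namespace Pool.Agent.H14.GP

private lemma ga_mval_of_balanced (s : ℕ → ℝ) (m : (ℕ ⊕ ℕ) →₀ ℕ) (S : Finset (ℕ ⊕ ℕ))
    (hS : m.support ⊆ S) (hb : ∀ j, m (Sum.inl j) = m (Sum.inr j)) :
    mval s m = ∏ i ∈ S, Sum.elim (fun j => ((m i).factorial : ℝ) * s j ^ (m i)) (fun _ => 1) i := by
  unfold mval
  rw [if_pos hb]
  refine Finsupp.prod_of_support_subset m hS
    (fun i e => Sum.elim (fun j => (e.factorial : ℝ) * s j ^ e) (fun _ => 1) i) ?_
  intro i _
  rcases i with i | i <;> simp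

private lemma ga_mval_of_not (s : ℕ → ℝ) (m : (ℕ ⊕ ℕ) →₀ ℕ)
    (hb : ¬ ∀ j, m (Sum.inl j) = m (Sum.inr j)) : mval s m = 0 := by
  unfold mval
  rw [if_neg hb]

private lemma ga_mval_core (s : ℕ → ℝ) (j : ℕ) (m1 m2 : (ℕ ⊕ ℕ) →₀ ℕ) (e : ℕ)
    (h1 : ∀ j, m1 (Sum.inl j) = m1 (Sum.inr j)) (h2 : ∀ j, m2 (Sum.inl j) = m2 (Sum.inr j))
    (hl1 : m1 (Sum.inl j) = e + 1) (hl2 : m2 (Sum.inl j) = e)
    (hne : ∀ k, k ≠ j → m1 (Sum.inl k) = m2 (Sum.inl k)) :
    mval s m1 = s j * (((e : ℝ) + 1) * mval s m2) := by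
  classical
  set S : Finset (ℕ ⊕ ℕ) := insert (Sum.inl j) (m1.support ∪ m2.support) with hS
  have hj : (Sum.inl j : ℕ ⊕ ℕ) ∈ S := by rw [hS]; exact Finset.mem_insert_self _ _
  have hS1 : m1.support ⊆ S := by
    rw [hS]
    exact (Finset.subset_union_left).trans (Finset.subset_insert _ _)
  have hS2 : m2.support ⊆ S := by
    rw [hS]
    exact (Finset.subset_union_right).trans (Finset.subset_insert _ _)
  rw [ga_mval_of_balanced s m1 S hS1 h1, ga_mval_of_balanced s m2 S hS2 h2]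
  rw [← Finset.mul_prod_erase S _ hj, ← Finset.mul_prod_erase S _ hj]
  have hR : ∏ i ∈ S.erase (Sum.inl j),
      Sum.elim (fun k => ((m1 i).factorial : ℝ) * s k ^ (m1 i)) (fun _ => 1) i =
      ∏ i ∈ S.erase (Sum.inl j),
      Sum.elim (fun k => ((m2 i).factorial : ℝ) * s k ^ (m2 i)) (fun _ => 1) i := by
    refine Finset.prod_congr rfl ?_
    intro i hi
    rcases i with i | i
    · have hij : i ≠ j := by
        intro h
        subst h
        exact (Finset.notMem_erase _ _) hi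
      simp only [Sum.elim_inl]
      rw [hne i hij]
    · simp only [Sum.elim_inr]
  rw [hR]
  simp only [Sum.elim_inl]
  rw [hl1, hl2, Nat.factorial_succ]
  push_cast
  ring

lemma EG_monomial' (s : ℕ → ℝ) (m : (ℕ ⊕ ℕ) →₀ ℕ) (a : ℝ) : EG s (monomial m a) = a * mval s m := by
  have h1 : (monomial m a : PP) = a • (MvPolynomial.basisMonomials (ℕ ⊕ ℕ) ℝ m) := by
    rw [MvPolynomial.coe_basisMonomials, MvPolynomial.smul_monomial, smul_eq_mul, mul_one]
  rw [h1, map_smul, EG, Module.Basis.constr_basis, smul_eq_mul]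

lemma EG_one (s : ℕ → ℝ) : EG s 1 = 1 := by
  have h : (1 : PP) = monomial 0 1 := rfl
  rw [h, EG_monomial']
  simp [mval]

private lemma ga_ext (s : ℕ → ℝ) (i k : ℕ ⊕ ℕ) (c : ℝ)
    (h : ∀ m : (ℕ ⊕ ℕ) →₀ ℕ, mval s (m + Finsupp.single i 1) =
      c * ((m k : ℝ) * mval s (m - Finsupp.single k 1))) (P : PP) :
    EG s (X i * P) = c * EG s (pderiv k P) := by
  induction P using MvPolynomial.induction_on' with
  | monomial m a =>
    have h1 : (X i * monomial m a : PP) = monomial (m + Finsupp.single i 1) a := by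
      rw [X, monomial_mul, one_mul, add_comm]
    rw [h1, EG_monomial', pderiv_monomial, EG_monomial', h m]
    ring
  | add p q hp hq =>
    rw [mul_add, map_add, map_add, map_add, hp, hq]
    ring

theorem stein_l (s : ℕ → ℝ) (j : ℕ) (P : PP) : EG s (X (Sum.inl j) * P) = s j * EG s (pderiv (Sum.inr j) P) := by
  classical
  refine ga_ext s (Sum.inl j) (Sum.inr j) (s j) ?_ P
  intro m
  have a1 : ∀ k, (m + Finsupp.single (Sum.inl j) 1 : (ℕ ⊕ ℕ) →₀ ℕ) (Sum.inr k) = m (Sum.inr k) := by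
    intro k
    simp
  have a2 : ∀ k, k ≠ j → (m + Finsupp.single (Sum.inl j) 1 : (ℕ ⊕ ℕ) →₀ ℕ) (Sum.inl k) = m (Sum.inl k) := by
    intro k hk
    rw [Finsupp.add_apply, Finsupp.single_apply, if_neg (by
      intro h
      exact hk (Sum.inl_injective h).symm), add_zero]
  have a3 : (m + Finsupp.single (Sum.inl j) 1 : (ℕ ⊕ ℕ) →₀ ℕ) (Sum.inl j) = m (Sum.inl j) + 1 := by
    rw [Finsupp.add_apply, Finsupp.single_eq_same]
  have b1 : ∀ k, (m - Finsupp.single (Sum.inr j) 1 : (ℕ ⊕ ℕ) →₀ ℕ) (Sum.inl k) = m (Sum.inl k) := by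
    intro k
    rw [Finsupp.tsub_apply, Finsupp.single_apply, if_neg (by simp), Nat.sub_zero]
  have b2 : ∀ k, k ≠ j → (m - Finsupp.single (Sum.inr j) 1 : (ℕ ⊕ ℕ) →₀ ℕ) (Sum.inr k) = m (Sum.inr k) := by
    intro k hk
    rw [Finsupp.tsub_apply, Finsupp.single_apply, if_neg (by
      intro h
      exact hk (Sum.inr_injective h).symm), Nat.sub_zero]
  have b3 : (m - Finsupp.single (Sum.inr j) 1 : (ℕ ⊕ ℕ) →₀ ℕ) (Sum.inr j) = m (Sum.inr j) - 1 := by
    rw [Finsupp.tsub_apply, Finsupp.single_eq_same]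
  by_cases hb : ∀ k, (m + Finsupp.single (Sum.inl j) 1 : (ℕ ⊕ ℕ) →₀ ℕ) (Sum.inl k) =
      (m + Finsupp.single (Sum.inl j) 1 : (ℕ ⊕ ℕ) →₀ ℕ) (Sum.inr k)
  · have hj := hb j
    rw [a3, a1] at hj
    have hb2 : ∀ k, (m - Finsupp.single (Sum.inr j) 1 : (ℕ ⊕ ℕ) →₀ ℕ) (Sum.inl k) =
        (m - Finsupp.single (Sum.inr j) 1 : (ℕ ⊕ ℕ) →₀ ℕ) (Sum.inr k) := by
      intro k
      by_cases hk : k = j
      · subst hk
        rw [b1, b3]
        omega
      · have := hb k
        rw [a2 k hk, a1] at this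
        rw [b1, b2 k hk, this]
    rw [ga_mval_core s j _ _ (m (Sum.inl j)) hb hb2 a3 (b1 j) (by
      intro k hk
      rw [a2 k hk, b1]), ← hj]
    push_cast
    ring
  · rw [ga_mval_of_not s _ hb]
    by_cases h0 : m (Sum.inr j) = 0
    · rw [h0]
      simp
    · rw [ga_mval_of_not s (m - Finsupp.single (Sum.inr j) 1 : (ℕ ⊕ ℕ) →₀ ℕ)]
      · simp
      · intro hb2
        apply hb
        intro k
        have := hb2 k
        by_cases hk : k = j
        · subst hk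
          rw [b1, b3] at this
          rw [a3, a1]
          omega
        · rw [b1, b2 k hk] at this
          rw [a2 k hk, a1, this]

theorem stein_r (s : ℕ → ℝ) (j : ℕ) (P : PP) : EG s (X (Sum.inr j) * P) = s j * EG s (pderiv (Sum.inl j) P) := by
  classical
  refine ga_ext s (Sum.inr j) (Sum.inl j) (s j) ?_ P
  intro m
  have a1 : ∀ k, (m + Finsupp.single (Sum.inr j) 1 : (ℕ ⊕ ℕ) →₀ ℕ) (Sum.inl k) = m (Sum.inl k) := by
    intro k
    simp
  have a2 : ∀ k, k ≠ j → (m + Finsupp.single (Sum.inr j) 1 : (ℕ ⊕ ℕ) →₀ ℕ) (Sum.inr k) = m (Sum.inr k) := by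
    intro k hk
    rw [Finsupp.add_apply, Finsupp.single_apply, if_neg (by
      intro h
      exact hk (Sum.inr_injective h).symm), add_zero]
  have a3 : (m + Finsupp.single (Sum.inr j) 1 : (ℕ ⊕ ℕ) →₀ ℕ) (Sum.inr j) = m (Sum.inr j) + 1 := by
    rw [Finsupp.add_apply, Finsupp.single_eq_same]
  have b1 : ∀ k, (m - Finsupp.single (Sum.inl j) 1 : (ℕ ⊕ ℕ) →₀ ℕ) (Sum.inr k) = m (Sum.inr k) := by
    intro k
    rw [Finsupp.tsub_apply, Finsupp.single_apply, if_neg (by simp), Nat.sub_zero]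
  have b2 : ∀ k, k ≠ j → (m - Finsupp.single (Sum.inl j) 1 : (ℕ ⊕ ℕ) →₀ ℕ) (Sum.inl k) = m (Sum.inl k) := by
    intro k hk
    rw [Finsupp.tsub_apply, Finsupp.single_apply, if_neg (by
      intro h
      exact hk (Sum.inl_injective h).symm), Nat.sub_zero]
  have b3 : (m - Finsupp.single (Sum.inl j) 1 : (ℕ ⊕ ℕ) →₀ ℕ) (Sum.inl j) = m (Sum.inl j) - 1 := by
    rw [Finsupp.tsub_apply, Finsupp.single_eq_same]
  by_cases hb : ∀ k, (m + Finsupp.single (Sum.inr j) 1 : (ℕ ⊕ ℕ) →₀ ℕ) (Sum.inl k) =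
      (m + Finsupp.single (Sum.inr j) 1 : (ℕ ⊕ ℕ) →₀ ℕ) (Sum.inr k)
  · have hj := hb j
    rw [a3, a1] at hj
    have hb2 : ∀ k, (m - Finsupp.single (Sum.inl j) 1 : (ℕ ⊕ ℕ) →₀ ℕ) (Sum.inl k) =
        (m - Finsupp.single (Sum.inl j) 1 : (ℕ ⊕ ℕ) →₀ ℕ) (Sum.inr k) := by
      intro k
      by_cases hk : k = j
      · subst hk
        rw [b1, b3]
        omega
      · have := hb k
        rw [a2 k hk, a1] at this
        rw [b1, b2 k hk, this]
    rw [ga_mval_core s j _ _ (m (Sum.inr j)) hb hb2 (by rw [a1, hj]) (by rw [b3, hj]; omega) (by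
      intro k hk
      rw [b2 k hk, a1]), hj]
    push_cast
    ring
  · rw [ga_mval_of_not s _ hb]
    by_cases h0 : m (Sum.inl j) = 0
    · rw [h0]
      simp
    · rw [ga_mval_of_not s (m - Finsupp.single (Sum.inl j) 1 : (ℕ ⊕ ℕ) →₀ ℕ)]
      · simp
      · intro hb2
        apply hb
        intro k
        have := hb2 k
        by_cases hk : k = j
        · subst hk
          rw [b1, b3] at this
          rw [a3, a1]
          omega
        · rw [b1, b2 k hk] at this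
          rw [a2 k hk, a1, this]

end Pool.Agent.H14.GP
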