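import Mathlib
import Pool.Agent.H14.GP.Defs

/-!
# Row Gb (220 lines): the coefficients `a_n = cf c X n` of `exp (c ∑ X_j z^j)`

Notation: `aL c n = cf c (X ∘ inl) n`, `aR c n = cf c (X ∘ inr) n`.
`newton`: `(n+1) a_{n+1} = c ∑_{j<n+1} (j+1) X_{j+1} a_{n-j}` (the definition).
`pderiv_aL`: `∂_{inl j} a_n = c a_{n-j}` if `1 ≤ j ≤ n`, and `0` otherwise (`j = 0` or `j > n`); `∂_{inr j} aL = 0`; same with the roles exchanged.
PROOF. Strong induction on `n`, `n = m+1`: `(m+1) ∂_j a_{m+1} = c [ j a_{m+1-j} (if 1 ≤ j ≤ m+1) + ∑_{i<m+1} (i+1) X_{i+1} ∂_j a_{m-i} ]` and by induction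
`∂_j a_{m-i} = c a_{m-i-j}` for `i ≤ m - j`, so the last sum is `c ∑_{i ≤ m-j} (i+1) X_{i+1} a_{m-j-i} = (m+1-j) a_{m+1-j}` if `j ≤ m` (Newton for `m - j + 1`; and the empty sum, `0 = (m+1-j)`
for `j = m+1`). Total: `c (j + (m+1-j)) a_{m+1-j} = c (m+1) a_{m+1-j}`.
`cf_map`: an algebra homomorphism maps `cf c y n` to `cf c (φ ∘ y) n` (induction).
`deg_aL`, `deg_aR`: `Deg2`-type degree bounds: every monomial of `a_n` (in the `inl` variables) has weighted degree exactly `n` and no `inr` variable. Stated below through `Deg2'`.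
`Deg2'.mul`, etc.: bounds add under multiplication.
-/

open MvPolynomial

namespace Pool.Agent.H14.GP

noncomputable def aL (c : ℝ) (n : ℕ) : PP := cf c (fun j => (X (Sum.inl j) : PP)) n
noncomputable def aR (c : ℝ) (n : ℕ) : PP := cf c (fun j => (X (Sum.inr j) : PP)) n

/-- weighted bidegree at most `(N, N')` -/
def Deg2' (N N' : ℕ) (P : PP) : Prop :=
  ∀ m ∈ P.support, (m.sum fun i e => Sum.elim (fun j => j * e) (fun _ => 0) i) ≤ N ∧
    (m.sum fun i e => Sum.elim (fun _ => 0) (fun j => j * e) i) ≤ N'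

lemma deg2_iff (N : ℕ) (P : PP) : Deg2 N P ↔ Deg2' N N P := Iff.rfl

lemma cf_zero {𝒜 : Type*} [CommRing 𝒜] [Algebra ℝ 𝒜] (c : ℝ) (y : ℕ → 𝒜) : cf c y 0 = 1 := by
  rw [cf]

lemma cf_succ {𝒜 : Type*} [CommRing 𝒜] [Algebra ℝ 𝒜] (c : ℝ) (y : ℕ → 𝒜) (n : ℕ) :
    cf c y (n + 1) = (c / ((n : ℝ) + 1)) •
      ∑ j ∈ Finset.range (n + 1), ((j : ℝ) + 1) • (y (j + 1) * cf c y (n - j)) := by
  rw [cf, Finset.sum_range (fun j => ((j : ℝ) + 1) • (y (j + 1) * cf c y (n - j)))]

lemma newton {𝒜 : Type*} [CommRing 𝒜] [Algebra ℝ 𝒜] (c : ℝ) (y : ℕ → 𝒜) (n : ℕ) :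
    ((n : ℝ) + 1) • cf c y (n + 1) = c • ∑ j ∈ Finset.range (n + 1), ((j : ℝ) + 1) • (y (j + 1) * cf c y (n - j)) := by
  rw [cf_succ, smul_smul]
  have h : ((n : ℝ) + 1) * (c / ((n : ℝ) + 1)) = c := by
    have : ((n : ℝ) + 1) ≠ 0 := by positivity
    field_simp
  rw [h]

theorem cf_map {𝒜 ℬ : Type*} [CommRing 𝒜] [Algebra ℝ 𝒜] [CommRing ℬ] [Algebra ℝ ℬ] (φ : 𝒜 →ₐ[ℝ] ℬ) (c : ℝ) (y : ℕ → 𝒜) (n : ℕ) :
    φ (cf c y n) = cf c (fun j => φ (y j)) n := by
  induction n using Nat.strong_induction_on with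
  | _ n ih =>
    rcases n with _ | n
    · rw [cf_zero, cf_zero, map_one]
    · rw [cf_succ, cf_succ, map_smul, map_sum]
      congr 1
      apply Finset.sum_congr rfl
      intro j hj
      rw [map_smul, map_mul, ih (n - j) (by omega)]

/-- a derivation killing all `y i` kills `cf` -/
lemma der_cf_zero {𝒜 : Type*} [CommRing 𝒜] [Algebra ℝ 𝒜] (D : Derivation ℝ 𝒜 𝒜) (c : ℝ) (y : ℕ → 𝒜)
    (hD : ∀ i, 1 ≤ i → D (y i) = 0) (n : ℕ) : D (cf c y n) = 0 := by
  induction n using Nat.strong_induction_on with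
  | _ n ih =>
    rcases n with _ | n
    · rw [cf_zero]
      exact D.map_one_eq_zero
    · rw [cf_succ, D.map_smul, map_sum]
      rw [Finset.sum_eq_zero, smul_zero]
      intro j hj
      rw [D.map_smul, D.leibniz, ih (n - j) (by omega), hD (j + 1) (by omega)]
      simp

/-- a derivation with `D (y i) = δ_{ij}` -/
lemma der_cf {𝒜 : Type*} [CommRing 𝒜] [Algebra ℝ 𝒜] (D : Derivation ℝ 𝒜 𝒜) (c : ℝ) (y : ℕ → 𝒜) (k : ℕ)
    (hD : ∀ i, 1 ≤ i → D (y i) = if i = k + 1 then 1 else 0) (n : ℕ) :
    D (cf c y n) = if k + 1 ≤ n then c • cf c y (n - (k + 1)) else 0 := by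
  induction n using Nat.strong_induction_on with
  | _ n ih =>
    rcases n with _ | m
    · rw [cf_zero, if_neg (by omega)]
      exact D.map_one_eq_zero
    · have hm : ((m : ℝ) + 1) ≠ 0 := by positivity
      have key : ((m : ℝ) + 1) • D (cf c y (m + 1)) =
          ((m : ℝ) + 1) • (if k + 1 ≤ m + 1 then c • cf c y (m + 1 - (k + 1)) else 0) := by
        rw [← D.map_smul, newton, D.map_smul, map_sum]
        have h1 : ∀ j ∈ Finset.range (m + 1), D (((j : ℝ) + 1) • (y (j + 1) * cf c y (m - j))) =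
            (if j = k then ((j : ℝ) + 1) • cf c y (m - j) else 0) +
            (if j + (k + 1) ≤ m then ((j : ℝ) + 1) • (c • (y (j + 1) * cf c y (m - (k + 1) - j))) else 0) := by
          intro j hj
          rw [Finset.mem_range] at hj
          rw [D.map_smul, D.leibniz, ih (m - j) (by omega), hD (j + 1) (by omega), smul_add, add_comm]
          congr 1
          · by_cases hjk : j = k
            · rw [if_pos hjk, if_pos (by omega)]
              simp
            · rw [if_neg hjk, if_neg (by omega)]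
              simp
          · by_cases hjk : j + (k + 1) ≤ m
            · rw [if_pos hjk, if_pos (by omega)]
              have e : m - j - (k + 1) = m - (k + 1) - j := by omega
              rw [e, smul_eq_mul, mul_smul_comm]
            · rw [if_neg hjk, if_neg (by omega)]
              simp
        rw [Finset.sum_congr rfl h1, Finset.sum_add_distrib]
        by_cases hk : k + 1 ≤ m + 1
        · rw [if_pos hk]
          have s1 : ∑ j ∈ Finset.range (m + 1), (if j = k then ((j : ℝ) + 1) • cf c y (m - j) else 0) =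
              ((k : ℝ) + 1) • cf c y (m + 1 - (k + 1)) := by
            rw [Finset.sum_ite_eq' (Finset.range (m + 1)) k (fun j => ((j : ℝ) + 1) • cf c y (m - j)),
              if_pos (Finset.mem_range.mpr (by omega))]
            have e : m - k = m + 1 - (k + 1) := by omega
            rw [e]
          have s2 : ∑ j ∈ Finset.range (m + 1), (if j + (k + 1) ≤ m then
              ((j : ℝ) + 1) • (c • (y (j + 1) * cf c y (m - (k + 1) - j))) else 0) =
              ((m : ℝ) - (k : ℝ)) • cf c y (m + 1 - (k + 1)) := by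
            by_cases hk2 : k + 1 ≤ m
            · obtain ⟨q, hq⟩ : ∃ q, m = q + (k + 1) := ⟨m - (k + 1), by omega⟩
              have e1 : m + 1 - (k + 1) = q + 1 := by omega
              have e2 : m - (k + 1) = q := by omega
              have e3 : (m : ℝ) - (k : ℝ) = (q : ℝ) + 1 := by
                rw [hq]
                push_cast
                ring
              rw [e1, e2, e3, newton, Finset.smul_sum, ← Finset.sum_filter]
              have e4 : (Finset.range (m + 1)).filter (fun j => j + (k + 1) ≤ m) = Finset.range (q + 1) := by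
                ext j
                simp only [Finset.mem_filter, Finset.mem_range]
                omega
              rw [e4]
              apply Finset.sum_congr rfl
              intro j hj
              rw [smul_comm]
            · have e : m = k := by omega
              rw [e, sub_self, zero_smul]
              apply Finset.sum_eq_zero
              intro j hj
              rw [if_neg (by omega)]
          rw [s1, s2, ← add_smul, smul_comm]
          congr 1
          ring
        · rw [if_neg hk]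
          rw [Finset.sum_eq_zero, Finset.sum_eq_zero, add_zero, smul_zero, smul_zero]
          · intro j hj
            rw [if_neg (by rw [Finset.mem_range] at hj; omega)]
          · intro j hj
            rw [if_neg (by rw [Finset.mem_range] at hj; omega)]
      have h2 := congrArg (fun z => ((m : ℝ) + 1)⁻¹ • z) key
      simp only [smul_smul, inv_mul_cancel₀ hm, one_smul] at h2
      exact h2

theorem pderiv_aL (c : ℝ) (j n : ℕ) : pderiv (Sum.inl j) (aL c n) = if 1 ≤ j ∧ j ≤ n then c • aL c (n - j) else 0 := by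
  unfold aL
  rcases j with _ | k
  · rw [if_neg (by omega)]
    apply der_cf_zero
    intro i hi
    rw [pderiv_X_of_ne]
    intro h
    have := Sum.inl_injective h
    omega
  · rw [der_cf (pderiv (Sum.inl (k + 1))) c _ k]
    · by_cases h : k + 1 ≤ n
      · rw [if_pos h, if_pos ⟨by omega, h⟩]
      · rw [if_neg h, if_neg (by omega)]
    · intro i hi
      by_cases h : i = k + 1
      · rw [if_pos h, h, pderiv_X_self]
      · rw [if_neg h, pderiv_X_of_ne]
        intro h'
        exact h (Sum.inl_injective h')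

theorem pderiv_aR (c : ℝ) (j n : ℕ) : pderiv (Sum.inr j) (aR c n) = if 1 ≤ j ∧ j ≤ n then c • aR c (n - j) else 0 := by
  unfold aR
  rcases j with _ | k
  · rw [if_neg (by omega)]
    apply der_cf_zero
    intro i hi
    rw [pderiv_X_of_ne]
    intro h
    have := Sum.inr_injective h
    omega
  · rw [der_cf (pderiv (Sum.inr (k + 1))) c _ k]
    · by_cases h : k + 1 ≤ n
      · rw [if_pos h, if_pos ⟨by omega, h⟩]
      · rw [if_neg h, if_neg (by omega)]
    · intro i hi
      by_cases h : i = k + 1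
      · rw [if_pos h, h, pderiv_X_self]
      · rw [if_neg h, pderiv_X_of_ne]
        intro h'
        exact h (Sum.inr_injective h')

theorem pderiv_inr_aL (c : ℝ) (j n : ℕ) : pderiv (Sum.inr j) (aL c n) = 0 := by
  unfold aL
  apply der_cf_zero
  intro i hi
  rw [pderiv_X_of_ne]
  intro h
  exact Sum.inl_ne_inr h

theorem pderiv_inl_aR (c : ℝ) (j n : ℕ) : pderiv (Sum.inl j) (aR c n) = 0 := by
  unfold aR
  apply der_cf_zero
  intro i hi
  rw [pderiv_X_of_ne]
  intro h
  exact Sum.inr_ne_inl h

lemma wL_add (m₁ m₂ : (ℕ ⊕ ℕ) →₀ ℕ) :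
    ((m₁ + m₂).sum fun i e => Sum.elim (fun j => j * e) (fun _ => 0) i) =
      (m₁.sum fun i e => Sum.elim (fun j => j * e) (fun _ => 0) i) +
      (m₂.sum fun i e => Sum.elim (fun j => j * e) (fun _ => 0) i) := by
  apply Finsupp.sum_add_index'
  · rintro (i | i) <;> simp
  · rintro (i | i) a b <;> simp [mul_add]

lemma wR_add (m₁ m₂ : (ℕ ⊕ ℕ) →₀ ℕ) :
    ((m₁ + m₂).sum fun i e => Sum.elim (fun _ => 0) (fun j => j * e) i) =
      (m₁.sum fun i e => Sum.elim (fun _ => 0) (fun j => j * e) i) +
      (m₂.sum fun i e => Sum.elim (fun _ => 0) (fun j => j * e) i) := by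
  apply Finsupp.sum_add_index'
  · rintro (i | i) <;> simp
  · rintro (i | i) a b <;> simp [mul_add]

lemma Deg2'.mul {a b c d : ℕ} {P Q : PP} (hP : Deg2' a b P) (hQ : Deg2' c d Q) : Deg2' (a + c) (b + d) (P * Q) := by
  classical
  intro m hm
  have h := MvPolynomial.support_mul P Q hm
  rw [Finset.mem_add] at h
  obtain ⟨m₁, h₁, m₂, h₂, rfl⟩ := h
  rw [wL_add, wR_add]
  have k₁ := hP m₁ h₁
  have k₂ := hQ m₂ h₂
  exact ⟨Nat.add_le_add k₁.1 k₂.1, Nat.add_le_add k₁.2 k₂.2⟩

lemma Deg2'.add {a b : ℕ} {P Q : PP} (hP : Deg2' a b P) (hQ : Deg2' a b Q) : Deg2' a b (P + Q) := by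
  classical
  intro m hm
  have h := MvPolynomial.support_add hm
  rw [Finset.mem_union] at h
  rcases h with h | h
  · exact hP m h
  · exact hQ m h

lemma Deg2'.zero (a b : ℕ) : Deg2' a b (0 : PP) := by
  intro m hm
  simp at hm

lemma Deg2'.sum {a b : ℕ} {ι : Type*} (s : Finset ι) {P : ι → PP} (h : ∀ i ∈ s, Deg2' a b (P i)) : Deg2' a b (∑ i ∈ s, P i) := by
  classical
  induction s using Finset.induction_on with
  | empty =>
    rw [Finset.sum_empty]
    exact Deg2'.zero a b
  | insert i s hi ih =>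
    rw [Finset.sum_insert hi]
    exact (h i (Finset.mem_insert_self i s)).add (ih fun j hj => h j (Finset.mem_insert_of_mem hj))

lemma Deg2'.smul {a b : ℕ} {P : PP} (hP : Deg2' a b P) (c : ℝ) : Deg2' a b (c • P) := by
  intro m hm
  exact hP m (MvPolynomial.support_smul hm)

lemma Deg2'.mono {a b a' b' : ℕ} {P : PP} (hP : Deg2' a b P) (h : a ≤ a') (h' : b ≤ b') : Deg2' a' b' P := by
  intro m hm
  exact ⟨(hP m hm).1.trans h, (hP m hm).2.trans h'⟩

lemma Deg2'.one : Deg2' 0 0 (1 : PP) := by
  intro m hm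
  have h : m = 0 := by
    by_contra hne
    rw [MvPolynomial.mem_support_iff, MvPolynomial.coeff_one, if_neg (fun h => hne h.symm)] at hm
    exact hm rfl
  subst h
  simp

lemma deg_cf (c : ℝ) (y : ℕ → PP) (e e' : ℕ) (hy : ∀ i, 1 ≤ i → Deg2' (e * i) (e' * i) (y i)) (n : ℕ) :
    Deg2' (e * n) (e' * n) (cf c y n) := by
  induction n using Nat.strong_induction_on with
  | _ n ih =>
    rcases n with _ | n
    · rw [cf_zero]
      exact Deg2'.one
    · rw [cf_succ]
      apply Deg2'.smul
      apply Deg2'.sum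
      intro j hj
      rw [Finset.mem_range] at hj
      apply Deg2'.smul
      have h := (hy (j + 1) (by omega)).mul (ih (n - j) (by omega))
      have e1 : e * (j + 1) + e * (n - j) = e * (n + 1) := by
        rw [← mul_add]
        congr 1
        omega
      have e2 : e' * (j + 1) + e' * (n - j) = e' * (n + 1) := by
        rw [← mul_add]
        congr 1
        omega
      rw [e1, e2] at h
      exact h

lemma deg_aL (c : ℝ) (n : ℕ) : Deg2' n 0 (aL c n) := by
  have h := deg_cf c (fun j => (X (Sum.inl j) : PP)) 1 0 (by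
    intro i _ m hm
    rw [MvPolynomial.support_X, Finset.mem_singleton] at hm
    subst hm
    simp [Finsupp.sum_single_index]) n
  rw [one_mul, zero_mul] at h
  exact h

lemma deg_aR (c : ℝ) (n : ℕ) : Deg2' 0 n (aR c n) := by
  have h := deg_cf c (fun j => (X (Sum.inr j) : PP)) 0 1 (by
    intro i _ m hm
    rw [MvPolynomial.support_X, Finset.mem_singleton] at hm
    subst hm
    simp [Finsupp.sum_single_index]) n
  rw [one_mul, zero_mul] at h
  exact h

end Pool.Agent.H14.GP
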