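import Mathlib
import Pool.Agent.H14.GP.Gb

/-!
# Row Gc (110 lines): the Wick ordered products `wk`, derivatives (helper68)

`wk c R n m` = coefficient of `z^n w^m` in `(1 - z w)^R exp (c ∑ Y_j z^j) exp (c ∑ Ȳ_j w^j)`.

`Amp_eq`: exchange the sums in the definition of `Amp` (`Finset.sum_comm` twice), pull the factor
`f n * f m` into the sum over `k` (`Finset.smul_sum`, `smul_ite`, `smul_smul`); `aL`, `aR` unfold to `cf`.
`wk_range`: for every `N ≥ min n m` one may sum over `k ∈ range (N + 1)` (the terms with `k > R` have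
`R.choose k = 0`, the terms with `k > min n m` are `0`): both sums equal the sum over
`range (max R N + 1)` (`Finset.sum_subset`).
`pderiv_inl_wk`: `pderiv` is linear (`map_sum`, `Derivation.map_smul`) and `pderiv (aL a * aR b) =
pderiv (aL a) * aR b` by `Derivation.leibniz` and `pderiv_inl_aR`; `pderiv_aL`: for `k ≤ n`, `k ≤ m`
the term is `c • aL (n - k - j)` when `1 ≤ j ≤ n - k`; and `k ≤ n`, `j ≤ n - k` iff `j ≤ n`, `k ≤ n - j`,
and `n - k - j = n - j - k`.  `pderiv_inr_wk`: same with the roles exchanged.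
-/

open MvPolynomial

namespace Pool.Agent.H14.GP

/-- coefficient of `z^n w^m` in the Wick ordered product -/
noncomputable def wk (c : ℝ) (R n m : ℕ) : PP :=
  ∑ k ∈ Finset.range (R + 1), if k ≤ n ∧ k ≤ m then
    ((-1) ^ k * (R.choose k : ℝ)) • (aL c (n - k) * aR c (m - k)) else 0

theorem Amp_eq (c : ℝ) (R M : ℕ) (f : ℕ → ℝ) : Amp c R M f =
    ∑ n ∈ Finset.range M, ∑ m ∈ Finset.range M, (f n * f m) • wk c R n m := by
  unfold Amp
  rw [Finset.sum_comm]
  refine Finset.sum_congr rfl fun n _ => ?_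
  rw [Finset.sum_comm]
  refine Finset.sum_congr rfl fun m _ => ?_
  unfold wk
  rw [Finset.smul_sum]
  refine Finset.sum_congr rfl fun k _ => ?_
  by_cases h : k ≤ n ∧ k ≤ m
  · rw [if_pos h, if_pos h, smul_smul]
    have e : (-1 : ℝ) ^ k * (R.choose k : ℝ) * f n * f m = f n * f m * ((-1) ^ k * (R.choose k : ℝ)) := by
      ring
    rw [e]
    rfl
  · rw [if_neg h, if_neg h, smul_zero]

lemma Gc_pl (c : ℝ) (j a b : ℕ) : pderiv (Sum.inl j) (aL c a * aR c b) =
    if 1 ≤ j ∧ j ≤ a then c • (aL c (a - j) * aR c b) else 0 := by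
  rw [pderiv_mul, pderiv_inl_aR, mul_zero, add_zero, pderiv_aL]
  by_cases h : 1 ≤ j ∧ j ≤ a
  · rw [if_pos h, if_pos h, smul_mul_assoc]
  · rw [if_neg h, if_neg h, zero_mul]

lemma Gc_pr (c : ℝ) (j a b : ℕ) : pderiv (Sum.inr j) (aL c a * aR c b) =
    if 1 ≤ j ∧ j ≤ b then c • (aL c a * aR c (b - j)) else 0 := by
  rw [pderiv_mul, pderiv_inr_aL, zero_mul, zero_add, pderiv_aR]
  by_cases h : 1 ≤ j ∧ j ≤ b
  · rw [if_pos h, if_pos h, mul_smul_comm]
  · rw [if_neg h, if_neg h, mul_zero]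

theorem wk_range (c : ℝ) (R n m : ℕ) {N : ℕ} (hN : min n m ≤ N) : wk c R n m =
    ∑ k ∈ Finset.range (N + 1), if k ≤ n ∧ k ≤ m then
      ((-1) ^ k * (R.choose k : ℝ)) • (aL c (n - k) * aR c (m - k)) else 0 := by
  have h1 : wk c R n m = ∑ k ∈ Finset.range (max R N + 1), if k ≤ n ∧ k ≤ m then
      ((-1) ^ k * (R.choose k : ℝ)) • (aL c (n - k) * aR c (m - k)) else 0 := by
    unfold wk
    refine Finset.sum_subset (fun k hk => ?_) (fun k _ hk => ?_)
    · rw [Finset.mem_range] at hk ⊢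
      have := le_max_left R N
      omega
    · rw [Finset.mem_range] at hk
      have h2 : R.choose k = 0 := Nat.choose_eq_zero_of_lt (by omega)
      rw [h2, Nat.cast_zero, mul_zero, zero_smul, ite_self]
  rw [h1]
  symm
  refine Finset.sum_subset (fun k hk => ?_) (fun k _ hk => ?_)
  · rw [Finset.mem_range] at hk ⊢
    have := le_max_right R N
    omega
  · rw [Finset.mem_range] at hk
    rw [if_neg]
    rintro ⟨h2, h3⟩
    have := le_min h2 h3
    omega

theorem pderiv_inl_wk (c : ℝ) (R n m j : ℕ) : pderiv (Sum.inl j) (wk c R n m) =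
    if 1 ≤ j ∧ j ≤ n then c • wk c R (n - j) m else 0 := by
  unfold wk
  rw [map_sum]
  by_cases hj : 1 ≤ j ∧ j ≤ n
  · rw [if_pos hj, Finset.smul_sum]
    refine Finset.sum_congr rfl fun k _ => ?_
    by_cases h : k ≤ n ∧ k ≤ m
    · rw [if_pos h, Derivation.map_smul, Gc_pl]
      by_cases h2 : k ≤ n - j ∧ k ≤ m
      · have e : n - k - j = n - j - k := by omega
        rw [if_pos h2, if_pos ⟨hj.1, by omega⟩, smul_smul, smul_smul, mul_comm c, e]
      · rw [if_neg h2, if_neg (by omega), smul_zero, smul_zero]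
    · rw [if_neg h, if_neg (by omega), map_zero, smul_zero]
  · rw [if_neg hj]
    refine Finset.sum_eq_zero fun k _ => ?_
    by_cases h : k ≤ n ∧ k ≤ m
    · rw [if_pos h, Derivation.map_smul, Gc_pl, if_neg (by omega), smul_zero]
    · rw [if_neg h, map_zero]

theorem pderiv_inr_wk (c : ℝ) (R n m j : ℕ) : pderiv (Sum.inr j) (wk c R n m) =
    if 1 ≤ j ∧ j ≤ m then c • wk c R n (m - j) else 0 := by
  unfold wk
  rw [map_sum]
  by_cases hj : 1 ≤ j ∧ j ≤ m
  · rw [if_pos hj, Finset.smul_sum]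
    refine Finset.sum_congr rfl fun k _ => ?_
    by_cases h : k ≤ n ∧ k ≤ m
    · rw [if_pos h, Derivation.map_smul, Gc_pr]
      by_cases h2 : k ≤ n ∧ k ≤ m - j
      · have e : m - k - j = m - j - k := by omega
        rw [if_pos h2, if_pos ⟨hj.1, by omega⟩, smul_smul, smul_smul, mul_comm c, e]
      · rw [if_neg h2, if_neg (by omega), smul_zero, smul_zero]
    · rw [if_neg h, if_neg (by omega), map_zero, smul_zero]
  · rw [if_neg hj]
    refine Finset.sum_eq_zero fun k _ => ?_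
    by_cases h : k ≤ n ∧ k ≤ m
    · rw [if_pos h, Derivation.map_smul, Gc_pr, if_neg (by omega), smul_zero]
    · rw [if_neg h, map_zero]

end Pool.Agent.H14.GP
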