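import Mathlib
import Pool.Agent.H14.GP.Gc

/-!
# Row Gd (180 lines): the creation formulas for the Wick ordered products (helper68)

`wk_succ_l`: `n wk(n, m) = c ∑_{1≤j≤n} j Y_j wk(n - j, m) - R ∑_{1≤j≤min(n,m)} wk(n - j, m - j)`.

PROOF. Let `N = min n m`, `e_k = (-1)^k C(R, k)`.  By `wk_range` `wk(n, m) = ∑_{k≤N} e_k aL(n-k) aR(m-k)`, and
`n = (n - k) + k`.
(1) `∑_{k≤N} e_k (n-k) aL(n-k) aR(m-k)`: Newton (`newton` in row Gb, for `n - k ≥ 1`; the term is `0` for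
`n = k`): `(n-k) aL(n-k) = c ∑_{1≤j≤n-k} j Y_j aL(n-k-j)`.  Exchange the sums over `k` and `j`
(`Finset.sum_comm'`; write everything as a sum over `k ∈ range (n + m + 1)`, `j ∈ Icc 1 n` with `if`-conditions
`k ≤ n`, `k ≤ m`, `j ≤ n - k`, which are equivalent to `j ≤ n`, `k ≤ n - j`, `k ≤ m`):
`c ∑_{1≤j≤n} j Y_j wk(n - j, m)` (`wk_range` with the same `N' = n + m`).
(2) `∑_{k≤N} e_k k aL(n-k) aR(m-k)` and `-R ∑_{1≤j≤N} wk(n-j, m-j) = -R ∑_{1≤j≤N} ∑_{k≤N-j} e_k aL(n-j-k) aR(m-j-k)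
= -R ∑_{1≤l≤N} (∑_{k<l} e_k) aL(n-l) aR(m-l)` (`l = j + k`; `Finset.sum_sigma'`, `Finset.sum_nbij'`, or
induction / `Finset.sum_comm'`).  `choose_sum` below: `-R ∑_{k<l} e_k = l e_l`.
`choose_sum`: induction on `l`: `l = 0`: `0 = 0`; step: `-R ∑_{k<l+1} e_k = l e_l - R e_l = -(R - l) (-1)^l C(R,l)`
and `(l+1) e_{l+1} = -(-1)^l (l+1) C(R, l+1)`, with `(l+1) C(R,l+1) = (R - l) C(R, l)` (`Nat.choose_succ_right_eq`:
`R.choose (l+1) * (l+1) = R.choose l * (R - l)`; for `l > R` both sides are zero; cast with care).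
`wk_succ_r`: the same with the roles of `n`, `m` exchanged.
-/

/-!
# Row Gd (180 lines): the creation formulas for the Wick ordered products (helper68)

`wk_succ_l`: `n wk(n, m) = c ∑_{1≤j≤n} j Y_j wk(n - j, m) - R ∑_{1≤j≤min(n,m)} wk(n - j, m - j)`.

PROOF. Let `N = min n m`, `e_k = (-1)^k C(R, k)`.  By `wk_range` `wk(n, m) = ∑_{k≤N} e_k aL(n-k) aR(m-k)`, and
`n = (n - k) + k`.
(1) `∑_{k≤N} e_k (n-k) aL(n-k) aR(m-k)`: Newton (`newton` in row Gb, for `n - k ≥ 1`; the term is `0` for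
`n = k`): `(n-k) aL(n-k) = c ∑_{1≤j≤n-k} j Y_j aL(n-k-j)`.  Exchange the sums over `k` and `j`:
`c ∑_{1≤j≤n} j Y_j wk(n - j, m)` (`wk_range`).
(2) `∑_{k≤N} e_k k aL(n-k) aR(m-k)` and `-R ∑_{1≤j≤N} wk(n-j, m-j) = -R ∑_{1≤j≤N} ∑_{k≤N-j} e_k aL(n-j-k) aR(m-j-k)
= -R ∑_{1≤l≤N} (∑_{k<l} e_k) aL(n-l) aR(m-l)` (`l = j + k`).  `choose_sum` below: `-R ∑_{k<l} e_k = l e_l`.
`choose_sum`: induction on `l`.
`wk_succ_r`: apply the automorphism exchanging `inl` and `inr`.
-/

open MvPolynomial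

namespace Pool.Agent.H14.GP

theorem choose_sum (R l : ℕ) : -(R : ℝ) * ∑ k ∈ Finset.range l, (-1 : ℝ) ^ k * (R.choose k : ℝ) =
    (l : ℝ) * ((-1) ^ l * (R.choose l : ℝ)) := by
  induction l with
  | zero => simp
  | succ l ih =>
    rw [Finset.sum_range_succ, mul_add, ih]
    have h1 : ((R.choose (l + 1) : ℕ) : ℝ) * ((l : ℝ) + 1) = (R.choose l : ℝ) * ((R : ℝ) - l) := by
      have h2 := Nat.choose_succ_right_eq R l
      by_cases h : l ≤ R
      · have h3 : ((R.choose (l + 1) * (l + 1) : ℕ) : ℝ) = ((R.choose l * (R - l) : ℕ) : ℝ) := by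
          rw [h2]
        push_cast [Nat.cast_sub h] at h3
        exact h3
      · rw [Nat.choose_eq_zero_of_lt (by omega), Nat.choose_eq_zero_of_lt (by omega)]
        simp
    rw [pow_succ]
    push_cast
    linear_combination (-1 : ℝ) ^ l * h1

theorem Gd_newt (c : ℝ) {a n : ℕ} (h : a ≤ n) : (a : ℝ) • aL c a =
    c • ∑ j ∈ Finset.Icc 1 n, if j ≤ a then (j : ℝ) • (X (Sum.inl j) * aL c (a - j)) else 0 := by
  have h1 : ∑ j ∈ Finset.Icc 1 n, (if j ≤ a then
      (j : ℝ) • ((X (Sum.inl j) : PP) * aL c (a - j)) else 0) =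
      ∑ j ∈ Finset.Icc 1 a, (j : ℝ) • (X (Sum.inl j) * aL c (a - j)) := by
    rw [← Finset.sum_filter]
    refine Finset.sum_congr ?_ fun _ _ => rfl
    ext j
    rw [Finset.mem_filter, Finset.mem_Icc, Finset.mem_Icc]
    omega
  rw [h1]
  cases a with
  | zero => simp
  | succ a =>
    have h2 := newton c (fun j => (X (Sum.inl j) : PP)) a
    have h3 : Finset.Icc 1 (a + 1) = Finset.Ico 1 (a + 2) := by
      ext j
      rw [Finset.mem_Icc, Finset.mem_Ico]
      omega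
    rw [h3, Finset.sum_Ico_eq_sum_range]
    push_cast
    refine Eq.trans h2 ?_
    congr 1
    refine Finset.sum_congr rfl fun j _ => ?_
    have h4 : a + 1 - (1 + j) = a - j := by omega
    rw [h4, add_comm 1 j, add_comm (1 : ℝ)]
    rfl

theorem Gd_sum (f : ℕ → ℝ) (T : ℕ → PP) (N : ℕ) (hT : ∀ l, N < l → T l = 0) :
    ∑ l ∈ Finset.range (N + 1), (∑ i ∈ Finset.range l, f i) • T l =
      ∑ j ∈ Finset.Icc 1 N, ∑ k ∈ Finset.range (N + 1), f k • T (j + k) := by
  rw [Finset.sum_comm]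
  have h1 : ∀ l ∈ Finset.range (N + 1), (∑ i ∈ Finset.range l, f i) • T l =
      ∑ i ∈ Finset.range (N + 1), if i < l then f i • T l else 0 := by
    intro l hl
    rw [Finset.mem_range] at hl
    rw [Finset.sum_smul, ← Finset.sum_filter]
    refine Finset.sum_congr ?_ fun _ _ => rfl
    ext i
    rw [Finset.mem_filter, Finset.mem_range, Finset.mem_range]
    omega
  rw [Finset.sum_congr rfl h1, Finset.sum_comm]
  refine Finset.sum_congr rfl fun k hk => ?_
  rw [Finset.mem_range] at hk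
  rw [← Finset.sum_filter]
  have h2 : ∑ j ∈ Finset.Icc 1 N, f k • T (j + k) =
      ∑ j ∈ (Finset.Icc 1 N).filter (fun j => j + k ≤ N), f k • T (j + k) := by
    rw [Finset.sum_filter]
    refine Finset.sum_congr rfl fun j _ => ?_
    split_ifs with h
    · rfl
    · rw [hT _ (by omega), smul_zero]
  rw [h2]
  refine Finset.sum_nbij' (fun l => l - k) (fun j => j + k) ?_ ?_ ?_ ?_ ?_
  · intro l hl
    rw [Finset.mem_filter, Finset.mem_range] at hl
    rw [Finset.mem_filter, Finset.mem_Icc]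
    omega
  · intro j hj
    rw [Finset.mem_filter, Finset.mem_Icc] at hj
    rw [Finset.mem_filter, Finset.mem_range]
    omega
  · intro l hl
    rw [Finset.mem_filter, Finset.mem_range] at hl
    omega
  · intro j _
    omega
  · intro l hl
    rw [Finset.mem_filter, Finset.mem_range] at hl
    rw [Nat.sub_add_cancel (by omega)]

theorem Gd_one (c : ℝ) (R n m : ℕ) : ∑ k ∈ Finset.range (min n m + 1),
      (((n - k : ℕ) : ℝ) • (((-1) ^ k * (R.choose k : ℝ)) • (aL c (n - k) * aR c (m - k)))) =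
    c • ∑ j ∈ Finset.Icc 1 n, (j : ℝ) • (X (Sum.inl j) * wk c R (n - j) m) := by
  have h1 : ∀ j ∈ Finset.Icc 1 n, (j : ℝ) • ((X (Sum.inl j) : PP) * wk c R (n - j) m) =
      ∑ k ∈ Finset.range (min n m + 1), if k ≤ n - j ∧ k ≤ m then
        (j : ℝ) • (X (Sum.inl j) * (((-1) ^ k * (R.choose k : ℝ)) •
          (aL c (n - j - k) * aR c (m - k)))) else 0 := by
    intro j hj
    rw [wk_range c R (n - j) m (N := min n m) (min_le_min_right m (Nat.sub_le n j)),
      Finset.mul_sum, Finset.smul_sum]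
    refine Finset.sum_congr rfl fun k _ => ?_
    split_ifs
    · rfl
    · rw [mul_zero, smul_zero]
  rw [Finset.sum_congr rfl h1, Finset.sum_comm, Finset.smul_sum]
  refine Finset.sum_congr rfl fun k hk => ?_
  rw [Finset.mem_range] at hk
  have hkn : k ≤ n := by omega
  have hkm : k ≤ m := by omega
  have h2 := Gd_newt c (a := n - k) (n := n) (Nat.sub_le n k)
  calc ((n - k : ℕ) : ℝ) • (((-1) ^ k * (R.choose k : ℝ)) • (aL c (n - k) * aR c (m - k)))
      = ((-1) ^ k * (R.choose k : ℝ)) • ((((n - k : ℕ) : ℝ) • aL c (n - k)) * aR c (m - k)) := by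
        rw [smul_comm, smul_mul_assoc]
    _ = c • ∑ j ∈ Finset.Icc 1 n, ((-1) ^ k * (R.choose k : ℝ)) •
        ((if j ≤ n - k then (j : ℝ) • ((X (Sum.inl j) : PP) * aL c (n - k - j)) else 0) *
          aR c (m - k)) := by
        rw [h2, smul_mul_assoc, smul_comm, Finset.sum_mul, Finset.smul_sum]
    _ = _ := by
        congr 1
        refine Finset.sum_congr rfl fun j hj => ?_
        rw [Finset.mem_Icc] at hj
        by_cases h : j ≤ n - k
        · have h3 : k ≤ n - j ∧ k ≤ m := ⟨by omega, hkm⟩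
          have h4 : n - k - j = n - j - k := by omega
          rw [if_pos h, if_pos h3, h4, smul_mul_assoc, smul_comm, mul_assoc, mul_smul_comm]
        · have h3 : ¬ (k ≤ n - j ∧ k ≤ m) := by omega
          rw [if_neg h, if_neg h3, zero_mul, smul_zero]

theorem Gd_two (c : ℝ) (R n m : ℕ) : ∑ k ∈ Finset.range (min n m + 1),
      ((k : ℝ) • (((-1) ^ k * (R.choose k : ℝ)) • (aL c (n - k) * aR c (m - k)))) =
    -((R : ℝ) • ∑ j ∈ Finset.Icc 1 (min n m), wk c R (n - j) (m - j)) := by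
  obtain ⟨T, hT⟩ : ∃ T : ℕ → PP, ∀ l, T l = if l ≤ n ∧ l ≤ m then aL c (n - l) * aR c (m - l)
      else 0 := ⟨_, fun _ => rfl⟩
  have hT0 : ∀ l, min n m < l → T l = 0 := by
    intro l hl
    rw [hT, if_neg (by omega)]
  have h1 : ∀ j ∈ Finset.Icc 1 (min n m), wk c R (n - j) (m - j) =
      ∑ k ∈ Finset.range (min n m + 1), ((-1) ^ k * (R.choose k : ℝ)) • T (j + k) := by
    intro j hj
    rw [Finset.mem_Icc] at hj
    rw [wk_range c R (n - j) (m - j) (N := min n m)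
      (min_le_min (Nat.sub_le n j) (Nat.sub_le m j))]
    refine Finset.sum_congr rfl fun k _ => ?_
    by_cases h : k ≤ n - j ∧ k ≤ m - j
    · have h2 : j + k ≤ n ∧ j + k ≤ m := by omega
      have h3 : n - j - k = n - (j + k) := by omega
      have h4 : m - j - k = m - (j + k) := by omega
      rw [if_pos h, hT, if_pos h2, h3, h4]
    · have h2 : ¬ (j + k ≤ n ∧ j + k ≤ m) := by omega
      rw [if_neg h, hT, if_neg h2, smul_zero]
  rw [Finset.sum_congr rfl h1,
    ← Gd_sum (fun k => (-1 : ℝ) ^ k * (R.choose k : ℝ)) T (min n m) hT0, Finset.smul_sum,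
    ← Finset.sum_neg_distrib]
  refine Finset.sum_congr rfl fun k hk => ?_
  rw [Finset.mem_range] at hk
  have h2 : k ≤ n ∧ k ≤ m := by omega
  rw [hT, if_pos h2, smul_smul, smul_smul, ← neg_smul, ← choose_sum R k, neg_mul]

theorem wk_succ_l (c : ℝ) (R n m : ℕ) : (n : ℝ) • wk c R n m =
    c • ∑ j ∈ Finset.Icc 1 n, (j : ℝ) • (X (Sum.inl j) * wk c R (n - j) m) -
      (R : ℝ) • ∑ j ∈ Finset.Icc 1 (min n m), wk c R (n - j) (m - j) := by
  rw [← Gd_one, sub_eq_add_neg, ← Gd_two, ← Finset.sum_add_distrib,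
    wk_range c R n m (N := min n m) le_rfl, Finset.smul_sum]
  refine Finset.sum_congr rfl fun k hk => ?_
  rw [Finset.mem_range] at hk
  have h2 : k ≤ n ∧ k ≤ m := by omega
  rw [if_pos h2, ← add_smul, Nat.cast_sub h2.1, sub_add_cancel]

theorem Gd_aL (c : ℝ) (n : ℕ) : rename Sum.swap (aL c n) = aR c n := by
  unfold aL aR
  rw [cf_map]
  congr 1
  funext j
  rw [rename_X]
  rfl

theorem Gd_aR (c : ℝ) (n : ℕ) : rename Sum.swap (aR c n) = aL c n := by
  unfold aL aR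
  rw [cf_map]
  congr 1
  funext j
  rw [rename_X]
  rfl

theorem Gd_swap (c : ℝ) (R n m : ℕ) : rename Sum.swap (wk c R n m) = wk c R m n := by
  unfold wk
  rw [map_sum]
  refine Finset.sum_congr rfl fun k _ => ?_
  by_cases h : k ≤ n ∧ k ≤ m
  · rw [if_pos h, if_pos ⟨h.2, h.1⟩, map_smul, map_mul, Gd_aL, Gd_aR, mul_comm (aR c (n - k))]
  · have h2 : ¬ (k ≤ m ∧ k ≤ n) := fun h' => h ⟨h'.2, h'.1⟩
    rw [if_neg h, if_neg h2, map_zero]

theorem wk_succ_r (c : ℝ) (R n m : ℕ) : (m : ℝ) • wk c R n m =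
    c • ∑ j ∈ Finset.Icc 1 m, (j : ℝ) • (X (Sum.inr j) * wk c R n (m - j)) -
      (R : ℝ) • ∑ j ∈ Finset.Icc 1 (min n m), wk c R (n - j) (m - j) := by
  have h := congrArg (rename (R := ℝ) Sum.swap) (wk_succ_l c R m n)
  rw [map_smul, Gd_swap, map_sub, map_smul, map_smul, map_sum, map_sum] at h
  rw [h, min_comm]
  congr 1
  · congr 1
    refine Finset.sum_congr rfl fun j _ => ?_
    rw [map_smul, map_mul, rename_X, Gd_swap]
    rfl
  · congr 1
    refine Finset.sum_congr rfl fun j _ => ?_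
    rw [Gd_swap]

end Pool.Agent.H14.GP
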