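import Mathlib
import Pool.Agent.H14.GP.Ga
import Pool.Agent.H14.GP.Gd

/-!
# Row Ge (110 lines): Gaussian integration by parts for the Wick ordered products (helper68)

`wick_l`: for `n < M`, `c ^ 2 = R`: `n E[wk(n,m) Q] = c ∑_{1≤j≤n} E[wk(n-j, m) ∂Q/∂Ȳ_j]`.

PROOF. `n E[wk(n,m) Q] = E[(n • wk(n,m)) Q]`, insert `wk_succ_l`.  `E[Y_j wk(n-j,m) Q] = s_j E[∂_{Ȳ_j} (wk(n-j,m) Q)]`
(`stein_l`), `= s_j (E[∂_{Ȳ_j} wk(n-j,m) Q] + E[wk(n-j,m) ∂_{Ȳ_j} Q])` (`Derivation.leibniz`, `smul_eq_mul`), and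
`j s_j = 1` for `1 ≤ j ≤ n < M` (`sM`).  By `pderiv_inr_wk` the first term is `c E[wk(n-j, m-j) Q]` for `j ≤ m`
and `0` otherwise, so the sum of the first terms, times `c`, is `c ^ 2 ∑_{1≤j≤n, j≤m} E[wk(n-j, m-j) Q]`, which cancels
the second sum of `wk_succ_l` (`Finset.Icc 1 (min n m)` is the filter of `Icc 1 n` by `j ≤ m`).
`wick_r`: the same with `wk_succ_r`, `stein_r`, `pderiv_inl_wk`.
-/

open MvPolynomial

namespace Pool.Agent.H14.GP

private lemma Ge_s {M j : ℕ} (h1 : 1 ≤ j) (h2 : j < M) : (j : ℝ) * sM M j = 1 := by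
  unfold sM
  rw [if_pos ⟨h1, h2⟩]
  have : (j : ℝ) ≠ 0 := by exact_mod_cast (by omega : j ≠ 0)
  field_simp

private lemma Ge_filter (n m : ℕ) :
    (Finset.Icc 1 n).filter (fun j => j ≤ m) = Finset.Icc 1 (min n m) := by
  ext j
  simp only [Finset.mem_filter, Finset.mem_Icc]
  omega

theorem wick_l {c : ℝ} {R M : ℕ} (hc : c ^ 2 = R) {n : ℕ} (hn : n < M) (m : ℕ) (Q : PP) :
    (n : ℝ) * EG (sM M) (wk c R n m * Q) =
      c * ∑ j ∈ Finset.Icc 1 n, EG (sM M) (wk c R (n - j) m * pderiv (Sum.inr j) Q) := by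
  have h1 : ∀ j ∈ Finset.Icc 1 n, EG (sM M) (((j : ℝ) • (X (Sum.inl j) * wk c R (n - j) m)) * Q) =
      EG (sM M) (wk c R (n - j) m * pderiv (Sum.inr j) Q) +
      (if j ≤ m then c * EG (sM M) (wk c R (n - j) (m - j) * Q) else 0) := by
    intro j hj
    rw [Finset.mem_Icc] at hj
    rw [smul_mul_assoc, map_smul, smul_eq_mul, mul_assoc, stein_l, ← mul_assoc,
      Ge_s hj.1 (lt_of_le_of_lt hj.2 hn), one_mul, Derivation.leibniz, map_add, smul_eq_mul,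
      smul_eq_mul, pderiv_inr_wk]
    congr 1
    by_cases h : j ≤ m
    · rw [if_pos ⟨hj.1, h⟩, if_pos h, mul_smul_comm, map_smul, smul_eq_mul, mul_comm Q]
    · rw [if_neg (fun h' => h h'.2), if_neg h, mul_zero, map_zero]
  have e0 : (n : ℝ) * EG (sM M) (wk c R n m * Q) = EG (sM M) (((n : ℝ) • wk c R n m) * Q) := by
    rw [smul_mul_assoc, map_smul, smul_eq_mul]
  have h3 : c * ∑ j ∈ Finset.Icc 1 n,
      (if j ≤ m then c * EG (sM M) (wk c R (n - j) (m - j) * Q) else 0) =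
      (R : ℝ) * ∑ j ∈ Finset.Icc 1 (min n m), EG (sM M) (wk c R (n - j) (m - j) * Q) := by
    rw [← Finset.sum_filter, Ge_filter, ← Finset.mul_sum, ← mul_assoc, ← pow_two, hc]
  rw [e0, wk_succ_l, sub_mul, smul_mul_assoc, smul_mul_assoc, Finset.sum_mul, Finset.sum_mul,
    map_sub, map_smul, map_smul, map_sum, map_sum, smul_eq_mul, smul_eq_mul,
    Finset.sum_congr rfl h1, Finset.sum_add_distrib, mul_add, h3]
  ring

theorem wick_r {c : ℝ} {R M : ℕ} (hc : c ^ 2 = R) (n : ℕ) {m : ℕ} (hm : m < M) (Q : PP) :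
    (m : ℝ) * EG (sM M) (wk c R n m * Q) =
      c * ∑ j ∈ Finset.Icc 1 m, EG (sM M) (wk c R n (m - j) * pderiv (Sum.inl j) Q) := by
  have h1 : ∀ j ∈ Finset.Icc 1 m, EG (sM M) (((j : ℝ) • (X (Sum.inr j) * wk c R n (m - j))) * Q) =
      EG (sM M) (wk c R n (m - j) * pderiv (Sum.inl j) Q) +
      (if j ≤ n then c * EG (sM M) (wk c R (n - j) (m - j) * Q) else 0) := by
    intro j hj
    rw [Finset.mem_Icc] at hj
    rw [smul_mul_assoc, map_smul, smul_eq_mul, mul_assoc, stein_r, ← mul_assoc,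
      Ge_s hj.1 (lt_of_le_of_lt hj.2 hm), one_mul, Derivation.leibniz, map_add, smul_eq_mul,
      smul_eq_mul, pderiv_inl_wk]
    congr 1
    by_cases h : j ≤ n
    · rw [if_pos ⟨hj.1, h⟩, if_pos h, mul_smul_comm, map_smul, smul_eq_mul, mul_comm Q]
    · rw [if_neg (fun h' => h h'.2), if_neg h, mul_zero, map_zero]
  have e0 : (m : ℝ) * EG (sM M) (wk c R n m * Q) = EG (sM M) (((m : ℝ) • wk c R n m) * Q) := by
    rw [smul_mul_assoc, map_smul, smul_eq_mul]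
  have h3 : c * ∑ j ∈ Finset.Icc 1 m,
      (if j ≤ n then c * EG (sM M) (wk c R (n - j) (m - j) * Q) else 0) =
      (R : ℝ) * ∑ j ∈ Finset.Icc 1 (min n m), EG (sM M) (wk c R (n - j) (m - j) * Q) := by
    rw [← Finset.sum_filter, Ge_filter, min_comm, ← Finset.mul_sum, ← mul_assoc, ← pow_two, hc]
  rw [e0, wk_succ_r, sub_mul, smul_mul_assoc, smul_mul_assoc, Finset.sum_mul, Finset.sum_mul,
    map_sub, map_smul, map_smul, map_sum, map_sum, smul_eq_mul, smul_eq_mul,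
    Finset.sum_congr rfl h1, Finset.sum_add_distrib, mul_add, h3]
  ring

end Pool.Agent.H14.GP
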