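import Mathlib
import Pool.Agent.H14.GP.Ge

/-!
# Row Gf (160 lines): the covariances of the Wick ordered products (helper68)

`E(n,m;n',m') := EG (sM M) (wk n m * wk n' m')`, all indices `< M`, `c ^ 2 = R`.

`rho_rec`: `n ρ(n) = R ∑_{1≤j≤n} ρ(n-j)`.  PROOF: `hockey`: `∑_{i<n} ρ(i) R = n ρ(n)` by induction on `n`:
`R ρ(n) + n ρ(n) = (n + R) C(n+R-1, n) = (n+1) C(n+R, n+1)` (`Nat.succ_mul_choose_eq`: `(N+1) C(N,k) = C(N+1,k+1) (k+1)`
with `N = n + R - 1`; the case `R = 0` separately: `ρ(0) = 1`, `ρ(n) = 0` for `n ≥ 1`), then reflect the sum.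
`two_pt`: PROOF.  Three recursions, valid for indices `< M`:
 (a) `n E(n,m;n',m') = R ∑_{1≤j≤min(n,m')} E(n-j,m;n',m'-j)`: `wick_l` with `Q = wk n' m'`, `pderiv_inr_wk`, `c * c = R`.
 (b) `m' E(n,m;n',m') = R ∑_{1≤j≤min(n,m')} E(n-j,m;n',m'-j)`: `wick_r` for `wk n' m'` with `Q = wk n m`
     (`mul_comm`), `pderiv_inl_wk`.
 (c) `m E(n,m;n',m') = R ∑_{1≤j≤min(m,n')} E(n,m-j;n'-j,m')`: `wick_r` for `wk n m`, `Q = wk n' m'`, `pderiv_inl_wk`.
 (d) `n' E(n,m;n',m') = R ∑_{1≤j≤min(m,n')} E(n,m-j;n'-j,m')`: `wick_l` for `wk n' m'`, `Q = wk n m`.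
 Step 1, `E(0,m;n',0) = if m = n' then ρ(m) else 0`, by strong induction on `m`: `m = 0`, `n' > 0`: (d) gives
 `n' E = 0`; `m = n' = 0`: `wk 0 0 = 1` (`wk_range` with `N = 0`, `cf_zero`) and `EG_one`; `m > 0`: (c), the
 induction hypothesis (`m - j = n' - j` iff `m = n'`, for `j ≤ min(m,n')`) and `rho_rec`.
 Step 2, strong induction on `n`: `n = 0`, `m' > 0`: (b) gives `m' E = 0`; `n = 0`, `m' = 0`: step 1;
 `n > 0`: (a), the induction hypothesis and `rho_rec` (for `n = m'` the sum is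
 `∑_{1≤j≤n} ρ(n-j) ρ(m) = n ρ(n) ρ(m) / R`, otherwise all terms vanish).
-/

open MvPolynomial

namespace Pool.Agent.H14.GP

private lemma Gf_rho_zero (R : ℕ) : rho R 0 = 1 := by
  unfold rho
  rw [Nat.choose_zero_right, Nat.cast_one]

private lemma Gf_hockey (R n : ℕ) : (R : ℝ) * ∑ i ∈ Finset.range n, rho R i = (n : ℝ) * rho R n := by
  rcases Nat.eq_zero_or_pos R with h0 | h0
  · subst h0
    rw [Nat.cast_zero, zero_mul]
    rcases Nat.eq_zero_or_pos n with h1 | h1
    · rw [h1, Nat.cast_zero, zero_mul]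
    · unfold rho
      rw [Nat.choose_eq_zero_of_lt (by omega), Nat.cast_zero, mul_zero]
  · obtain ⟨r, rfl⟩ : ∃ r, R = r + 1 := ⟨R - 1, by omega⟩
    have h2 : ∀ n, rho (r + 1) n = ((n + r).choose n : ℝ) := fun n => rfl
    induction n with
    | zero => simp
    | succ n ih =>
      rw [Finset.sum_range_succ, mul_add, ih, h2, h2]
      have h3 := Nat.add_one_mul_choose_eq (n + r) n
      have h4 : (((n + r + 1 : ℕ) : ℝ)) * ((n + r).choose n : ℝ) =
          (((n + r + 1).choose (n + 1) : ℕ) : ℝ) * ((n + 1 : ℕ) : ℝ) := by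
        exact_mod_cast h3
      have h5 : (n + 1 + r) = (n + r + 1) := by omega
      rw [h5, mul_comm ((n + 1 : ℕ) : ℝ), ← h4]
      push_cast
      ring

private lemma Gf_reflect (g : ℕ → ℝ) (n : ℕ) :
    ∑ j ∈ Finset.Icc 1 n, g (n - j) = ∑ i ∈ Finset.range n, g i := by
  refine Finset.sum_nbij' (fun j => n - j) (fun i => n - i) ?_ ?_ ?_ ?_ ?_
  · intro j hj
    rw [Finset.mem_Icc] at hj
    rw [Finset.mem_range]
    omega
  · intro i hi
    rw [Finset.mem_range] at hi
    rw [Finset.mem_Icc]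
    omega
  · intro j hj
    rw [Finset.mem_Icc] at hj
    show n - (n - j) = j
    omega
  · intro i hi
    rw [Finset.mem_range] at hi
    show n - (n - i) = i
    omega
  · intro j _
    rfl

theorem rho_rec (R n : ℕ) : (n : ℝ) * rho R n = R * ∑ j ∈ Finset.Icc 1 n, rho R (n - j) := by
  rw [Gf_reflect (rho R) n, Gf_hockey]

private lemma Gf_filter (n m : ℕ) :
    (Finset.Icc 1 n).filter (fun j => j ≤ m) = Finset.Icc 1 (min n m) := by
  ext j
  simp only [Finset.mem_filter, Finset.mem_Icc]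
  omega

private lemma Gf_sum {c : ℝ} {R : ℕ} (hc : c ^ 2 = R) (n m : ℕ) (g : ℕ → ℝ) :
    c * ∑ j ∈ Finset.Icc 1 n, (if j ≤ m then c * g j else 0) =
      (R : ℝ) * ∑ j ∈ Finset.Icc 1 (min n m), g j := by
  rw [← Finset.sum_filter, Gf_filter, ← Finset.mul_sum, ← mul_assoc, ← pow_two, hc]

private lemma Gf_a {c : ℝ} {R M : ℕ} (hc : c ^ 2 = R) {n : ℕ} (m n' m' : ℕ) (hn : n < M) :
    (n : ℝ) * EG (sM M) (wk c R n m * wk c R n' m') =
      R * ∑ j ∈ Finset.Icc 1 (min n m'), EG (sM M) (wk c R (n - j) m * wk c R n' (m' - j)) := by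
  rw [wick_l hc hn, ← Gf_sum hc n m' (fun j => EG (sM M) (wk c R (n - j) m * wk c R n' (m' - j)))]
  congr 1
  refine Finset.sum_congr rfl fun j hj => ?_
  rw [Finset.mem_Icc] at hj
  rw [pderiv_inr_wk]
  by_cases h : j ≤ m'
  · rw [if_pos ⟨hj.1, h⟩, if_pos h, mul_smul_comm, map_smul, smul_eq_mul]
  · rw [if_neg (fun h' => h h'.2), if_neg h, mul_zero, map_zero]

private lemma Gf_b {c : ℝ} {R M : ℕ} (hc : c ^ 2 = R) (n m n' : ℕ) {m' : ℕ} (hm' : m' < M) :
    (m' : ℝ) * EG (sM M) (wk c R n m * wk c R n' m') =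
      R * ∑ j ∈ Finset.Icc 1 (min n m'), EG (sM M) (wk c R (n - j) m * wk c R n' (m' - j)) := by
  rw [mul_comm (wk c R n m), wick_r hc n' hm', min_comm,
    ← Gf_sum hc m' n (fun j => EG (sM M) (wk c R (n - j) m * wk c R n' (m' - j)))]
  congr 1
  refine Finset.sum_congr rfl fun j hj => ?_
  rw [Finset.mem_Icc] at hj
  rw [pderiv_inl_wk]
  by_cases h : j ≤ n
  · rw [if_pos ⟨hj.1, h⟩, if_pos h, mul_smul_comm, map_smul, smul_eq_mul, mul_comm (wk c R n' (m' - j))]
  · rw [if_neg (fun h' => h h'.2), if_neg h, mul_zero, map_zero]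

private lemma Gf_c {c : ℝ} {R M : ℕ} (hc : c ^ 2 = R) (n : ℕ) {m : ℕ} (n' m' : ℕ) (hm : m < M) :
    (m : ℝ) * EG (sM M) (wk c R n m * wk c R n' m') =
      R * ∑ j ∈ Finset.Icc 1 (min m n'), EG (sM M) (wk c R n (m - j) * wk c R (n' - j) m') := by
  rw [wick_r hc n hm, ← Gf_sum hc m n' (fun j => EG (sM M) (wk c R n (m - j) * wk c R (n' - j) m'))]
  congr 1
  refine Finset.sum_congr rfl fun j hj => ?_
  rw [Finset.mem_Icc] at hj
  rw [pderiv_inl_wk]
  by_cases h : j ≤ n'
  · rw [if_pos ⟨hj.1, h⟩, if_pos h, mul_smul_comm, map_smul, smul_eq_mul]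
  · rw [if_neg (fun h' => h h'.2), if_neg h, mul_zero, map_zero]

private lemma Gf_d {c : ℝ} {R M : ℕ} (hc : c ^ 2 = R) (n m : ℕ) {n' : ℕ} (m' : ℕ) (hn' : n' < M) :
    (n' : ℝ) * EG (sM M) (wk c R n m * wk c R n' m') =
      R * ∑ j ∈ Finset.Icc 1 (min m n'), EG (sM M) (wk c R n (m - j) * wk c R (n' - j) m') := by
  rw [mul_comm (wk c R n m), wick_l hc hn', min_comm,
    ← Gf_sum hc n' m (fun j => EG (sM M) (wk c R n (m - j) * wk c R (n' - j) m'))]
  congr 1
  refine Finset.sum_congr rfl fun j hj => ?_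
  rw [Finset.mem_Icc] at hj
  rw [pderiv_inr_wk]
  by_cases h : j ≤ m
  · rw [if_pos ⟨hj.1, h⟩, if_pos h, mul_smul_comm, map_smul, smul_eq_mul, mul_comm (wk c R (n' - j) m')]
  · rw [if_neg (fun h' => h h'.2), if_neg h, mul_zero, map_zero]

private lemma Gf_wk_zero (c : ℝ) (R : ℕ) : wk c R 0 0 = 1 := by
  rw [wk_range c R 0 0 (N := 0) (by simp)]
  simp [aL, aR, cf_zero]

private lemma Gf_one {c : ℝ} {R M : ℕ} (hc : c ^ 2 = R) (m : ℕ) : ∀ n', m < M → n' < M →
    EG (sM M) (wk c R 0 m * wk c R n' 0) = if m = n' then rho R m else 0 := by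
  induction m using Nat.strong_induction_on with
  | _ m ih =>
    intro n' hm hn'
    rcases Nat.eq_zero_or_pos m with h0 | h0
    · subst h0
      rcases Nat.eq_zero_or_pos n' with h1 | h1
      · subst h1
        rw [if_pos rfl, Gf_wk_zero, one_mul, EG_one, Gf_rho_zero]
      · rw [if_neg (by omega)]
        have h2 := Gf_d hc 0 0 0 hn'
        rw [Nat.zero_min, Finset.Icc_eq_empty (by omega), Finset.sum_empty, mul_zero] at h2
        rcases mul_eq_zero.1 h2 with h3 | h3
        · exact absurd (Nat.cast_eq_zero.1 h3) (by omega)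
        · exact h3
    · have h2 := Gf_c hc 0 n' 0 hm
      have h3 : ∀ j ∈ Finset.Icc 1 (min m n'),
          EG (sM M) (wk c R 0 (m - j) * wk c R (n' - j) 0) = if m = n' then rho R (m - j) else 0 := by
        intro j hj
        rw [Finset.mem_Icc] at hj
        rw [ih (m - j) (by omega) (n' - j) (by omega) (by omega)]
        by_cases h : m = n'
        · rw [if_pos h, if_pos (by omega)]
        · rw [if_neg h, if_neg (by omega)]
      rw [Finset.sum_congr rfl h3] at h2
      have h4 : (m : ℝ) ≠ 0 := by exact_mod_cast (by omega : m ≠ 0)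
      by_cases h : m = n'
      · subst h
        simp only [if_true, min_self] at h2 ⊢
        rw [← rho_rec] at h2
        exact mul_left_cancel₀ h4 h2
      · simp only [if_neg h, Finset.sum_const_zero, mul_zero] at h2 ⊢
        rcases mul_eq_zero.1 h2 with h5 | h5
        · exact absurd h5 h4
        · exact h5

private lemma Gf_two {c : ℝ} {R M : ℕ} (hc : c ^ 2 = R) (n : ℕ) : ∀ m n' m', n < M → m < M → n' < M → m' < M →
    EG (sM M) (wk c R n m * wk c R n' m') =
      if n = m' ∧ m = n' then rho R n * rho R m else 0 := by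
  induction n using Nat.strong_induction_on with
  | _ n ih =>
    intro m n' m' hn hm hn' hm'
    rcases Nat.eq_zero_or_pos n with h0 | h0
    · subst h0
      rcases Nat.eq_zero_or_pos m' with h1 | h1
      · subst h1
        rw [Gf_one hc m n' hm hn', Gf_rho_zero, one_mul]
        by_cases h : m = n'
        · rw [if_pos h, if_pos ⟨rfl, h⟩]
        · rw [if_neg h, if_neg (fun h' => h h'.2)]
      · rw [if_neg (by omega)]
        have h2 := Gf_b hc 0 m n' hm'
        rw [Nat.zero_min, Finset.Icc_eq_empty (by omega), Finset.sum_empty, mul_zero] at h2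
        rcases mul_eq_zero.1 h2 with h3 | h3
        · exact absurd (Nat.cast_eq_zero.1 h3) (by omega)
        · exact h3
    · have h2 := Gf_a hc m n' m' hn
      have h3 : ∀ j ∈ Finset.Icc 1 (min n m'),
          EG (sM M) (wk c R (n - j) m * wk c R n' (m' - j)) =
            if n = m' ∧ m = n' then rho R (n - j) * rho R m else 0 := by
        intro j hj
        rw [Finset.mem_Icc] at hj
        rw [ih (n - j) (by omega) m n' (m' - j) (by omega) hm hn' (by omega)]
        by_cases h : n = m' ∧ m = n'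
        · rw [if_pos h, if_pos (by omega)]
        · rw [if_neg h, if_neg (by omega)]
      rw [Finset.sum_congr rfl h3] at h2
      have h4 : (n : ℝ) ≠ 0 := by exact_mod_cast (by omega : n ≠ 0)
      by_cases h : n = m' ∧ m = n'
      · rw [if_pos h]
        simp only [if_pos h] at h2
        rw [← h.1, min_self, ← Finset.sum_mul, ← mul_assoc, ← rho_rec, mul_assoc] at h2
        rw [← h.1]
        exact mul_left_cancel₀ h4 h2
      · rw [if_neg h]
        simp only [if_neg h, Finset.sum_const_zero, mul_zero] at h2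
        rcases mul_eq_zero.1 h2 with h5 | h5
        · exact absurd h5 h4
        · exact h5

theorem two_pt {c : ℝ} {R M : ℕ} (hc : c ^ 2 = R) {n m n' m' : ℕ} (hn : n < M) (hm : m < M)
    (hn' : n' < M) (hm' : m' < M) : EG (sM M) (wk c R n m * wk c R n' m') =
      if n = m' ∧ m = n' then rho R n * rho R m else 0 :=
  Gf_two hc n m n' m' hn hm hn' hm'

end Pool.Agent.H14.GP
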