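import Mathlib
import Pool.Agent.H14.GP.Gf

/-!
# Row Gg (140 lines): the Gaussian moments of the resonator (helper68)

Block G of MP_103a5c_GP.  Uses `Amp_eq`, `pderiv_inr_wk` (Gc) and `two_pt` (Gf).

PROOF of `EG_amp_sq`. `Amp_eq`; expand the product (`Finset.sum_mul_sum`, `smul_mul_smul_comm`), `EG` is linear
(`map_sum`, `map_smul`), insert `two_pt`:
`∑_{n,m,n',m' < M} f(n) f(m) f(n') f(m') [n = m', m = n'] ρ(n) ρ(m) = ∑_{n,m<M} f(n)² f(m)² ρ(n) ρ(m) = ν²`
(`Finset.sum_ite_eq`, `Finset.sum_mul_sum`).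
PROOF of `EG_DK_amp`. `pderiv (Amp ^ 2) = 2 * (Amp * pderiv Amp)` (`Derivation.leibniz_pow` or `pow_two` and
`Derivation.leibniz`).  For `1 ≤ j`: `pderiv (inr j) Amp = ∑_{n,m<M} (f n * f m) • (if j ≤ m then c • wk n (m - j) else 0)`
(`pderiv_inr_wk`); for `j = 0` it is `0`, and `κ 0 = 0`.  With `two_pt` (`m - j < M`):
`E[Amp * pderiv (inr j) Amp] = c ∑_{n,m,n',m'<M, j≤m} f(n) f(m) f(n') f(m') [n = m', m - j = n'] ρ(n) ρ(m-j)
= c ν ∑_{j≤m<M} f(m) f(m-j) ρ(m-j) = c ν K_j` (shift `m = i + j`, `i < M - j`: `Finset.sum_nbij'` or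
`Finset.sum_Ico_eq_sum_range`).
-/

open MvPolynomial

namespace Pool.Agent.H14.GP

lemma Gg_amp (c : ℝ) (R M : ℕ) (f : ℕ → ℝ) : Amp c R M f =
    ∑ x ∈ Finset.range M ×ˢ Finset.range M, (f x.1 * f x.2) • wk c R x.1 x.2 := by
  rw [Amp_eq, Finset.sum_product]

theorem EG_amp_sq {c : ℝ} {R M : ℕ} (hc : c ^ 2 = R) (f : ℕ → ℝ) :
    EG (sM M) (Amp c R M f ^ 2) = nu R M f ^ 2 := by
  rw [pow_two, Gg_amp, Finset.sum_mul_sum, map_sum]
  have h1 : ∀ x ∈ Finset.range M ×ˢ Finset.range M,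
      EG (sM M) (∑ y ∈ Finset.range M ×ˢ Finset.range M,
        ((f x.1 * f x.2) • wk c R x.1 x.2) * ((f y.1 * f y.2) • wk c R y.1 y.2)) =
      (f x.1 ^ 2 * rho R x.1) * (f x.2 ^ 2 * rho R x.2) := by
    intro x hx
    rw [Finset.mem_product, Finset.mem_range, Finset.mem_range] at hx
    rw [map_sum, Finset.sum_eq_single (x.2, x.1)]
    · rw [smul_mul_smul_comm, map_smul, two_pt hc hx.1 hx.2 hx.2 hx.1, if_pos ⟨rfl, rfl⟩, smul_eq_mul]
      ring
    · intro y hy hne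
      rw [Finset.mem_product, Finset.mem_range, Finset.mem_range] at hy
      rw [smul_mul_smul_comm, map_smul, two_pt hc hx.1 hx.2 hy.1 hy.2, if_neg, smul_zero]
      rintro ⟨e1, e2⟩
      exact hne (Prod.ext e2.symm e1.symm)
    · intro hn
      exact absurd (by rw [Finset.mem_product, Finset.mem_range, Finset.mem_range]; exact ⟨hx.2, hx.1⟩) hn
  rw [Finset.sum_congr rfl h1, Finset.sum_product, pow_two]
  unfold nu
  rw [Finset.sum_mul_sum]

lemma Gg_shift (M j : ℕ) (F : ℕ → ℝ) : (∑ m ∈ Finset.range M, if j ≤ m then F m else 0) =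
    ∑ n ∈ Finset.range (M - j), F (j + n) := by
  rw [← Finset.sum_filter, ← Finset.sum_Ico_eq_sum_range]
  apply Finset.sum_congr _ (fun _ _ => rfl)
  ext m
  rw [Finset.mem_filter, Finset.mem_range, Finset.mem_Ico]
  exact And.comm

lemma Gg_inner {c : ℝ} {R M : ℕ} (hc : c ^ 2 = R) (f : ℕ → ℝ) {j : ℕ} (hj : 1 ≤ j) :
    EG (sM M) (Amp c R M f * pderiv (Sum.inr j) (Amp c R M f)) = c * nu R M f * KK R M f j := by
  have hd : pderiv (Sum.inr j) (Amp c R M f) =
      ∑ y ∈ Finset.range M ×ˢ Finset.range M, (f y.1 * f y.2) •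
        (if 1 ≤ j ∧ j ≤ y.2 then c • wk c R y.1 (y.2 - j) else 0) := by
    rw [Gg_amp, map_sum]
    apply Finset.sum_congr rfl
    intro y _
    rw [Derivation.map_smul, pderiv_inr_wk]
  rw [hd, Gg_amp, Finset.sum_mul_sum, Finset.sum_comm, map_sum]
  have h1 : ∀ y ∈ Finset.range M ×ˢ Finset.range M,
      EG (sM M) (∑ x ∈ Finset.range M ×ˢ Finset.range M,
        ((f x.1 * f x.2) • wk c R x.1 x.2) * ((f y.1 * f y.2) •
          (if 1 ≤ j ∧ j ≤ y.2 then c • wk c R y.1 (y.2 - j) else 0))) =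
      (f y.1 ^ 2 * rho R y.1) * (c * if j ≤ y.2 then f (y.2 - j) * f y.2 * rho R (y.2 - j) else 0) := by
    intro y hy
    rw [Finset.mem_product, Finset.mem_range, Finset.mem_range] at hy
    by_cases h : j ≤ y.2
    · rw [if_pos ⟨hj, h⟩, if_pos h, map_sum]
      have hlt : y.2 - j < M := lt_of_le_of_lt (Nat.sub_le _ _) hy.2
      rw [Finset.sum_eq_single (y.2 - j, y.1)]
      · rw [smul_smul, smul_mul_smul_comm, map_smul, two_pt hc hlt hy.1 hy.1 hlt, if_pos ⟨rfl, rfl⟩,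
          smul_eq_mul]
        ring
      · intro x hx hne
        rw [Finset.mem_product, Finset.mem_range, Finset.mem_range] at hx
        rw [smul_smul, smul_mul_smul_comm, map_smul, two_pt hc hx.1 hx.2 hy.1 hlt, if_neg, smul_zero]
        rintro ⟨e1, e2⟩
        exact hne (Prod.ext e1 e2)
      · intro hn
        exact absurd (by rw [Finset.mem_product, Finset.mem_range, Finset.mem_range]; exact ⟨hlt, hy.1⟩) hn
    · rw [if_neg (fun h' => h h'.2), if_neg h]
      simp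
  rw [Finset.sum_congr rfl h1, Finset.sum_product]
  have h2 : (∑ x ∈ Finset.range M, ∑ y ∈ Finset.range M, f x ^ 2 * rho R x *
      (c * if j ≤ y then f (y - j) * f y * rho R (y - j) else 0)) =
      nu R M f * (c * ∑ y ∈ Finset.range M, if j ≤ y then f (y - j) * f y * rho R (y - j) else 0) := by
    unfold nu
    rw [Finset.mul_sum, Finset.sum_mul_sum]
  rw [h2, Gg_shift M j (fun y => f (y - j) * f y * rho R (y - j))]
  have h3 : (∑ n ∈ Finset.range (M - j), f (j + n - j) * f (j + n) * rho R (j + n - j)) = KK R M f j := by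
    unfold KK
    apply Finset.sum_congr rfl
    intro n _
    rw [Nat.add_sub_cancel_left, add_comm j n]
  rw [h3]
  ring

theorem EG_DK_amp {c : ℝ} {R M : ℕ} (hc : c ^ 2 = R) (f κ : ℕ → ℝ) (h0 : κ 0 = 0) :
    EG (sM M) (DK M κ (Amp c R M f ^ 2)) =
      2 * c * nu R M f * ∑ j ∈ Finset.range M, κ j * KK R M f j := by
  unfold DK
  rw [map_sum, Finset.mul_sum]
  apply Finset.sum_congr rfl
  intro j _
  rcases Nat.eq_zero_or_pos j with h | h
  · rw [h, h0, zero_smul, map_zero]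
    ring
  · rw [map_smul, pow_two, Derivation.leibniz, smul_eq_mul, smul_eq_mul, map_add, Gg_inner hc f h]
    ring

end Pool.Agent.H14.GP
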