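import Mathlib
import Pool.Agent.H14.GP.Defs

/-!
# Row Va (120 lines): decay of the weighted mean of `e^{-iωt}`

`wdec`: for every `K` there is `C` with `|E_T e^{-iωt}| (T|ω|)^K ≤ C` for all `T > 0`, `ω`.
PROOF. Substitute `t = T x` (`integral_comp_mul_right` or `integral_comp_div`):
`EC v T (e^{-iωt}) = ∫ v(x) e^{-i T ω x} dx`, a Fourier transform of a smooth compactly supported function
at `ξ = Tω/(2π)`. Either: take the Schwartz function `f = HasCompactSupport.toSchwartzMap` of `x ↦ (v x : ℂ)`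
(compact support from `hv.supp`) and use `(𝓕 f).decay K 0` (see how Pool.Agent.H6.Nice / NiceFT do it), i.e.
`|ξ|^K ‖𝓕 f ξ‖ ≤ D`, hence `(T|ω|)^K ‖..‖ ≤ (2π)^K D`. Or integrate by parts `K` times.
`wone`: `E_T 1 = ∫ v` for `T > 0`.
`EE_nonneg`, `EC_ofReal` are immediate from the definitions.
-/

open MeasureTheory Set Filter Topology
open scoped Real ContDiff ComplexConjugate

namespace Pool.Agent.H14.GP

lemma Wgt.continuous {v : ℝ → ℝ} (hv : Wgt v) : Continuous v := hv.smooth.continuous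

lemma Wgt.hasCompactSupport {v : ℝ → ℝ} (hv : Wgt v) : HasCompactSupport v := by
  obtain ⟨a, b, _, _, h⟩ := hv.supp
  exact HasCompactSupport.intro (isCompact_Icc (a := a) (b := b)) h

lemma Va_subst (v : ℝ → ℝ) {T : ℝ} (hT : 0 < T) (f : ℝ → ℂ) :
    EC v T f = ∫ x, (v x : ℂ) * f (T * x) := by
  have h := MeasureTheory.Measure.integral_comp_mul_left
    (fun t => (v (t / T) : ℂ) * f t) T
  have h2 : (fun x => (v (T * x / T) : ℂ) * f (T * x)) = fun x => (v x : ℂ) * f (T * x) := by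
    funext x
    rw [mul_div_cancel_left₀ x hT.ne']
  simp only [h2] at h
  unfold EC
  rw [h, abs_of_pos (inv_pos.2 hT), one_div, Complex.real_smul]

theorem wdec {v : ℝ → ℝ} (hv : Wgt v) (K : ℕ) : ∃ C, 0 ≤ C ∧ ∀ T : ℝ, 0 < T → ∀ y : ℝ,
    ‖EC v T (fun t => Complex.exp (-((t * y : ℝ) : ℂ) * Complex.I))‖ * (T * |y|) ^ K ≤ C := by
  have h1 : HasCompactSupport (fun x => (v x : ℂ)) :=
    hv.hasCompactSupport.comp_left (g := fun x : ℝ => (x : ℂ)) Complex.ofReal_zero
  have h2 : ContDiff ℝ ∞ (fun x => (v x : ℂ)) := Complex.ofRealCLM.contDiff.comp hv.smooth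
  obtain ⟨D, hD0, hD⟩ := (FourierTransform.fourier (h1.toSchwartzMap h2)).decay K 0
  refine ⟨(2 * π) ^ K * D, by positivity, fun T hT y => ?_⟩
  have key : EC v T (fun t => Complex.exp (-((t * y : ℝ) : ℂ) * Complex.I)) =
      (FourierTransform.fourier (h1.toSchwartzMap h2)) (T * y / (2 * π)) := by
    rw [Va_subst v hT, SchwartzMap.fourier_coe, Real.fourier_real_eq_integral_exp_smul]
    refine integral_congr_ae (ae_of_all _ fun x => ?_)
    show (v x : ℂ) * Complex.exp (-((T * x * y : ℝ) : ℂ) * Complex.I) =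
      Complex.exp (((-2 * π * x * (T * y / (2 * π)) : ℝ) : ℂ) * Complex.I) • (v x : ℂ)
    have h3 : -2 * π * x * (T * y / (2 * π)) = -(T * x * y) := by
      have := Real.pi_ne_zero
      field_simp
    rw [h3, smul_eq_mul, mul_comm, Complex.ofReal_neg]
  have h4 := hD (T * y / (2 * π))
  rw [norm_iteratedFDeriv_zero] at h4
  have h5 : T * |y| = (2 * π) * ‖T * y / (2 * π)‖ := by
    rw [Real.norm_eq_abs, abs_div, abs_mul, abs_of_pos hT, abs_of_pos Real.two_pi_pos]
    have := Real.pi_ne_zero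
    field_simp
  rw [key, h5, mul_pow]
  have h6 : (0 : ℝ) ≤ (2 * π) ^ K := by positivity
  calc _ = (2 * π) ^ K * (‖T * y / (2 * π)‖ ^ K *
      ‖(FourierTransform.fourier (h1.toSchwartzMap h2)) (T * y / (2 * π))‖) := by ring
    _ ≤ (2 * π) ^ K * D := mul_le_mul_of_nonneg_left h4 h6

lemma wone (v : ℝ → ℝ) {T : ℝ} (hT : 0 < T) : EC v T (fun _ => 1) = ((∫ x, v x : ℝ) : ℂ) := by
  rw [Va_subst v hT]
  simp only [mul_one]
  exact integral_ofReal

lemma EC_ofReal (v : ℝ → ℝ) (T : ℝ) (f : ℝ → ℝ) : EC v T (fun t => (f t : ℂ)) = (EE v T f : ℂ) := by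
  unfold EC EE
  rw [Complex.ofReal_mul, ← integral_complex_ofReal]
  congr 1
  refine integral_congr_ae (ae_of_all _ fun x => ?_)
  show (v (x / T) : ℂ) * (f x : ℂ) = ((v (x / T) * f x : ℝ) : ℂ)
  rw [Complex.ofReal_mul]

/-- The support of the weight in `t`: for `T > 0`, `v (t/T) ≠ 0` implies `t ∈ [aT, bT]`. -/
lemma EE_nonneg {v : ℝ → ℝ} (hv : Wgt v) {T : ℝ} (hT : 0 < T) {f : ℝ → ℝ} (hf : ∀ t, v (t / T) ≠ 0 → 0 ≤ f t) :
    0 ≤ EE v T f := by
  unfold EE
  refine mul_nonneg (by positivity) (integral_nonneg fun t => ?_)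
  by_cases h : v (t / T) = 0
  · show 0 ≤ v (t / T) * f t
    rw [h, zero_mul]
  · exact mul_nonneg (hv.nonneg _) (hf t h)

end Pool.Agent.H14.GP
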