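import Mathlib
import Pool.Agent.H14.GP.Va

/-!
# Row Vb (150 lines): the mean value theorem (diagonal only)

`mv`: for `δ > 0`, `K`, there is `C` such that for all `T ≥ 1`, all Dirichlet polynomials `X, X'` with `X(0) = 0`
(no term `n = 0`) and `X'` supported on `1 ≤ n ≤ T^{1-δ}` (NO restriction on the length of `X`):
`|E_T[X(t) conj X'(t)] - (∫v) ⟨X, X'⟩| ≤ C T^{-K} ‖X‖₁ ‖X'‖₁`.
PROOF. `ev t X = ∑_m X_m χ_t(m)` (`ev_eq`), `χ_t(m) = exp(-i t log m)` for `m ≥ 1`, `conj χ_t(m') = exp(i t log m')`.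
So `E_T[X conj X'] = ∑_{m,m'} X_m X'_{m'} E_T[exp(-i t (log m - log m'))]` (finite sums, `integral_finset_sum`, integrable
because `v` is continuous with compact support). Terms `m = m'`: `wone`. Terms `m ≠ m'`: with `ω = log m - log m'`,
`|ω| ≥ 1/(2m')`: if `m > m'`: `log (m/m') ≥ log (1+1/m') ≥ 1/(2m')` (`m' ≥ 1`); if `m < m'`: `log(m'/m) ≥ log(1+1/m) ≥ 1/(2m) ≥ 1/(2m')`.
Hence `T|ω| ≥ T^δ/2`, and `wdec` with `K' ≥ K/δ` gives `|E_T| ≤ C' (T^δ/2)^{-K'} ≤ C' 2^{K'} T^{-K}`.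
Sum over `m, m'` with absolute values. (`ip` sums over the support of `X`; terms with `X'_m = 0` vanish.)
-/

open MeasureTheory Set Filter Topology
open scoped Real ContDiff ComplexConjugate

namespace Pool.Agent.H14.GP

lemma ev_eq (t : ℝ) (X : DPoly) : ev t X = ∑ n ∈ X.coeff.support, (X.coeff n : ℂ) * chi t n := by
  unfold ev
  rw [MonoidAlgebra.lift_apply]
  simp only [Finsupp.sum, Complex.real_smul]

lemma ev_single (t : ℝ) (n : ℕ) (c : ℝ) : ev t (MonoidAlgebra.single n c) = (c : ℂ) * chi t n := by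
  unfold ev
  rw [MonoidAlgebra.lift_single, Complex.real_smul]

lemma Vb_chi (t : ℝ) {n : ℕ} (hn : n ≠ 0) :
    chi t n = Complex.exp (-((t * Real.log n : ℝ) : ℂ) * Complex.I) := by
  show (if n = 0 then (0 : ℂ) else _) = _
  rw [if_neg hn]

lemma Vb_chi_zero (t : ℝ) : chi t 0 = 0 := by
  simp [chi]

lemma Vb_norm_chi (t : ℝ) (n : ℕ) : ‖chi t n‖ ≤ 1 := by
  by_cases hn : n = 0
  · rw [hn, Vb_chi_zero, norm_zero]
    exact zero_le_one
  · rw [Vb_chi t hn, ← Complex.ofReal_neg, Complex.norm_exp_ofReal_mul_I]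

lemma norm_ev_le (t : ℝ) (X : DPoly) : ‖ev t X‖ ≤ l1 X := by
  rw [ev_eq]
  refine (norm_sum_le _ _).trans ?_
  unfold l1
  refine Finset.sum_le_sum fun n _ => ?_
  rw [norm_mul, Complex.norm_real, Real.norm_eq_abs]
  exact mul_le_of_le_one_right (abs_nonneg _) (Vb_norm_chi t n)

lemma Vb_cont_chi (n : ℕ) : Continuous (fun t => chi t n) := by
  by_cases hn : n = 0
  · simp only [hn, Vb_chi_zero]
    exact continuous_const
  · simp only [Vb_chi _ hn]
    fun_prop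

lemma continuous_ev (X : DPoly) : Continuous (fun t => ev t X) := by
  simp only [ev_eq]
  exact continuous_finsetSum _ fun n _ => continuous_const.mul (Vb_cont_chi n)

lemma Vb_pair (t : ℝ) {m n : ℕ} (hm : m ≠ 0) (hn : n ≠ 0) :
    chi t m * conj (chi t n) =
      Complex.exp (-((t * (Real.log m - Real.log n) : ℝ) : ℂ) * Complex.I) := by
  rw [Vb_chi t hm, Vb_chi t hn, ← Complex.exp_conj, ← Complex.exp_add]
  congr 1
  rw [map_mul, map_neg, Complex.conj_ofReal, Complex.conj_I]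
  push_cast
  ring

lemma Vb_int {v : ℝ → ℝ} (hv : Wgt v) {T : ℝ} (hT : 0 < T) {f : ℝ → ℂ} (hf : Continuous f) :
    Integrable (fun t => (v (t / T) : ℂ) * f t) := by
  have hc : Continuous (fun t => (v (t / T) : ℂ) * f t) :=
    (Complex.continuous_ofReal.comp (hv.continuous.comp (continuous_id.div_const T))).mul hf
  obtain ⟨a, b, _, _, h⟩ := hv.supp
  refine hc.integrable_of_hasCompactSupport (HasCompactSupport.intro
    (isCompact_Icc (a := a * T) (b := b * T)) fun t ht => ?_)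
  have h1 : v (t / T) = 0 := by
    apply h
    intro h2
    exact ht ⟨(le_div_iff₀ hT).1 h2.1, (div_le_iff₀ hT).1 h2.2⟩
  rw [h1, Complex.ofReal_zero, zero_mul]

lemma Vb_EC_sum {ι : Type*} {v : ℝ → ℝ} (hv : Wgt v) {T : ℝ} (hT : 0 < T) (s : Finset ι)
    (c : ι → ℂ) (f : ι → ℝ → ℂ) (hf : ∀ i ∈ s, Continuous (f i)) :
    EC v T (fun t => ∑ i ∈ s, c i * f i t) = ∑ i ∈ s, c i * EC v T (f i) := by
  unfold EC
  have h1 : (fun t => (v (t / T) : ℂ) * ∑ i ∈ s, c i * f i t) =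
      fun t => ∑ i ∈ s, c i * ((v (t / T) : ℂ) * f i t) := by
    funext t
    rw [Finset.mul_sum]
    exact Finset.sum_congr rfl fun i _ => by ring
  rw [h1, integral_finsetSum _ (fun i hi => (Vb_int hv hT (hf i hi)).const_mul (c i)), Finset.mul_sum]
  refine Finset.sum_congr rfl fun i _ => ?_
  rw [integral_const_mul]
  ring

lemma Vb_log {m n : ℕ} (hm : 1 ≤ m) (hn : 1 ≤ n) (h : m ≠ n) :
    1 / (2 * (n : ℝ)) ≤ |Real.log m - Real.log n| := by
  have hm' : (1 : ℝ) ≤ m := by exact_mod_cast hm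
  have hn' : (1 : ℝ) ≤ n := by exact_mod_cast hn
  have hm0 : (0 : ℝ) < m := by linarith
  have hn0 : (0 : ℝ) < n := by linarith
  rcases lt_or_gt_of_ne h with h1 | h1
  · have h2 : (m : ℝ) + 1 ≤ n := by exact_mod_cast h1
    have h3 := Real.one_sub_inv_le_log_of_pos (div_pos hn0 hm0)
    rw [Real.log_div hn0.ne' hm0.ne', inv_div] at h3
    rw [abs_sub_comm]
    refine le_trans ?_ (h3.trans (le_abs_self _))
    rw [div_le_iff₀ (by positivity), sub_mul, div_mul_eq_mul_div]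
    have h4 : (m : ℝ) * (2 * n) / n = 2 * m := by field_simp
    rw [h4]
    linarith
  · have h2 : (n : ℝ) + 1 ≤ m := by exact_mod_cast h1
    have h3 := Real.one_sub_inv_le_log_of_pos (div_pos hm0 hn0)
    rw [Real.log_div hm0.ne' hn0.ne', inv_div] at h3
    refine le_trans ?_ (h3.trans (le_abs_self _))
    rw [div_le_iff₀ (by positivity), sub_mul, div_mul_eq_mul_div, one_mul]
    have h4 : (n : ℝ) * (2 * n) / m ≤ 2 * n - 1 := by
      rw [div_le_iff₀ hm0]
      nlinarith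
    linarith

lemma Vb_off {v : ℝ → ℝ} (hv : Wgt v) {δ : ℝ} (hδ : 0 < δ) (K : ℕ) : ∃ C, 0 ≤ C ∧ ∀ T : ℝ, 1 ≤ T →
    ∀ m n : ℕ, 1 ≤ m → 1 ≤ n → m ≠ n → (n : ℝ) ≤ T ^ (1 - δ) →
    ‖EC v T (fun t => Complex.exp (-((t * (Real.log m - Real.log n) : ℝ) : ℂ) * Complex.I))‖
      ≤ C * T ^ (-(K : ℝ)) := by
  obtain ⟨K', hK'⟩ := exists_nat_ge ((K : ℝ) / δ)
  obtain ⟨C, hC, h⟩ := wdec hv K'
  refine ⟨C * 2 ^ K', by positivity, fun T hT m n hm hn hmn hnT => ?_⟩
  have hT0 : 0 < T := by linarith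
  have hn0 : (0 : ℝ) < n := by exact_mod_cast hn
  have h1 := h T hT0 (Real.log m - Real.log n)
  have h2 : T ^ δ / 2 ≤ T * |Real.log m - Real.log n| := by
    have h3 := Vb_log hm hn hmn
    have h4 : T ^ δ / 2 ≤ T * (1 / (2 * (n : ℝ))) := by
      rw [mul_one_div, div_le_div_iff₀ (by norm_num) (by positivity)]
      have h5 : T ^ δ * n ≤ T := by
        calc T ^ δ * n ≤ T ^ δ * T ^ (1 - δ) := by
              exact mul_le_mul_of_nonneg_left hnT (by positivity)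
          _ = T := by rw [← Real.rpow_add hT0]; simp
      linarith
    exact h4.trans (mul_le_mul_of_nonneg_left h3 hT0.le)
  have h3 : (T ^ δ / 2) ^ K' ≤ (T * |Real.log m - Real.log n|) ^ K' :=
    pow_le_pow_left₀ (by positivity) h2 K'
  have h4 : 0 < (T ^ δ / 2) ^ K' := by positivity
  have h5 : ‖EC v T (fun t => Complex.exp (-((t * (Real.log m - Real.log n) : ℝ) : ℂ) * Complex.I))‖ *
      (T ^ δ / 2) ^ K' ≤ C :=
    (mul_le_mul_of_nonneg_left h3 (norm_nonneg _)).trans h1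
  rw [← le_div_iff₀ h4] at h5
  refine h5.trans ?_
  rw [div_pow, div_div_eq_mul_div, mul_div_assoc, mul_assoc]
  refine mul_le_mul_of_nonneg_left ?_ hC
  rw [div_eq_mul_inv]
  refine mul_le_mul_of_nonneg_left ?_ (by positivity)
  rw [← Real.rpow_natCast (T ^ δ) K', ← Real.rpow_mul hT0.le, ← Real.rpow_neg hT0.le]
  refine Real.rpow_le_rpow_of_exponent_le hT ?_
  have := (div_le_iff₀ hδ).1 hK'
  linarith [mul_comm (K' : ℝ) δ]

theorem mv {v : ℝ → ℝ} (hv : Wgt v) {δ : ℝ} (hδ : 0 < δ) (K : ℕ) : ∃ C, 0 ≤ C ∧ ∀ T : ℝ, 1 ≤ T →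
    ∀ X X' : DPoly, X.coeff 0 = 0 → SuppLe (T ^ (1 - δ)) X' →
    ‖EC v T (fun t => ev t X * conj (ev t X')) - (((∫ x, v x) * ip X X' : ℝ) : ℂ)‖
      ≤ C * T ^ (-(K : ℝ)) * l1 X * l1 X' := by
  obtain ⟨C, hC, h⟩ := Vb_off hv hδ K
  refine ⟨C, hC, fun T hT X X' hX0 hX' => ?_⟩
  have hT0 : 0 < T := by linarith
  set S := X.coeff.support with hS
  set S' := X'.coeff.support with hS'
  have hSm : ∀ m ∈ S, 1 ≤ m := by
    intro m hm
    rcases Nat.eq_zero_or_pos m with h0 | h0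
    · rw [h0] at hm
      exact absurd hX0 (Finsupp.mem_support_iff.1 hm)
    · exact h0
  have hS'm : ∀ n ∈ S', 1 ≤ n ∧ (n : ℝ) ≤ T ^ (1 - δ) := fun n hn =>
    hX' n (Finsupp.mem_support_iff.1 hn)
  -- expansion
  have e1 : (fun t => ev t X * conj (ev t X')) = fun t => ∑ q ∈ S ×ˢ S',
      ((X.coeff q.1 : ℂ) * (X'.coeff q.2 : ℂ)) * (chi t q.1 * conj (chi t q.2)) := by
    funext t
    rw [ev_eq, ev_eq, map_sum, Finset.sum_mul_sum, ← Finset.sum_product']
    refine Finset.sum_congr rfl fun q _ => ?_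
    rw [map_mul, Complex.conj_ofReal]
    ring
  have e2 : EC v T (fun t => ev t X * conj (ev t X')) = ∑ q ∈ S ×ˢ S',
      ((X.coeff q.1 : ℂ) * (X'.coeff q.2 : ℂ)) * EC v T (fun t => chi t q.1 * conj (chi t q.2)) := by
    rw [e1]
    exact Vb_EC_sum hv hT0 (S ×ˢ S') (fun q => (X.coeff q.1 : ℂ) * (X'.coeff q.2 : ℂ))
      (fun q t => chi t q.1 * conj (chi t q.2)) (fun q _ =>
        (Vb_cont_chi q.1).mul (Complex.continuous_conj.comp (Vb_cont_chi q.2)))
  have e3 : (((∫ x, v x) * ip X X' : ℝ) : ℂ) = ∑ q ∈ S ×ˢ S',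
      ((X.coeff q.1 : ℂ) * (X'.coeff q.2 : ℂ)) * (if q.1 = q.2 then ((∫ x, v x : ℝ) : ℂ) else 0) := by
    rw [Finset.sum_product]
    unfold ip
    rw [Finset.mul_sum, Complex.ofReal_sum]
    refine Finset.sum_congr rfl fun m _ => ?_
    have e4 : ∀ n ∈ S', ((X.coeff m : ℂ) * (X'.coeff n : ℂ)) *
        (if m = n then ((∫ x, v x : ℝ) : ℂ) else 0) =
        if m = n then (X.coeff m : ℂ) * (X'.coeff n : ℂ) * ((∫ x, v x : ℝ) : ℂ) else 0 := by
      intro n _
      rw [mul_ite, mul_zero]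
    rw [Finset.sum_congr rfl e4, Finset.sum_ite_eq]
    split_ifs with h5
    · push_cast
      ring
    · have h6 : X'.coeff m = 0 := Finsupp.notMem_support_iff.1 h5
      rw [h6]
      simp
  rw [e2, e3, ← Finset.sum_sub_distrib]
  refine (norm_sum_le _ _).trans ?_
  have e5 : C * T ^ (-(K : ℝ)) * l1 X * l1 X' =
      ∑ q ∈ S ×ˢ S', (|X.coeff q.1| * |X'.coeff q.2|) * (C * T ^ (-(K : ℝ))) := by
    rw [← Finset.sum_mul, Finset.sum_product]
    unfold l1
    rw [mul_assoc, Finset.sum_mul_sum, mul_comm]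
  rw [e5]
  refine Finset.sum_le_sum fun q hq => ?_
  obtain ⟨hq1, hq2⟩ := Finset.mem_product.1 hq
  have hm := hSm _ hq1
  obtain ⟨hn, hnT⟩ := hS'm _ hq2
  rw [← mul_sub, norm_mul, norm_mul, Complex.norm_real, Complex.norm_real, Real.norm_eq_abs,
    Real.norm_eq_abs]
  refine mul_le_mul_of_nonneg_left ?_ (by positivity)
  have e6 : (fun t => chi t q.1 * conj (chi t q.2)) = fun t =>
      Complex.exp (-((t * (Real.log q.1 - Real.log q.2) : ℝ) : ℂ) * Complex.I) := by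
    funext t
    exact Vb_pair t (by omega) (by omega)
  rw [e6]
  by_cases hmn : q.1 = q.2
  · rw [if_pos hmn]
    have e7 : (fun t : ℝ => Complex.exp (-((t * (Real.log q.1 - Real.log q.2) : ℝ) : ℂ) * Complex.I)) =
        fun _ => 1 := by
      funext t
      rw [hmn, sub_self, mul_zero, Complex.ofReal_zero, neg_zero, zero_mul, Complex.exp_zero]
    rw [e7, wone v hT0, sub_self, norm_zero]
    positivity
  · rw [if_neg hmn, sub_zero]
    exact h T hT q.1 q.2 hm hn hmn hnT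

end Pool.Agent.H14.GP
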