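import Mathlib
import Pool.Agent.H14.GP.Gb
import Pool.Agent.H14.GP.Vb

/-!
# Row Ra (150 lines): the resonator is real and has weighted bidegree `≤ (M-1, M-1)`

`Amp_real`: `conj (evP P) = evP (swap P)` where `swap` exchanges `inl j` and `inr j` (`MvPolynomial.rename Sum.swap`); `Amp` is invariant under `swap`: the `(n,m)` term with `(inl,inr)`
goes to the `(m,n)` term (`cf_map` for `rename Sum.swap`), the condition `k ≤ n ∧ k ≤ m` is symmetric; `Finset.sum_comm`.
Alternatively directly: `conj (evP (aL c n)) = evP (aR c n)` by `cf_map` (coefficients are real) and then `Finset.sum_comm`.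
`AR_sq`: `evP (Amp)` is real, so `(AR)^2 = evP (Amp * Amp)`.
`deg_Amp`: each term is `aL (n-k) * aR (m-k)` with `n, m ≤ M-1`: `deg_aL`, `deg_aR`, `Deg2'.mul/.smul/.sum/.mono` (a zero term has any degree).
`deg_Amp2`: `Deg2'.mul`.
`continuous_AR`: `evP G T · P` is a polynomial in continuous functions (`continuous_ev`): `MvPolynomial.induction_on` or `aeval` as a finite sum.
-/

open MvPolynomial
open scoped ComplexConjugate

namespace Pool.Agent.H14.GP

lemma evP_aL (G : ℕ → ℝ → ℝ) (T t c : ℝ) (n : ℕ) : conj (evP G T t (aL c n)) = evP G T t (aR c n) := by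
  have h1 := cf_map (evP G T t) c (fun j => (X (Sum.inl j) : PP)) n
  have h2 := cf_map (evP G T t) c (fun j => (X (Sum.inr j) : PP)) n
  have h3 := cf_map (Complex.conjAe : ℂ ≃ₐ[ℝ] ℂ).toAlgHom c (fun j => evP G T t (X (Sum.inl j))) n
  unfold aL aR
  rw [h1, h2]
  refine h3.trans ?_
  congr 1
  funext j
  change conj (evP G T t (X (Sum.inl j))) = evP G T t (X (Sum.inr j))
  unfold evP
  rw [aeval_X, aeval_X]
  rfl

lemma Ra_aR (G : ℕ → ℝ → ℝ) (T t c : ℝ) (n : ℕ) : conj (evP G T t (aR c n)) = evP G T t (aL c n) := by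
  rw [← evP_aL, Complex.conj_conj]

lemma Ra_Amp_eq (c : ℝ) (R M : ℕ) (f : ℕ → ℝ) : Amp c R M f =
    ∑ k ∈ Finset.range (R + 1), ∑ n ∈ Finset.range M, ∑ m ∈ Finset.range M,
    if k ≤ n ∧ k ≤ m then ((-1) ^ k * (R.choose k : ℝ) * f n * f m) • (aL c (n - k) * aR c (m - k)) else 0 := rfl

theorem Amp_real (c : ℝ) (R M : ℕ) (f : ℕ → ℝ) (G : ℕ → ℝ → ℝ) (T t : ℝ) :
    conj (evP G T t (Amp c R M f)) = evP G T t (Amp c R M f) := by
  rw [Ra_Amp_eq]
  simp only [map_sum]
  refine Finset.sum_congr rfl fun k _ => ?_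
  rw [Finset.sum_comm]
  refine Finset.sum_congr rfl fun m _ => Finset.sum_congr rfl fun n _ => ?_
  by_cases h : k ≤ n ∧ k ≤ m
  · rw [if_pos h, if_pos ⟨h.2, h.1⟩, map_smul (evP G T t), map_smul (evP G T t), map_mul (evP G T t),
      map_mul (evP G T t), Complex.real_smul, Complex.real_smul, map_mul, map_mul, Complex.conj_ofReal, evP_aL, Ra_aR]
    push_cast
    ring
  · rw [if_neg h, if_neg fun h' => h ⟨h'.2, h'.1⟩, map_zero, map_zero]

theorem AR_sq (c : ℝ) (R M : ℕ) (f : ℕ → ℝ) (G : ℕ → ℝ → ℝ) (T t : ℝ) :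
    ((AR c R M f G T t ^ 2 : ℝ) : ℂ) = evP G T t (Amp c R M f * Amp c R M f) := by
  have h1 := Complex.conj_eq_iff_re.1 (Amp_real c R M f G T t)
  unfold AR
  rw [Complex.ofReal_pow, h1, map_mul, pow_two]

lemma Ra_zero (N N' : ℕ) : Deg2' N N' 0 := by
  intro m hm
  simp at hm

theorem deg_Amp (c : ℝ) (R : ℕ) {M : ℕ} (hM : 1 ≤ M) (f : ℕ → ℝ) : Deg2' (M - 1) (M - 1) (Amp c R M f) := by
  rw [Ra_Amp_eq]
  refine Deg2'.sum _ fun k _ => Deg2'.sum _ fun n hn => Deg2'.sum _ fun m hm => ?_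
  rw [Finset.mem_range] at hn hm
  by_cases h : k ≤ n ∧ k ≤ m
  · rw [if_pos h]
    exact (((deg_aL c (n - k)).mul (deg_aR c (m - k))).mono (by omega) (by omega)).smul _
  · rw [if_neg h]
    exact Ra_zero _ _

theorem deg_Amp2 (c : ℝ) (R : ℕ) {M : ℕ} (hM : 1 ≤ M) (f : ℕ → ℝ) : Deg2 (2 * (M - 1)) (Amp c R M f * Amp c R M f) := by
  rw [deg2_iff]
  exact ((deg_Amp c R hM f).mul (deg_Amp c R hM f)).mono (by omega) (by omega)

lemma continuous_evP (G : ℕ → ℝ → ℝ) (T : ℝ) (P : PP) : Continuous (fun t => evP G T t P) := by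
  induction P using MvPolynomial.induction_on with
  | C a =>
    have h : (fun t => evP G T t (C a)) = fun _ => algebraMap ℝ ℂ a := by
      funext t
      unfold evP
      rw [aeval_C]
    rw [h]
    exact continuous_const
  | add p q hp hq =>
    simp only [map_add]
    exact hp.add hq
  | mul_X p i hp =>
    simp only [map_mul]
    refine hp.mul ?_
    rcases i with j | j
    · have h : (fun t => evP G T t (X (Sum.inl j))) = fun t => ev t (bb (G j) T) := by
        funext t
        unfold evP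
        rw [aeval_X]
        rfl
      rw [h]
      exact continuous_ev _
    · have h : (fun t => evP G T t (X (Sum.inr j))) = fun t => conj (ev t (bb (G j) T)) := by
        funext t
        unfold evP
        rw [aeval_X]
        rfl
      rw [h]
      exact Complex.continuous_conj.comp (continuous_ev _)

lemma continuous_AR (c : ℝ) (R M : ℕ) (f : ℕ → ℝ) (G : ℕ → ℝ → ℝ) (T : ℝ) : Continuous (fun t => AR c R M f G T t) :=
  Complex.continuous_re.comp (continuous_evP G T _)

end Pool.Agent.H14.GP
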