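import Mathlib
import Pool.Agent.H14.GP.Defs

/-!
# Row Vc (150 lines): algebra of `l1`, `SuppLe`, `ip`

All elementary. `MonoidAlgebra ℝ ℕ` is a structure with `coeff : ℕ →₀ ℝ` (`MonoidAlgebra.coeff_mul`, `coeff_single`, `coeff_add`).
`l1 (X*Y) ≤ l1 X * l1 Y`: `(X*Y)` is the double sum of `single (m*n) (X_m Y_n)`; use the triangle inequality
(e.g. write `l1 X = ∑_{n ∈ S} |X_n|` for any finite `S ⊇` support, prove `l1_add_le`, `l1_single`, then
`X * Y = ∑_m ∑_n single (m n) (X_m Y_n)`).
`SuppLe` of a product: `(X*Y)_k ≠ 0` implies `k = m n` with `X_m ≠ 0`, `Y_n ≠ 0`.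
-/

open Filter Topology
open scoped Real

namespace Pool.Agent.H14.GP

private lemma Vc_l1 {X : DPoly} {S : Finset ℕ} (hS : X.coeff.support ⊆ S) :
    l1 X = ∑ n ∈ S, |X.coeff n| := by
  unfold l1
  apply Finset.sum_subset hS
  intro n _ hn
  rw [Finsupp.notMem_support_iff.1 hn, abs_zero]

private lemma Vc_ip {X Y : DPoly} {S : Finset ℕ} (hS : X.coeff.support ⊆ S) :
    ip X Y = ∑ n ∈ S, X.coeff n * Y.coeff n := by
  unfold ip
  apply Finset.sum_subset hS
  intro n _ hn
  rw [Finsupp.notMem_support_iff.1 hn, zero_mul]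

lemma l1_nonneg (X : DPoly) : 0 ≤ l1 X := Finset.sum_nonneg fun n _ => abs_nonneg _

lemma l1_add_le (X Y : DPoly) : l1 (X + Y) ≤ l1 X + l1 Y := by
  classical
  obtain ⟨S, hS⟩ : ∃ S : Finset ℕ, S = X.coeff.support ∪ Y.coeff.support ∪ (X + Y).coeff.support :=
    ⟨_, rfl⟩
  have h1 : X.coeff.support ⊆ S := by
    rw [hS]
    exact (Finset.subset_union_left).trans Finset.subset_union_left
  have h2 : Y.coeff.support ⊆ S := by
    rw [hS]
    exact (Finset.subset_union_right).trans Finset.subset_union_left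
  have h3 : (X + Y).coeff.support ⊆ S := by
    rw [hS]
    exact Finset.subset_union_right
  rw [Vc_l1 h1, Vc_l1 h2, Vc_l1 h3, ← Finset.sum_add_distrib]
  apply Finset.sum_le_sum
  intro n _
  rw [MonoidAlgebra.coeff_add, Finsupp.add_apply]
  exact abs_add_le _ _

lemma l1_single (n : ℕ) (c : ℝ) : l1 (MonoidAlgebra.single n c) = |c| := by
  have h : (MonoidAlgebra.single n c : DPoly).coeff.support ⊆ {n} := by
    rw [MonoidAlgebra.coeff_single]
    exact Finsupp.support_single_subset
  rw [Vc_l1 h, Finset.sum_singleton, MonoidAlgebra.coeff_single, Finsupp.single_eq_same]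

private lemma Vc_l1_zero : l1 (0 : DPoly) = 0 := by
  unfold l1
  simp

lemma l1_sum_le {ι : Type*} (s : Finset ι) (X : ι → DPoly) : l1 (∑ i ∈ s, X i) ≤ ∑ i ∈ s, l1 (X i) := by
  classical
  induction s using Finset.induction_on with
  | empty => simp [Vc_l1_zero]
  | insert a s ha ih =>
    rw [Finset.sum_insert ha, Finset.sum_insert ha]
    exact (l1_add_le _ _).trans (add_le_add le_rfl ih)

lemma l1_one : l1 (1 : DPoly) = 1 := by
  rw [MonoidAlgebra.one_def, l1_single, abs_one]

lemma l1_mul_le (X Y : DPoly) : l1 (X * Y) ≤ l1 X * l1 Y := by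
  have e : X * Y = ∑ m ∈ X.coeff.support, ∑ n ∈ Y.coeff.support,
      (MonoidAlgebra.single (m * n) (X.coeff m * Y.coeff n) : DPoly) := by
    rw [MonoidAlgebra.mul_def]
    rfl
  rw [e]
  refine (l1_sum_le _ _).trans ?_
  have h : ∀ m ∈ X.coeff.support, l1 (∑ n ∈ Y.coeff.support,
      (MonoidAlgebra.single (m * n) (X.coeff m * Y.coeff n) : DPoly)) ≤ |X.coeff m| * l1 Y := by
    intro m _
    refine (l1_sum_le _ _).trans (le_of_eq ?_)
    unfold l1
    rw [Finset.mul_sum]
    apply Finset.sum_congr rfl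
    intro n _
    have := l1_single (m * n) (X.coeff m * Y.coeff n)
    unfold l1 at this
    rw [this, abs_mul]
  refine (Finset.sum_le_sum h).trans (le_of_eq ?_)
  rw [← Finset.sum_mul]
  rfl

lemma l1_pow_le (X : DPoly) (k : ℕ) : l1 (X ^ k) ≤ l1 X ^ k := by
  induction k with
  | zero => rw [pow_zero, pow_zero, l1_one]
  | succ k ih =>
    rw [pow_succ, pow_succ]
    exact (l1_mul_le _ _).trans (mul_le_mul_of_nonneg_right ih (l1_nonneg _))

lemma l1_prod_le {ι : Type*} (s : Finset ι) (X : ι → DPoly) : l1 (∏ i ∈ s, X i) ≤ ∏ i ∈ s, l1 (X i) := by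
  classical
  induction s using Finset.induction_on with
  | empty => simp [l1_one]
  | insert a s ha ih =>
    rw [Finset.prod_insert ha, Finset.prod_insert ha]
    exact (l1_mul_le _ _).trans (mul_le_mul_of_nonneg_left ih (l1_nonneg _))

lemma SuppLe.mono {N N' : ℝ} {X : DPoly} (h : SuppLe N X) (hN : N ≤ N') : SuppLe N' X :=
  fun n hn => ⟨(h n hn).1, (h n hn).2.trans hN⟩

lemma suppLe_one : SuppLe 1 (1 : DPoly) := by
  intro n hn
  rw [MonoidAlgebra.one_def, MonoidAlgebra.coeff_single_apply] at hn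
  by_cases h : 1 = n
  · subst h
    norm_num
  · rw [if_neg h] at hn
    exact absurd rfl hn

lemma SuppLe.mul {N N' : ℝ} {X Y : DPoly} (hX : SuppLe N X) (hY : SuppLe N' Y) : SuppLe (N * N') (X * Y) := by
  intro k hk
  rw [MonoidAlgebra.coeff_mul] at hk
  obtain ⟨m, hm, hm'⟩ := Finset.exists_ne_zero_of_sum_ne_zero hk
  obtain ⟨n, hn, hn'⟩ := Finset.exists_ne_zero_of_sum_ne_zero hm'
  have h1 : m * n = k := by
    by_contra h
    simp [h] at hn'
  have h2 := hX m (Finsupp.mem_support_iff.1 hm)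
  have h3 := hY n (Finsupp.mem_support_iff.1 hn)
  subst h1
  refine ⟨Nat.mul_pos h2.1 h3.1, ?_⟩
  push_cast
  have h4 : (1 : ℝ) ≤ m := by exact_mod_cast h2.1
  exact mul_le_mul h2.2 h3.2 (Nat.cast_nonneg _) (by linarith [h2.2])

lemma SuppLe.pow {N : ℝ} {X : DPoly} (hX : SuppLe N X) (k : ℕ) : SuppLe (N ^ k) (X ^ k) := by
  induction k with
  | zero =>
    rw [pow_zero, pow_zero]
    exact suppLe_one
  | succ k ih =>
    rw [pow_succ, pow_succ]
    exact ih.mul hX

lemma SuppLe.prod {ι : Type*} (s : Finset ι) {N : ι → ℝ} {X : ι → DPoly} (h : ∀ i ∈ s, SuppLe (N i) (X i)) :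
    SuppLe (∏ i ∈ s, N i) (∏ i ∈ s, X i) := by
  classical
  induction s using Finset.induction_on with
  | empty =>
    rw [Finset.prod_empty, Finset.prod_empty]
    exact suppLe_one
  | insert a s ha ih =>
    rw [Finset.prod_insert ha, Finset.prod_insert ha]
    exact (h a (Finset.mem_insert_self a s)).mul
      (ih fun i hi => h i (Finset.mem_insert_of_mem hi))

lemma SuppLe.coeff_zero {N : ℝ} {X : DPoly} (h : SuppLe N X) : X.coeff 0 = 0 := by
  by_contra h0
  have := (h 0 h0).1
  omega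

lemma ip_add_left (X X' Y : DPoly) : ip (X + X') Y = ip X Y + ip X' Y := by
  classical
  obtain ⟨S, hS⟩ : ∃ S : Finset ℕ, S = X.coeff.support ∪ X'.coeff.support ∪ (X + X').coeff.support :=
    ⟨_, rfl⟩
  have h1 : X.coeff.support ⊆ S := by
    rw [hS]
    exact (Finset.subset_union_left).trans Finset.subset_union_left
  have h2 : X'.coeff.support ⊆ S := by
    rw [hS]
    exact (Finset.subset_union_right).trans Finset.subset_union_left
  have h3 : (X + X').coeff.support ⊆ S := by
    rw [hS]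
    exact Finset.subset_union_right
  rw [Vc_ip h1, Vc_ip h2, Vc_ip h3, ← Finset.sum_add_distrib]
  apply Finset.sum_congr rfl
  intro n _
  rw [MonoidAlgebra.coeff_add, Finsupp.add_apply]
  ring

lemma ip_add_right (X Y Y' : DPoly) : ip X (Y + Y') = ip X Y + ip X Y' := by
  unfold ip
  rw [← Finset.sum_add_distrib]
  apply Finset.sum_congr rfl
  intro n _
  rw [MonoidAlgebra.coeff_add, Finsupp.add_apply]
  ring

lemma ip_comm (X Y : DPoly) : ip X Y = ip Y X := by
  classical
  rw [Vc_ip (X := X) (Y := Y) (S := X.coeff.support ∪ Y.coeff.support) Finset.subset_union_left,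
    Vc_ip (X := Y) (Y := X) (S := X.coeff.support ∪ Y.coeff.support) Finset.subset_union_right]
  apply Finset.sum_congr rfl
  intro n _
  ring

lemma ip_smul_left (c : ℝ) (X Y : DPoly) : ip (c • X) Y = c * ip X Y := by
  classical
  rw [Vc_ip (X := c • X) (Y := Y) (S := (c • X).coeff.support ∪ X.coeff.support)
      Finset.subset_union_left,
    Vc_ip (X := X) (Y := Y) (S := (c • X).coeff.support ∪ X.coeff.support)
      Finset.subset_union_right, Finset.mul_sum]
  apply Finset.sum_congr rfl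
  intro n _
  rw [MonoidAlgebra.coeff_smul, Finsupp.smul_apply, smul_eq_mul]
  ring

lemma ip_sum_left {ι : Type*} (s : Finset ι) (X : ι → DPoly) (Y : DPoly) : ip (∑ i ∈ s, X i) Y = ∑ i ∈ s, ip (X i) Y := by
  classical
  induction s using Finset.induction_on with
  | empty =>
    rw [Finset.sum_empty, Finset.sum_empty]
    unfold ip
    simp
  | insert a s ha ih => rw [Finset.sum_insert ha, Finset.sum_insert ha, ip_add_left, ih]

lemma ip_single_left (n : ℕ) (c : ℝ) (Y : DPoly) : ip (MonoidAlgebra.single n c) Y = c * Y.coeff n := by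
  have h : (MonoidAlgebra.single n c : DPoly).coeff.support ⊆ {n} := by
    rw [MonoidAlgebra.coeff_single]
    exact Finsupp.support_single_subset
  rw [Vc_ip h, Finset.sum_singleton, MonoidAlgebra.coeff_single, Finsupp.single_eq_same]

end Pool.Agent.H14.GP
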