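import Mathlib
import Pool.Agent.H14.GP.Vc

/-!
# Row Vd (80 lines): support and size of the prime sums `bb G T`

`bb G T = ∑_{p ≤ T} G(log p/log T) p^{-1/2} [p]`. If `G` vanishes outside `(0, b]` with `b ≤ 1`... coefficients at non-primes vanish;
`G (log p/log T) ≠ 0` gives `log p ≤ b log T`, i.e. `p ≤ T^b`. `l1 ≤ B (T+1)` because there are at most `⌊T⌋₊ + 1 ≤ T + 1` terms, each of
absolute value `≤ B p^{-1/2} ≤ B`.
-/

open Filter Topology
open scoped Real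

namespace Pool.Agent.H14.GP

lemma bb_coeff (G : ℝ → ℝ) (T : ℝ) (n : ℕ) : (bb G T).coeff n =
    if n ≤ ⌊T⌋₊ ∧ n.Prime then G (Real.log n / Real.log T) * (n : ℝ) ^ (-(1 / 2) : ℝ) else 0 := by
  unfold bb
  rw [MonoidAlgebra.coeff_sum, Finsupp.finset_sum_apply]
  simp only [MonoidAlgebra.coeff_single, Finsupp.single_apply]
  rw [Finset.sum_ite_eq']
  simp only [Finset.mem_filter, Finset.mem_range, Nat.lt_succ_iff]

lemma bb_supp {G : ℝ → ℝ} {b : ℝ} (hG : ∀ x, b < x → G x = 0) {T : ℝ} (hT : 1 < T) : SuppLe (T ^ b) (bb G T) := by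
  intro n hn
  rw [bb_coeff] at hn
  by_cases h : n ≤ ⌊T⌋₊ ∧ n.Prime
  · rw [if_pos h] at hn
    have h1 : 1 ≤ n := h.2.one_lt.le
    refine ⟨h1, ?_⟩
    have h2 : G (Real.log n / Real.log T) ≠ 0 := left_ne_zero_of_mul hn
    have h3 : Real.log n / Real.log T ≤ b := by
      by_contra hc
      exact h2 (hG _ (not_le.1 hc))
    have hlog : 0 < Real.log T := Real.log_pos hT
    rw [div_le_iff₀ hlog] at h3
    have hn0 : (0 : ℝ) < (n : ℝ) := by exact_mod_cast h1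
    rw [← Real.log_le_log_iff hn0 (Real.rpow_pos_of_pos (by linarith) b), Real.log_rpow (by linarith)]
    exact h3
  · rw [if_neg h] at hn
    exact absurd rfl hn

lemma bb_l1 {G : ℝ → ℝ} {B : ℝ} (hG : ∀ x, |G x| ≤ B) {T : ℝ} (hT : 0 ≤ T) : l1 (bb G T) ≤ B * (T + 1) := by
  have hB : 0 ≤ B := (abs_nonneg _).trans (hG 0)
  unfold bb
  refine (l1_sum_le _ _).trans ?_
  have h1 : ∀ p ∈ (Finset.range (⌊T⌋₊ + 1)).filter Nat.Prime,
      l1 (MonoidAlgebra.single p (G (Real.log p / Real.log T) * (p : ℝ) ^ (-(1 / 2) : ℝ))) ≤ B := by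
    intro p hp
    have hpp : p.Prime := (Finset.mem_filter.1 hp).2
    rw [l1_single, abs_mul]
    have h2 : |(p : ℝ) ^ (-(1 / 2) : ℝ)| ≤ 1 := by
      rw [abs_of_nonneg (Real.rpow_nonneg (Nat.cast_nonneg p) _)]
      exact Real.rpow_le_one_of_one_le_of_nonpos (by exact_mod_cast hpp.one_lt.le) (by norm_num)
    calc |G (Real.log p / Real.log T)| * |(p : ℝ) ^ (-(1 / 2) : ℝ)| ≤ B * 1 :=
          mul_le_mul (hG _) h2 (abs_nonneg _) hB
      _ = B := mul_one B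
  refine (Finset.sum_le_card_nsmul _ _ _ h1).trans ?_
  rw [nsmul_eq_mul]
  have h3 : (((Finset.range (⌊T⌋₊ + 1)).filter Nat.Prime).card : ℝ) ≤ T + 1 := by
    have h4 : ((Finset.range (⌊T⌋₊ + 1)).filter Nat.Prime).card ≤ ⌊T⌋₊ + 1 := by
      have := Finset.card_filter_le (Finset.range (⌊T⌋₊ + 1)) Nat.Prime
      rwa [Finset.card_range] at this
    have h5 : (((Finset.range (⌊T⌋₊ + 1)).filter Nat.Prime).card : ℝ) ≤ ((⌊T⌋₊ + 1 : ℕ) : ℝ) := by
      exact_mod_cast h4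
    have h6 := Nat.floor_le hT
    push_cast at h5
    linarith
  calc (((Finset.range (⌊T⌋₊ + 1)).filter Nat.Prime).card : ℝ) * B ≤ (T + 1) * B :=
        mul_le_mul_of_nonneg_right h3 hB
    _ = B * (T + 1) := mul_comm _ _

lemma bb_coeff_zero (G : ℝ → ℝ) (T : ℝ) : (bb G T).coeff 0 = 0 := by
  rw [bb_coeff, if_neg]
  rintro ⟨_, h⟩
  exact Nat.not_prime_zero h

end Pool.Agent.H14.GP
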