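import Mathlib
import Pool.Agent.H14.GP.Defs

/-!
# Row Ve (250 lines): tuples of primes

For a finite set `P` of primes and `f : Fin c → ℕ` in `P^c` let `NN P c f` be the number of `g ∈ P^c` with `∏ g = ∏ f`.
(1) `∏ g = ∏ f` iff `g = f ∘ π` for some permutation `π` (unique factorisation: the multisets `univ.val.map f`, `univ.val.map g` of primes
    have the same product, hence are equal: e.g. `Multiset`/`UniqueFactorizationMonoid.factors_unique`, `Nat.primeFactorsList_unique`, or count
    with `Nat.factorization`; equal multisets of values give a permutation). Therefore `1 ≤ NN ≤ c!`, and `NN = c!` if `f` is injective.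
    Also `∏ x(g_i) = ∏ x(f_i)` for such `g` (any `x`).
(2) `tuple`: if `|u_i(p)| ≤ ε` and `∑_{p∈P} |u_i(p)| ≤ U` for all `i : Fin c`, `p ∈ P`, then
    `|∑_{f ∈ P^c} NN(f) ∏ u_i(f_i) - c! ∏_i ∑_p u_i(p)| ≤ c! c^2 ε U^{c-1}`.
    PROOF. `∏_i ∑_p u_i(p) = ∑_f ∏ u_i(f_i)` (`Finset.prod_univ_sum`). The difference is `∑_f (NN(f) - c!) ∏ u_i(f_i)`, only non-injective `f`
    contribute, with `|NN - c!| ≤ c!`. For `i ≠ i'` the sum over `f` with `f_i = f_{i'}` of `∏ |u|` is `≤ ε U^{c-1}`: bound `|u_{i'}(f_{i'})| ≤ ε` and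
    sum over the other coordinates freely (the coordinate `i'` is determined by `i`). There are at most `c^2` pairs. For `c ≤ 1` the difference is 0.
-/

open Filter Topology
open scoped Real BigOperators

namespace Pool.Agent.H14.GP

/-- number of tuples from `P` with the same product as `f` -/
noncomputable def NN (P : Finset ℕ) (c : ℕ) (f : Fin c → ℕ) : ℝ :=
  (((Fintype.piFinset (fun _ : Fin c => P)).filter (fun g => ∏ i, g i = ∏ i, f i)).card : ℝ)

lemma Ve_perm {c d : ℕ} {f : Fin c → ℕ} {g : Fin d → ℕ} (hf : ∀ i, (f i).Prime) (hg : ∀ i, (g i).Prime)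
    (h : ∏ i, g i = ∏ i, f i) : (List.ofFn g).Perm (List.ofFn f) := by
  have h1 : (List.ofFn f).Perm (∏ i, f i).primeFactorsList := by
    apply Nat.primeFactorsList_unique
    · rw [List.prod_ofFn]
    · intro p hp
      obtain ⟨i, rfl⟩ := (List.mem_ofFn' f p).1 hp
      exact hf i
  have h2 : (List.ofFn g).Perm (∏ i, f i).primeFactorsList := by
    apply Nat.primeFactorsList_unique
    · rw [List.prod_ofFn, h]
    · intro p hp
      obtain ⟨i, rfl⟩ := (List.mem_ofFn' g p).1 hp
      exact hg i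
  exact h2.trans h1.symm

lemma prod_eq_perm {c : ℕ} {f g : Fin c → ℕ} (hf : ∀ i, (f i).Prime) (hg : ∀ i, (g i).Prime)
    (h : ∏ i, g i = ∏ i, f i) : ∃ τ : Equiv.Perm (Fin c), g = f ∘ τ := by
  have h1 := Ve_perm hf hg h
  have h2 : (Finset.univ : Finset (Fin c)).val.map g = (Finset.univ : Finset (Fin c)).val.map f := by
    rw [Fin.univ_val_map, Fin.univ_val_map]
    exact Multiset.coe_eq_coe.2 h1
  have h3 : ∀ p : ℕ, Fintype.card {i // g i = p} = Fintype.card {i // f i = p} := by
    intro p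
    have h4 := congrArg (Multiset.count p) h2
    rw [Multiset.count_map, Multiset.count_map] at h4
    rw [Fintype.card_subtype, Fintype.card_subtype]
    have e : ∀ k : Fin c → ℕ, (Finset.univ.filter (fun i => k i = p)).card =
        Multiset.card (Multiset.filter (fun a => p = k a) (Finset.univ : Finset (Fin c)).val) := by
      intro k
      rw [Finset.card_def, Finset.filter_val]
      congr 1
      exact Multiset.filter_congr fun x _ => eq_comm
    rw [e g, e f, h4]
  let e : ∀ p : ℕ, {i // g i = p} ≃ {i // f i = p} := fun p => Fintype.equivOfCardEq (h3 p)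
  refine ⟨Equiv.ofFiberEquiv e, ?_⟩
  funext i
  exact (Equiv.ofFiberEquiv_map e i).symm

lemma card_eq_of_prod_eq {c d : ℕ} {f : Fin c → ℕ} {g : Fin d → ℕ} (hf : ∀ i, (f i).Prime) (hg : ∀ i, (g i).Prime)
    (h : ∏ i, g i = ∏ i, f i) : c = d := by
  have h1 := (Ve_perm hf hg h).length_eq
  rw [List.length_ofFn, List.length_ofFn] at h1
  exact h1.symm

lemma NN_nonneg (P : Finset ℕ) (c : ℕ) (f : Fin c → ℕ) : 0 ≤ NN P c f := by
  unfold NN
  positivity

lemma Ve_sub {P : Finset ℕ} (hP : ∀ p ∈ P, p.Prime) {c : ℕ} {f : Fin c → ℕ} (hf : ∀ i, f i ∈ P) :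
    (Fintype.piFinset (fun _ : Fin c => P)).filter (fun g => ∏ i, g i = ∏ i, f i) ⊆
      (Finset.univ : Finset (Equiv.Perm (Fin c))).image (fun τ : Equiv.Perm (Fin c) => f ∘ τ) := by
  intro g hg
  rw [Finset.mem_filter, Fintype.mem_piFinset] at hg
  obtain ⟨τ, hτ⟩ := prod_eq_perm (fun i => hP _ (hf i)) (fun i => hP _ (hg.1 i)) hg.2
  exact Finset.mem_image.2 ⟨τ, Finset.mem_univ _, hτ.symm⟩

lemma NN_le {P : Finset ℕ} (hP : ∀ p ∈ P, p.Prime) {c : ℕ} {f : Fin c → ℕ} (hf : ∀ i, f i ∈ P) : NN P c f ≤ (c.factorial : ℝ) := by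
  unfold NN
  have h1 := (Finset.card_le_card (Ve_sub hP hf)).trans Finset.card_image_le
  rw [Finset.card_univ, Fintype.card_perm, Fintype.card_fin] at h1
  exact_mod_cast h1

lemma NN_inj {P : Finset ℕ} (hP : ∀ p ∈ P, p.Prime) {c : ℕ} {f : Fin c → ℕ} (hf : ∀ i, f i ∈ P) (hi : Function.Injective f) :
    NN P c f = (c.factorial : ℝ) := by
  unfold NN
  have h1 : (Fintype.piFinset (fun _ : Fin c => P)).filter (fun g => ∏ i, g i = ∏ i, f i) =
      (Finset.univ : Finset (Equiv.Perm (Fin c))).image (fun τ : Equiv.Perm (Fin c) => f ∘ τ) := by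
    refine Finset.Subset.antisymm (Ve_sub hP hf) ?_
    intro g hg
    obtain ⟨τ, -, rfl⟩ := Finset.mem_image.1 hg
    rw [Finset.mem_filter, Fintype.mem_piFinset]
    exact ⟨fun i => hf _, Equiv.prod_comp τ f⟩
  rw [h1, Finset.card_image_of_injective, Finset.card_univ, Fintype.card_perm, Fintype.card_fin]
  intro τ τ' h
  ext i
  have := congrFun h i
  exact congrArg Fin.val (hi this)

/-- the sum over the tuples with two equal coordinates -/
lemma Ve_pair {P : Finset ℕ} {c : ℕ} {v : Fin c → ℕ → ℝ} {ε U : ℝ} (hε : 0 ≤ ε) (_hU0 : 0 ≤ U)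
    (hv : ∀ i p, 0 ≤ v i p) (h1 : ∀ i, ∀ p ∈ P, v i p ≤ ε) (h2 : ∀ i, ∑ p ∈ P, v i p ≤ U)
    {i i' : Fin c} (hne : i ≠ i') :
    ∑ f ∈ (Fintype.piFinset (fun _ : Fin c => P)).filter (fun f => f i = f i'), ∏ j, v j (f j)
      ≤ ε * U ^ (c - 1) := by
  have hsplit : ∀ f : Fin c → ℕ, ∏ j, v j (f j) =
      v i' (f i') * ∏ j : {j : Fin c // j ≠ i'}, v j.1 (f j.1) := by
    intro f
    rw [← Finset.mul_prod_erase Finset.univ _ (Finset.mem_univ i')]
    congr 1
    apply Finset.prod_subtype
    intro x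
    simp
  have hinj : Set.InjOn (fun (f : Fin c → ℕ) (j : {j : Fin c // j ≠ i'}) => f j.1)
      ((Fintype.piFinset (fun _ : Fin c => P)).filter (fun f => f i = f i') : Finset (Fin c → ℕ)) := by
    intro f hf g hg hfg
    rw [Finset.mem_coe, Finset.mem_filter] at hf hg
    funext j
    by_cases hj : j = i'
    · rw [hj, ← hf.2, ← hg.2]
      exact congrFun hfg ⟨i, hne⟩
    · exact congrFun hfg ⟨j, hj⟩
  calc ∑ f ∈ (Fintype.piFinset (fun _ : Fin c => P)).filter (fun f => f i = f i'), ∏ j, v j (f j)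
      ≤ ∑ f ∈ (Fintype.piFinset (fun _ : Fin c => P)).filter (fun f => f i = f i'),
          ε * ∏ j : {j : Fin c // j ≠ i'}, v j.1 (f j.1) := by
        refine Finset.sum_le_sum fun f hf => ?_
        rw [hsplit]
        rw [Finset.mem_filter, Fintype.mem_piFinset] at hf
        exact mul_le_mul_of_nonneg_right (h1 _ _ (hf.1 i')) (Finset.prod_nonneg fun j _ => hv _ _)
    _ = ε * ∑ f ∈ (Fintype.piFinset (fun _ : Fin c => P)).filter (fun f => f i = f i'),
          ∏ j : {j : Fin c // j ≠ i'}, v j.1 (f j.1) := by rw [Finset.mul_sum]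
    _ = ε * ∑ h ∈ ((Fintype.piFinset (fun _ : Fin c => P)).filter (fun f => f i = f i')).image
          (fun (f : Fin c → ℕ) (j : {j : Fin c // j ≠ i'}) => f j.1),
          ∏ j : {j : Fin c // j ≠ i'}, v j.1 (h j) := by
        rw [Finset.sum_image hinj]
    _ ≤ ε * U ^ (c - 1) := by
        · apply mul_le_mul_of_nonneg_left _ hε
          calc _ ≤ ∑ h ∈ Fintype.piFinset (fun _ : {j : Fin c // j ≠ i'} => P),
                ∏ j : {j : Fin c // j ≠ i'}, v j.1 (h j) := by
                refine Finset.sum_le_sum_of_subset_of_nonneg ?_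
                  (fun h _ _ => Finset.prod_nonneg fun j _ => hv _ _)
                intro h hh
                obtain ⟨f, hf, rfl⟩ := Finset.mem_image.1 hh
                rw [Finset.mem_filter, Fintype.mem_piFinset] at hf
                rw [Fintype.mem_piFinset]
                exact fun j => hf.1 _
            _ = ∏ j : {j : Fin c // j ≠ i'}, ∑ p ∈ P, v j.1 p := by
                rw [Finset.prod_univ_sum]
            _ ≤ ∏ _j : {j : Fin c // j ≠ i'}, U :=
                Finset.prod_le_prod (fun j _ => Finset.sum_nonneg fun p _ => hv _ _)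
                  (fun j _ => h2 _)
            _ = U ^ (c - 1) := by
                rw [Finset.prod_const, Finset.card_univ, Fintype.card_subtype_compl,
                  Fintype.card_fin, Fintype.card_subtype_eq]

theorem tuple {P : Finset ℕ} (hP : ∀ p ∈ P, p.Prime) {c : ℕ} {u : Fin c → ℕ → ℝ} {ε U : ℝ} (hε : 0 ≤ ε) (hU0 : 0 ≤ U)
    (h1 : ∀ i, ∀ p ∈ P, |u i p| ≤ ε) (h2 : ∀ i, ∑ p ∈ P, |u i p| ≤ U) :
    |(∑ f ∈ Fintype.piFinset (fun _ : Fin c => P), NN P c f * ∏ i, u i (f i)) - (c.factorial : ℝ) * ∏ i, ∑ p ∈ P, u i p|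
      ≤ (c.factorial : ℝ) * (c : ℝ) ^ 2 * ε * U ^ (c - 1) := by
  have hc0 : (0 : ℝ) ≤ (c.factorial : ℝ) := by positivity
  have e1 : (∑ f ∈ Fintype.piFinset (fun _ : Fin c => P), NN P c f * ∏ i, u i (f i)) -
      (c.factorial : ℝ) * ∏ i, ∑ p ∈ P, u i p
      = ∑ f ∈ Fintype.piFinset (fun _ : Fin c => P), (NN P c f - (c.factorial : ℝ)) * ∏ i, u i (f i) := by
    rw [Finset.prod_univ_sum, Finset.mul_sum, ← Finset.sum_sub_distrib]
    exact Finset.sum_congr rfl fun f _ => by ring
  rw [e1]
  calc |∑ f ∈ Fintype.piFinset (fun _ : Fin c => P), (NN P c f - (c.factorial : ℝ)) * ∏ i, u i (f i)|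
      ≤ ∑ f ∈ Fintype.piFinset (fun _ : Fin c => P), |(NN P c f - (c.factorial : ℝ)) * ∏ i, u i (f i)| :=
        Finset.abs_sum_le_sum_abs _ _
    _ ≤ ∑ f ∈ Fintype.piFinset (fun _ : Fin c => P), ∑ q ∈ (Finset.univ : Finset (Fin c)).offDiag,
          (if f q.1 = f q.2 then (c.factorial : ℝ) * ∏ i, |u i (f i)| else 0) := by
        refine Finset.sum_le_sum fun f hf => ?_
        have hfP := Fintype.mem_piFinset.1 hf
        have hnn : ∀ q ∈ (Finset.univ : Finset (Fin c)).offDiag,
            0 ≤ (if f q.1 = f q.2 then (c.factorial : ℝ) * ∏ i, |u i (f i)| else 0) := by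
          intro q _
          split_ifs
          · exact mul_nonneg hc0 (Finset.prod_nonneg fun i _ => abs_nonneg _)
          · exact le_rfl
        by_cases hi : Function.Injective f
        · rw [NN_inj hP hfP hi, sub_self, zero_mul, abs_zero]
          exact Finset.sum_nonneg hnn
        · have hi' : ∃ a b, f a = f b ∧ a ≠ b := by
            unfold Function.Injective at hi
            push Not at hi
            obtain ⟨a, b, h, h'⟩ := hi
            exact ⟨a, b, h, h'⟩
          obtain ⟨a, b, hab, hne⟩ := hi'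
          have hmem : (a, b) ∈ (Finset.univ : Finset (Fin c)).offDiag :=
            Finset.mem_offDiag.2 ⟨Finset.mem_univ a, Finset.mem_univ b, hne⟩
          refine le_trans ?_ (Finset.single_le_sum hnn hmem)
          rw [if_pos hab, abs_mul, Finset.abs_prod]
          apply mul_le_mul_of_nonneg_right _ (Finset.prod_nonneg fun i _ => abs_nonneg _)
          have g1 := NN_nonneg P c f
          have g2 := NN_le hP hfP
          rw [abs_le]
          constructor <;> linarith
    _ = ∑ q ∈ (Finset.univ : Finset (Fin c)).offDiag, (c.factorial : ℝ) *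
          ∑ f ∈ (Fintype.piFinset (fun _ : Fin c => P)).filter (fun f => f q.1 = f q.2), ∏ i, |u i (f i)| := by
        rw [Finset.sum_comm]
        refine Finset.sum_congr rfl fun q _ => ?_
        rw [Finset.mul_sum, Finset.sum_filter]
    _ ≤ ∑ _q ∈ (Finset.univ : Finset (Fin c)).offDiag, (c.factorial : ℝ) * (ε * U ^ (c - 1)) := by
        refine Finset.sum_le_sum fun q hq => ?_
        apply mul_le_mul_of_nonneg_left _ hc0
        exact Ve_pair (v := fun i p => |u i p|) hε hU0 (fun _ _ => abs_nonneg _) h1 h2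
          (Finset.mem_offDiag.1 hq).2.2
    _ ≤ (c.factorial : ℝ) * (c : ℝ) ^ 2 * ε * U ^ (c - 1) := by
        rw [Finset.sum_const, nsmul_eq_mul]
        have h3 : ((Finset.univ : Finset (Fin c)).offDiag.card : ℝ) ≤ (c : ℝ) ^ 2 := by
          have : (Finset.univ : Finset (Fin c)).offDiag.card ≤ c ^ 2 := by
            rw [Finset.offDiag_card, Finset.card_univ, Fintype.card_fin, sq]
            exact Nat.sub_le _ _
          exact_mod_cast this
        have h4 : 0 ≤ (c.factorial : ℝ) * (ε * U ^ (c - 1)) := by positivity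
        calc _ ≤ (c : ℝ) ^ 2 * ((c.factorial : ℝ) * (ε * U ^ (c - 1))) :=
              mul_le_mul_of_nonneg_right h3 h4
          _ = _ := by ring

end Pool.Agent.H14.GP
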