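import Mathlib
import Pool.Agent.H14.GP.Ve
import Pool.Agent.H14.GP.Vc

/-!
# Row Vf (200 lines): inner products of powers of prime sums

`pr P x = ∑_{p∈P} x(p) [p]` for a finite set `P` of primes.
(1) `(pr P x)^a = ∑_{f ∈ P^a} (∏ x(f_i)) [∏ f_i]` (`Finset.sum_pow'`/`Finset.prod_univ_sum` in the form `(∑_{p∈P} z p)^a = ∑_{f ∈ piFinset} ∏ z (f i)`
    and `∏ single (f i) (x (f i)) = single (∏ f i) (∏ x (f i))`), so its coefficient at `m` is `∑_{f} [∏ f = m] ∏ x(f_i)`.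
(2) `ip ((pr P x)^a) ((pr P x)^b) = [a = b] ∑_{f∈P^a} NN(f) ∏ x(f_i)^2`: the double sum over `f, g` with `∏ f = ∏ g`; by
    `card_eq_of_prod_eq` it is empty unless `a = b`, and `∏ x(g_i) = ∏ x(f_i)` by `prod_eq_perm`.
(3) `ip (pr P y * (pr P x)^a) ((pr P x)^b) = [b = a+1] ∑_{f∈P^{a+1}} NN(f) y(f_0) x(f_0) ∏_{i≥1} x(f_i)^2`: expand the left side as a sum over
    `f : Fin (a+1) → P` (first coordinate `p`; `Fin.cons`) of `y(f_0) ∏_{i ≥ 1} x(f_i) [∏ f]`, the coefficient of `(pr P x)^{a+1}` at `∏ f` is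
    `NN(f) ∏_i x(f_i)`.
(4) `one_cell`: for functions `x_T, y_T ≥`.. of `T` and prime sets `P_T`: if `∑_{P_T} x_T^2 → s`, `max_{P_T} x_T^2 → 0`
    then `ip ((pr P x)^a) ((pr P x)^b) → [a=b] a! s^a`; if moreover `∑ |y x| ≤ U`, `∑ y x → κ`, `max |y x| → 0` then
    `ip (pr P y * (pr P x)^a) ((pr P x)^b) → [b=a+1] (a+1)! κ s^a`. PROOF. `tuple` with `u_i = x^2` (resp. `u_0 = y x`).
-/

open Filter Topology
open scoped Real BigOperators

namespace Pool.Agent.H14.GP

/-- prime sum over `P` -/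
noncomputable def pr (P : Finset ℕ) (x : ℕ → ℝ) : DPoly := ∑ p ∈ P, MonoidAlgebra.single p (x p)

lemma Vf_prod_single {ι : Type*} (s : Finset ι) (n : ι → ℕ) (c : ι → ℝ) :
    ∏ i ∈ s, (MonoidAlgebra.single (n i) (c i) : DPoly) = MonoidAlgebra.single (∏ i ∈ s, n i) (∏ i ∈ s, c i) := by
  classical
  induction s using Finset.induction_on with
  | empty => simp [MonoidAlgebra.one_def]
  | insert a s ha ih =>
    rw [Finset.prod_insert ha, Finset.prod_insert ha, Finset.prod_insert ha, ih, MonoidAlgebra.single_mul_single]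

lemma Vf_prod (P : Finset ℕ) (c : ℕ) (w : Fin c → ℕ → ℝ) :
    ∏ i : Fin c, pr P (w i) = ∑ f ∈ Fintype.piFinset (fun _ : Fin c => P),
      (MonoidAlgebra.single (∏ i, f i) (∏ i, w i (f i)) : DPoly) := by
  classical
  unfold pr
  rw [Finset.prod_univ_sum]
  refine Finset.sum_congr rfl fun f _ => ?_
  exact Vf_prod_single _ _ _

lemma Vf_pow (P : Finset ℕ) (x : ℕ → ℝ) (c : ℕ) :
    pr P x ^ c = ∏ _i : Fin c, pr P x := by
  simp

lemma Vf_pow_ins (P : Finset ℕ) (x y : ℕ → ℝ) (a : ℕ) :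
    pr P y * pr P x ^ a = ∏ i : Fin (a + 1), pr P (if i = 0 then y else x) := by
  rw [Fin.prod_univ_succ]
  simp [Fin.succ_ne_zero]

lemma Vf_coeff {P : Finset ℕ} (hP : ∀ p ∈ P, p.Prime) (x : ℕ → ℝ) (b c : ℕ) (f : Fin c → ℕ)
    (hf : ∀ i, f i ∈ P) :
    (pr P x ^ b).coeff (∏ i, f i) = if b = c then NN P c f * ∏ i, x (f i) else 0 := by
  classical
  rw [Vf_pow, Vf_prod, MonoidAlgebra.coeff_sum, Finsupp.finsetSum_apply]
  by_cases hbc : b = c
  · subst hbc
    rw [if_pos rfl]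
    have h1 : ∀ g ∈ Fintype.piFinset (fun _ : Fin b => P),
        (MonoidAlgebra.single (∏ i, g i) (∏ i, x (g i)) : DPoly).coeff (∏ i, f i) =
        if ∏ i, g i = ∏ i, f i then ∏ i, x (f i) else 0 := by
      intro g hg
      rw [Fintype.mem_piFinset] at hg
      rw [MonoidAlgebra.coeff_single, Finsupp.single_apply]
      by_cases he : ∏ i, g i = ∏ i, f i
      · rw [if_pos he, if_pos he]
        obtain ⟨τ, hτ⟩ := prod_eq_perm (fun i => hP _ (hf i)) (fun i => hP _ (hg i)) he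
        rw [hτ]
        exact Equiv.prod_comp τ (fun i => x (f i))
      · rw [if_neg he, if_neg he]
    rw [Finset.sum_congr rfl h1, ← Finset.sum_filter, Finset.sum_const, nsmul_eq_mul]
    rfl
  · rw [if_neg hbc]
    refine Finset.sum_eq_zero fun g hg => ?_
    rw [Fintype.mem_piFinset] at hg
    rw [MonoidAlgebra.coeff_single, Finsupp.single_apply, if_neg]
    intro he
    exact hbc (card_eq_of_prod_eq (fun i => hP _ (hf i)) (fun i => hP _ (hg i)) he).symm

lemma Vf_gen {P : Finset ℕ} (hP : ∀ p ∈ P, p.Prime) (x : ℕ → ℝ) (b c : ℕ) (w : Fin c → ℕ → ℝ) :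
    ip (∏ i : Fin c, pr P (w i)) (pr P x ^ b) = if b = c then
      ∑ f ∈ Fintype.piFinset (fun _ : Fin c => P), NN P c f * ∏ i : Fin c, (w i (f i) * x (f i)) else 0 := by
  classical
  rw [Vf_prod, ip_sum_left]
  have h1 : ∀ f ∈ Fintype.piFinset (fun _ : Fin c => P),
      ip (MonoidAlgebra.single (∏ i, f i) (∏ i, w i (f i))) (pr P x ^ b) =
      if b = c then NN P c f * ∏ i : Fin c, (w i (f i) * x (f i)) else 0 := by
    intro f hf
    rw [Fintype.mem_piFinset] at hf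
    rw [ip_single_left, Vf_coeff hP x b c f hf]
    by_cases hbc : b = c
    · rw [if_pos hbc, if_pos hbc, Finset.prod_mul_distrib]
      ring
    · rw [if_neg hbc, if_neg hbc, mul_zero]
  rw [Finset.sum_congr rfl h1]
  by_cases hbc : b = c
  · simp only [if_pos hbc]
  · simp only [if_neg hbc, Finset.sum_const_zero]

lemma ip_pow {P : Finset ℕ} (hP : ∀ p ∈ P, p.Prime) (x : ℕ → ℝ) (a b : ℕ) :
    ip (pr P x ^ a) (pr P x ^ b) = if a = b then ∑ f ∈ Fintype.piFinset (fun _ : Fin a => P), NN P a f * ∏ i, x (f i) ^ 2 else 0 := by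
  rw [Vf_pow P x a, Vf_gen hP x b a (fun _ => x)]
  by_cases hab : a = b
  · rw [if_pos hab, if_pos hab.symm]
    refine Finset.sum_congr rfl fun f _ => ?_
    simp only [sq]
  · rw [if_neg hab, if_neg (Ne.symm hab)]

lemma ip_pow_ins {P : Finset ℕ} (hP : ∀ p ∈ P, p.Prime) (x y : ℕ → ℝ) (a b : ℕ) :
    ip (pr P y * pr P x ^ a) (pr P x ^ b) = if b = a + 1 then
      ∑ f ∈ Fintype.piFinset (fun _ : Fin (a + 1) => P), NN P (a + 1) f *
        ∏ i : Fin (a + 1), (if i = 0 then y (f i) * x (f i) else x (f i) ^ 2) else 0 := by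
  rw [Vf_pow_ins P x y a, Vf_gen hP x b (a + 1)]
  by_cases hab : b = a + 1
  · rw [if_pos hab, if_pos hab]
    refine Finset.sum_congr rfl fun f _ => ?_
    have h : (∏ i : Fin (a + 1), (if i = 0 then y else x) (f i) * x (f i)) =
        ∏ i : Fin (a + 1), (if i = 0 then y (f i) * x (f i) else x (f i) ^ 2) := by
      refine Finset.prod_congr rfl fun i _ => ?_
      by_cases hi : i = 0
      · rw [if_pos hi, if_pos hi]
      · rw [if_neg hi, if_neg hi, sq]
    rw [h]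
  · rw [if_neg hab, if_neg hab]


lemma Vf_lim {P : ℝ → Finset ℕ} (hP : ∀ T, ∀ p ∈ P T, p.Prime) {c : ℕ} {u : ℝ → Fin c → ℕ → ℝ} {U : ℝ} (hU : 0 ≤ U)
    {ε : ℝ → ℝ} (hε : Tendsto ε atTop (𝓝 0))
    (h1 : ∀ᶠ T in atTop, ∀ i, ∀ p ∈ P T, |u T i p| ≤ ε T)
    (h2 : ∀ᶠ T in atTop, ∀ i, ∑ p ∈ P T, |u T i p| ≤ U) {L : ℝ}
    (h3 : Tendsto (fun T => ∏ i, ∑ p ∈ P T, u T i p) atTop (𝓝 L)) :
    Tendsto (fun T => ∑ f ∈ Fintype.piFinset (fun _ : Fin c => P T), NN (P T) c f * ∏ i, u T i (f i)) atTop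
      (𝓝 ((c.factorial : ℝ) * L)) := by
  have hA : Tendsto (fun T => (∑ f ∈ Fintype.piFinset (fun _ : Fin c => P T), NN (P T) c f * ∏ i, u T i (f i)) -
      (c.factorial : ℝ) * ∏ i, ∑ p ∈ P T, u T i p) atTop (𝓝 0) := by
    have hB : Tendsto (fun T => (c.factorial : ℝ) * (c : ℝ) ^ 2 * |ε T| * U ^ (c - 1)) atTop (𝓝 0) := by
      have h := ((hε.abs).const_mul ((c.factorial : ℝ) * (c : ℝ) ^ 2)).mul_const (U ^ (c - 1))
      simpa using h
    refine squeeze_zero_norm' ?_ hB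
    filter_upwards [h1, h2] with T hT1 hT2
    rw [Real.norm_eq_abs]
    exact tuple (hP T) (abs_nonneg _) hU (fun i p hp => (hT1 i p hp).trans (le_abs_self _)) hT2
  have hC := hA.add (h3.const_mul (c.factorial : ℝ))
  rw [zero_add] at hC
  refine hC.congr fun T => ?_
  ring

theorem one_cell {P : ℝ → Finset ℕ} (hP : ∀ T, ∀ p ∈ P T, p.Prime) {x : ℝ → ℕ → ℝ} {s : ℝ} {ε : ℝ → ℝ} (hε : Tendsto ε atTop (𝓝 0))
    (h1 : ∀ᶠ T in atTop, ∀ p ∈ P T, x T p ^ 2 ≤ ε T) (h2 : Tendsto (fun T => ∑ p ∈ P T, x T p ^ 2) atTop (𝓝 s)) (a b : ℕ) :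
    Tendsto (fun T => ip (pr (P T) (x T) ^ a) (pr (P T) (x T) ^ b)) atTop (𝓝 (if a = b then (a.factorial : ℝ) * s ^ a else 0)) := by
  by_cases hab : a = b
  · rw [if_pos hab]
    have hs : 0 ≤ s := ge_of_tendsto' h2 fun T => Finset.sum_nonneg fun p _ => sq_nonneg _
    have h3 : Tendsto (fun T => ∏ _i : Fin a, ∑ p ∈ P T, x T p ^ 2) atTop (𝓝 (s ^ a)) := by
      simp only [Finset.prod_const, Finset.card_univ, Fintype.card_fin]
      exact h2.pow a
    have h4 := Vf_lim hP (c := a) (u := fun T _ p => x T p ^ 2) (U := s + 1) (by linarith) hε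
      (by
        filter_upwards [h1] with T hT i p hp
        rw [abs_of_nonneg (sq_nonneg _)]
        exact hT p hp)
      (by
        filter_upwards [h2.eventually (gt_mem_nhds (lt_add_one s))] with T hT i
        simp only [abs_pow, sq_abs]
        exact hT.le) h3
    refine h4.congr fun T => ?_
    rw [ip_pow (hP T), if_pos hab]
  · rw [if_neg hab]
    refine tendsto_const_nhds.congr fun T => ?_
    rw [ip_pow (hP T), if_neg hab]

theorem one_cell_ins {P : ℝ → Finset ℕ} (hP : ∀ T, ∀ p ∈ P T, p.Prime) {x y : ℝ → ℕ → ℝ} {s κ U : ℝ} {ε : ℝ → ℝ}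
    (hε : Tendsto ε atTop (𝓝 0))
    (h1 : ∀ᶠ T in atTop, ∀ p ∈ P T, x T p ^ 2 ≤ ε T) (h2 : Tendsto (fun T => ∑ p ∈ P T, x T p ^ 2) atTop (𝓝 s))
    (h3 : ∀ᶠ T in atTop, ∀ p ∈ P T, |y T p * x T p| ≤ ε T) (h4 : ∀ᶠ T in atTop, ∑ p ∈ P T, |y T p * x T p| ≤ U)
    (h5 : Tendsto (fun T => ∑ p ∈ P T, y T p * x T p) atTop (𝓝 κ)) (a b : ℕ) :
    Tendsto (fun T => ip (pr (P T) (y T) * pr (P T) (x T) ^ a) (pr (P T) (x T) ^ b)) atTop
      (𝓝 (if b = a + 1 then ((a + 1).factorial : ℝ) * κ * s ^ a else 0)) := by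
  by_cases hab : b = a + 1
  · rw [if_pos hab]
    have hs : 0 ≤ s := ge_of_tendsto' h2 fun T => Finset.sum_nonneg fun p _ => sq_nonneg _
    have h6 : Tendsto (fun T => ∏ i : Fin (a + 1), ∑ p ∈ P T, (if i = 0 then y T p * x T p else x T p ^ 2)) atTop
        (𝓝 (κ * s ^ a)) := by
      refine (h5.mul (h2.pow a)).congr fun T => ?_
      rw [Fin.prod_univ_succ]
      simp [Fin.succ_ne_zero]
    have h7 := Vf_lim hP (c := a + 1) (u := fun T i p => if i = 0 then y T p * x T p else x T p ^ 2)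
      (U := max U (s + 1)) (le_max_of_le_right (by linarith)) hε
      (by
        filter_upwards [h1, h3] with T hT hT' i p hp
        by_cases hi : i = 0
        · simp only [if_pos hi]
          exact hT' p hp
        · simp only [if_neg hi]
          rw [abs_of_nonneg (sq_nonneg _)]
          exact hT p hp)
      (by
        filter_upwards [h2.eventually (gt_mem_nhds (lt_add_one s)), h4] with T hT hT' i
        by_cases hi : i = 0
        · simp only [if_pos hi]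
          exact hT'.trans (le_max_left _ _)
        · simp only [if_neg hi, abs_pow, sq_abs]
          exact hT.le.trans (le_max_right _ _)) h6
    rw [mul_assoc]
    refine h7.congr fun T => ?_
    rw [ip_pow_ins (hP T), if_pos hab]
  · rw [if_neg hab]
    refine tendsto_const_nhds.congr fun T => ?_
    rw [ip_pow_ins (hP T), if_neg hab]

end Pool.Agent.H14.GP
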