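import Mathlib
import Pool.Agent.H14.GP.Vc

/-!
# Row Vg (200 lines): factorisation of `ip` over disjoint sets of primes

`On P X`: every `n` with `X_n ≠ 0` is nonzero and all its prime factors lie in `P`. Stable under products, powers; `1` is `On ∅`; `single p c`
with `p ∈ P` prime is `On P`; monotone in `P`.
`ip_mul`: if `X, Y` are `On P`, `X', Y'` are `On P'`, `P, P'` disjoint, then `ip (X*X') (Y*Y') = ip X Y * ip X' Y'`.
PROOF. For `n = m m'` with `m` over `P`, `m'` over `P'`, the pair `(m,m')` is determined by `n` (if `m m' = k k'` then `m = k`, `m' = k'`: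
`m` is coprime to `k'` and to `m'`; `m ∣ k k'` gives `m ∣ k`, and symmetrically `k ∣ m`). So `(X*X')_{m m'} = X_m X'_{m'}` (`coeff_mul` and uniqueness) and
`ip (X*X') (Y*Y') = ∑_{m,m'} X_m X'_{m'} (Y*Y')_{m m'} = ∑ X_m Y_m X'_{m'} Y'_{m'}`: expand the left argument only:
`X*X' = ∑_{m,m'} X_m X'_{m'} [m m']`, use `ip_sum_left`, `ip_single_left`, then `(Y*Y')_{m m'} = Y_m Y'_{m'}`.
`ip_prod`: the same for a finite product over pairwise disjoint prime sets `P j`.
`ip_rest`: if every `n` with `Z_n ≠ 0` is divisible by a prime outside `P` and `Y` is `On P`, then `ip (Z * X) Y = 0` for all `X`.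
(A term `Z_n X_m Y_{nm}`: a prime outside `P` divides `nm`, so `Y_{nm} = 0`; if `nm = 0` also `Y_0 = 0`.)
-/

open Filter Topology
open scoped Real BigOperators

namespace Pool.Agent.H14.GP

/-- supported on products of primes from `P` -/
def On (P : Set ℕ) (X : DPoly) : Prop := ∀ n, X.coeff n ≠ 0 → n ≠ 0 ∧ ∀ p, p.Prime → p ∣ n → p ∈ P

lemma Vg_exists {X Y : DPoly} {n : ℕ} (h : (X * Y).coeff n ≠ 0) :
    ∃ a b, X.coeff a ≠ 0 ∧ Y.coeff b ≠ 0 ∧ a * b = n := by
  by_contra hcon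
  push Not at hcon
  apply h
  rw [MonoidAlgebra.coeff_mul]
  simp only [Finsupp.sum]
  refine Finset.sum_eq_zero fun a ha => Finset.sum_eq_zero fun b hb => ?_
  rw [if_neg]
  exact hcon a b (Finsupp.mem_support_iff.mp ha) (Finsupp.mem_support_iff.mp hb)

lemma On.mono {P P' : Set ℕ} (h : P ⊆ P') {X : DPoly} (hX : On P X) : On P' X :=
  fun n hn => ⟨(hX n hn).1, fun p hp hpn => h ((hX n hn).2 p hp hpn)⟩

lemma on_one (P : Set ℕ) : On P (1 : DPoly) := by
  intro n hn
  rw [MonoidAlgebra.one_def, MonoidAlgebra.coeff_single, Finsupp.single_apply] at hn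
  have h1 : n = 1 := by
    by_contra hne
    exact hn (if_neg (fun h => hne h.symm))
  subst h1
  refine ⟨one_ne_zero, fun p hp hp1 => ?_⟩
  exact absurd (Nat.dvd_one.mp hp1) hp.one_lt.ne'

lemma on_single {P : Set ℕ} {p : ℕ} (hp : p.Prime) (h : p ∈ P) (c : ℝ) : On P (MonoidAlgebra.single p c) := by
  intro n hn
  rw [MonoidAlgebra.coeff_single, Finsupp.single_apply] at hn
  have h1 : n = p := by
    by_contra hne
    exact hn (if_neg (fun h => hne h.symm))
  subst h1
  refine ⟨hp.ne_zero, fun q hq hqn => ?_⟩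
  rw [(Nat.prime_dvd_prime_iff_eq hq hp).mp hqn]
  exact h

lemma On.add {P : Set ℕ} {X Y : DPoly} (hX : On P X) (hY : On P Y) : On P (X + Y) := by
  intro n hn
  rw [MonoidAlgebra.coeff_add, Finsupp.add_apply] at hn
  by_cases h : X.coeff n = 0
  · exact hY n (fun h' => hn (by rw [h, h', add_zero]))
  · exact hX n h

lemma Vg_on_zero (P : Set ℕ) : On P (0 : DPoly) := by
  intro n hn
  exact absurd (by simp) hn

lemma On.sum {P : Set ℕ} {ι : Type*} (s : Finset ι) {X : ι → DPoly} (h : ∀ i ∈ s, On P (X i)) : On P (∑ i ∈ s, X i) := by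
  classical
  induction s using Finset.induction_on with
  | empty => simpa using Vg_on_zero P
  | insert a s ha ih =>
    rw [Finset.sum_insert ha]
    exact (h a (Finset.mem_insert_self a s)).add (ih fun i hi => h i (Finset.mem_insert_of_mem hi))

lemma On.mul {P : Set ℕ} {X Y : DPoly} (hX : On P X) (hY : On P Y) : On P (X * Y) := by
  intro n hn
  obtain ⟨a, b, ha, hb, rfl⟩ := Vg_exists hn
  refine ⟨mul_ne_zero (hX a ha).1 (hY b hb).1, fun p hp hpn => ?_⟩
  rcases hp.dvd_mul.mp hpn with h | h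
  · exact (hX a ha).2 p hp h
  · exact (hY b hb).2 p hp h

lemma On.pow {P : Set ℕ} {X : DPoly} (hX : On P X) (k : ℕ) : On P (X ^ k) := by
  induction k with
  | zero => simpa using on_one P
  | succ k ih => rw [pow_succ]; exact ih.mul hX

lemma On.prod {P : Set ℕ} {ι : Type*} (s : Finset ι) {X : ι → DPoly} (h : ∀ i ∈ s, On P (X i)) : On P (∏ i ∈ s, X i) := by
  classical
  induction s using Finset.induction_on with
  | empty => simpa using on_one P
  | insert a s ha ih =>
    rw [Finset.prod_insert ha]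
    exact (h a (Finset.mem_insert_self a s)).mul (ih fun i hi => h i (Finset.mem_insert_of_mem hi))

lemma Vg_ip_mul_left (X X' Z : DPoly) :
    ip (X * X') Z = ∑ a ∈ X.coeff.support, ∑ b ∈ X'.coeff.support, X.coeff a * X'.coeff b * Z.coeff (a * b) := by
  rw [MonoidAlgebra.mul_def]
  simp only [Finsupp.sum]
  rw [ip_sum_left]
  refine Finset.sum_congr rfl fun a _ => ?_
  rw [ip_sum_left]
  refine Finset.sum_congr rfl fun b _ => ?_
  rw [ip_single_left]

lemma Vg_coprime {P P' : Set ℕ} (hd : Disjoint P P') {m k : ℕ} (hm : ∀ p, p.Prime → p ∣ m → p ∈ P)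
    (hk : ∀ p, p.Prime → p ∣ k → p ∈ P') : Nat.Coprime m k := by
  rw [Nat.coprime_iff_gcd_eq_one]
  by_contra hne
  obtain ⟨p, hp, hpd⟩ := Nat.exists_prime_and_dvd hne
  exact Set.disjoint_left.mp hd (hm p hp (hpd.trans (Nat.gcd_dvd_left m k)))
    (hk p hp (hpd.trans (Nat.gcd_dvd_right m k)))

lemma Vg_unique {P P' : Set ℕ} (hd : Disjoint P P') {m m' k k' : ℕ}
    (hm : ∀ p, p.Prime → p ∣ m → p ∈ P) (hm' : ∀ p, p.Prime → p ∣ m' → p ∈ P')
    (hk : ∀ p, p.Prime → p ∣ k → p ∈ P) (hk' : ∀ p, p.Prime → p ∣ k' → p ∈ P') (hk0 : k ≠ 0)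
    (h : m * m' = k * k') : m = k ∧ m' = k' := by
  have h1 : m ∣ k := (Vg_coprime hd hm hk').dvd_of_dvd_mul_right (by rw [← h]; exact Nat.dvd_mul_right m m')
  have h2 : k ∣ m := (Vg_coprime hd hk hm').dvd_of_dvd_mul_right (by rw [h]; exact Nat.dvd_mul_right k k')
  have h3 : m = k := Nat.dvd_antisymm h1 h2
  refine ⟨h3, ?_⟩
  subst h3
  exact Nat.eq_of_mul_eq_mul_left (Nat.pos_of_ne_zero hk0) h

lemma Vg_coeff_mul {P P' : Set ℕ} (hd : Disjoint P P') {X X' : DPoly} (hX : On P X) (hX' : On P' X') {m m' : ℕ}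
    (hm0 : m ≠ 0) (hm : ∀ p, p.Prime → p ∣ m → p ∈ P) (hm' : ∀ p, p.Prime → p ∣ m' → p ∈ P') :
    (X * X').coeff (m * m') = X.coeff m * X'.coeff m' := by
  rw [MonoidAlgebra.coeff_mul]
  simp only [Finsupp.sum]
  rw [Finset.sum_eq_single m]
  · rw [Finset.sum_eq_single m']
    · rw [if_pos rfl]
    · intro b hb hbm
      rw [if_neg]
      intro h
      exact hbm (Nat.eq_of_mul_eq_mul_left (Nat.pos_of_ne_zero hm0) h)
    · intro hb
      rw [Finsupp.notMem_support_iff] at hb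
      rw [if_pos rfl, hb, mul_zero]
  · intro a ha ham
    refine Finset.sum_eq_zero fun b hb => ?_
    rw [if_neg]
    intro h
    exact ham (Vg_unique hd (hX a (Finsupp.mem_support_iff.mp ha)).2 (hX' b (Finsupp.mem_support_iff.mp hb)).2
      hm hm' hm0 h).1
  · intro ha
    rw [Finsupp.notMem_support_iff] at ha
    refine Finset.sum_eq_zero fun b _ => ?_
    rw [ha, zero_mul, ite_self]

theorem ip_mul {P P' : Set ℕ} (hd : Disjoint P P') {X Y X' Y' : DPoly} (hX : On P X) (hY : On P Y) (hX' : On P' X') (hY' : On P' Y') :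
    ip (X * X') (Y * Y') = ip X Y * ip X' Y' := by
  rw [Vg_ip_mul_left]
  unfold ip
  rw [Finset.sum_mul_sum]
  refine Finset.sum_congr rfl fun a ha => Finset.sum_congr rfl fun b hb => ?_
  have ha' := hX a (Finsupp.mem_support_iff.mp ha)
  have hb' := hX' b (Finsupp.mem_support_iff.mp hb)
  rw [Vg_coeff_mul hd hY hY' ha'.1 ha'.2 hb'.2]
  ring

theorem ip_prod {ι : Type*} (s : Finset ι) {P : ι → Set ℕ} (hd : ∀ i ∈ s, ∀ j ∈ s, i ≠ j → Disjoint (P i) (P j)) {X Y : ι → DPoly}
    (hX : ∀ i ∈ s, On (P i) (X i)) (hY : ∀ i ∈ s, On (P i) (Y i)) :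
    ip (∏ i ∈ s, X i) (∏ i ∈ s, Y i) = ∏ i ∈ s, ip (X i) (Y i) := by
  classical
  induction s using Finset.induction_on with
  | empty =>
    rw [Finset.prod_empty, Finset.prod_empty, Finset.prod_empty, MonoidAlgebra.one_def, ip_single_left,
      MonoidAlgebra.coeff_single, Finsupp.single_eq_same, one_mul]
  | insert a s ha ih =>
    rw [Finset.prod_insert ha, Finset.prod_insert ha, Finset.prod_insert ha]
    have hs : ∀ i ∈ s, i ∈ insert a s := fun i hi => Finset.mem_insert_of_mem hi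
    have haa : a ∈ insert a s := Finset.mem_insert_self a s
    have hdis : Disjoint (P a) (⋃ i ∈ s, P i) := by
      rw [Set.disjoint_iUnion₂_right]
      intro i hi
      exact hd a haa i (hs i hi) (fun h => ha (h ▸ hi))
    have hXs : On (⋃ i ∈ s, P i) (∏ i ∈ s, X i) :=
      On.prod s fun i hi => (hX i (hs i hi)).mono (Set.subset_biUnion_of_mem (u := P) hi)
    have hYs : On (⋃ i ∈ s, P i) (∏ i ∈ s, Y i) :=
      On.prod s fun i hi => (hY i (hs i hi)).mono (Set.subset_biUnion_of_mem (u := P) hi)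
    rw [ip_mul hdis (hX a haa) (hY a haa) hXs hYs,
      ih (fun i hi j hj => hd i (hs i hi) j (hs j hj)) (fun i hi => hX i (hs i hi)) (fun i hi => hY i (hs i hi))]

theorem ip_rest {P : Set ℕ} {Z X Y : DPoly} (hZ : ∀ n, Z.coeff n ≠ 0 → ∃ p, p.Prime ∧ p ∣ n ∧ p ∉ P) (hY : On P Y) :
    ip (Z * X) Y = 0 := by
  rw [Vg_ip_mul_left]
  refine Finset.sum_eq_zero fun a ha => Finset.sum_eq_zero fun b _ => ?_
  obtain ⟨p, hp, hpa, hpP⟩ := hZ a (Finsupp.mem_support_iff.mp ha)
  have h0 : Y.coeff (a * b) = 0 := by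
    by_contra h
    exact hpP ((hY _ h).2 p hp (hpa.trans (Nat.dvd_mul_right a b)))
  rw [h0, mul_zero]

end Pool.Agent.H14.GP
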