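import Mathlib
import Pool.Agent.H14.GP.Defs
import Pool.Agent.H4.Mertens

/-!
# Row Vh (150 lines): Mertens for primes with a continuous profile

For `g` continuous with `g = 0` outside `[a, b]`, `0 < a`, `b < 1`... (here: `g x = 0` for `x ≤ a` and for `b ≤ x`, `b ≤ 1`):
`∑_{p ≤ T} g(log p/log T)/p → ∫_0^∞ g(x)/x dx`.
PROOF. `k(x) = g(x)/x` is continuous with compact support; `Pool.Agent.H4.mertens_one` with `L = log T` says
`(1/L) ∑' Λ(n)/n k(log n/L) → ∫_{x>0} k`. For a prime `n = p`: `Λ(p)/(L p) k(log p/L) = g(log p/L)/p`. The other `n`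
contribute at most `sup|k| L^{-1} ∑_{n not prime} Λ(n)/n → 0`. Terms with `n > T`: `log n/L > 1 ≥ b`, so `g = 0`.
-/

open MeasureTheory Set Filter Topology
open scoped Real

namespace Pool.Agent.H14.GP

open ArithmeticFunction in
theorem mertens_primes {g : ℝ → ℝ} (hg : Continuous g) {a b : ℝ} (ha : 0 < a) (hb : b ≤ 1) (h1 : ∀ x, x ≤ a → g x = 0)
    (h2 : ∀ x, b ≤ x → g x = 0) :
    Tendsto (fun T : ℝ => ∑ p ∈ (Finset.range (⌊T⌋₊ + 1)).filter Nat.Prime, g (Real.log p / Real.log T) / p) atTop
      (𝓝 (∫ x in Ioi (0 : ℝ), g x / x)) := by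
  classical
  set k : ℝ → ℝ := fun x => g x / x with hk
  have hkc : Continuous k := by
    rw [continuous_iff_continuousAt]
    intro x
    rcases eq_or_ne x 0 with h | h
    · subst h
      have h3 : k =ᶠ[𝓝 (0 : ℝ)] fun _ => 0 := by
        filter_upwards [Iio_mem_nhds ha] with y hy
        simp only [hk, h1 y (le_of_lt hy), zero_div]
      exact (continuousAt_const.congr h3.symm)
    · exact hg.continuousAt.div continuousAt_id h
  have hks : HasCompactSupport k := by
    refine HasCompactSupport.of_support_subset_isCompact (isCompact_Icc (a := a) (b := b)) ?_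
    intro x hx
    rw [Function.mem_support] at hx
    by_contra hne
    apply hx
    rw [mem_Icc, not_and_or, not_le, not_le] at hne
    rcases hne with h | h
    · simp only [hk, h1 x h.le, zero_div]
    · simp only [hk, h2 x h.le, zero_div]
  have m1 := Pool.Agent.H4.mertens_one hkc hks
  obtain ⟨H, hH⟩ := hkc.bounded_above_of_compact_support hks
  have hH0 : 0 ≤ H := (norm_nonneg _).trans (hH 0)
  have hsn := Pool.Agent.H4.summable_nonprime
  set D := ∑' n : ℕ, (if n.Prime then 0 else vonMangoldt n) / (n : ℝ) with hD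
  have hterm0 : ∀ n : ℕ, 0 ≤ (if n.Prime then 0 else vonMangoldt n) / (n : ℝ) := by
    intro n
    split_ifs
    · simp
    · exact div_nonneg vonMangoldt_nonneg (Nat.cast_nonneg n)
  have hlog := Real.tendsto_log_atTop
  have m2 := m1.comp hlog
  have hD0 : Tendsto (fun T : ℝ => H * D / Real.log T) atTop (𝓝 0) :=
    tendsto_const_nhds.div_atTop hlog
  have key : Tendsto (fun T : ℝ => (∑ p ∈ (Finset.range (⌊T⌋₊ + 1)).filter Nat.Prime,
      g (Real.log p / Real.log T) / p) -
      (1 / Real.log T) * ∑' n : ℕ, vonMangoldt n / n * k (Real.log n / Real.log T)) atTop (𝓝 0) := by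
    refine squeeze_zero_norm' ?_ hD0
    filter_upwards [eventually_gt_atTop 1] with T hT
    have hL : 0 < Real.log T := Real.log_pos hT
    set L := Real.log T with hLdef
    have s1 : Summable fun n : ℕ => (if n.Prime then 0 else vonMangoldt n) / (n : ℝ) * k (Real.log n / L) := by
      refine Summable.of_norm_bounded (hsn.mul_right H) fun n => ?_
      rw [norm_mul, Real.norm_of_nonneg (hterm0 n)]
      exact mul_le_mul_of_nonneg_left (hH _) (hterm0 n)
    have hz : ∀ n : ℕ, n ∉ (Finset.range (⌊T⌋₊ + 1)).filter Nat.Prime →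
        (if n.Prime then g (Real.log n / L) / n else 0) = 0 := by
      intro n hn
      split_ifs with hp
      · rw [Finset.mem_filter, not_and_or] at hn
        rcases hn with hn | hn
        · rw [Finset.mem_range, not_lt] at hn
          have hTn : T < n := by
            have e1 := Nat.lt_floor_add_one T
            have e2 : ((⌊T⌋₊ + 1 : ℕ) : ℝ) ≤ n := by exact_mod_cast hn
            push_cast at e2
            linarith
          have e3 : L ≤ Real.log n := Real.log_le_log (by linarith) hTn.le
          have e4 : 1 ≤ Real.log n / L := by rwa [le_div_iff₀ hL, one_mul]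
          rw [h2 _ (hb.trans e4), zero_div]
        · exact absurd hp hn
      · rfl
    have s2 : Summable fun n : ℕ => (if n.Prime then g (Real.log n / L) / n else 0) :=
      summable_of_ne_finset_zero (s := (Finset.range (⌊T⌋₊ + 1)).filter Nat.Prime) hz
    have e1 : (∑ p ∈ (Finset.range (⌊T⌋₊ + 1)).filter Nat.Prime, g (Real.log p / L) / p) =
        ∑' n : ℕ, (if n.Prime then g (Real.log n / L) / n else 0) := by
      rw [tsum_eq_sum hz]
      refine Finset.sum_congr rfl fun p hp => ?_
      rw [Finset.mem_filter] at hp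
      rw [if_pos hp.2]
    have e2 : (1 / L) * ∑' n : ℕ, vonMangoldt n / n * k (Real.log n / L) =
        (∑' n : ℕ, (if n.Prime then g (Real.log n / L) / n else 0)) +
        (1 / L) * ∑' n : ℕ, (if n.Prime then 0 else vonMangoldt n) / (n : ℝ) * k (Real.log n / L) := by
      rw [← tsum_mul_left, ← tsum_mul_left, ← s2.tsum_add (s1.mul_left (1 / L))]
      refine tsum_congr fun n => ?_
      by_cases hp : n.Prime
      · rw [if_pos hp, if_pos hp, vonMangoldt_apply_prime hp]
        have hn1 : (1 : ℝ) < n := by exact_mod_cast hp.one_lt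
        have hln : 0 < Real.log n := Real.log_pos hn1
        have hn0 : (n : ℝ) ≠ 0 := by positivity
        simp only [hk]
        field_simp
        ring
      · rw [if_neg hp, if_neg hp, zero_add]
    rw [e1, e2, sub_add_cancel_left, norm_neg, norm_mul, Real.norm_of_nonneg (by positivity : (0 : ℝ) ≤ 1 / L)]
    have e3 : ‖∑' n : ℕ, (if n.Prime then 0 else vonMangoldt n) / (n : ℝ) * k (Real.log n / L)‖ ≤ D * H := by
      refine tsum_of_norm_bounded (hsn.hasSum.mul_right H) fun n => ?_
      rw [norm_mul, Real.norm_of_nonneg (hterm0 n)]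
      exact mul_le_mul_of_nonneg_left (hH _) (hterm0 n)
    calc 1 / L * ‖∑' n : ℕ, (if n.Prime then 0 else vonMangoldt n) / (n : ℝ) * k (Real.log n / L)‖
        ≤ 1 / L * (D * H) := mul_le_mul_of_nonneg_left e3 (by positivity)
      _ = H * D / L := by ring
  have h4 := key.add m2
  simp only [zero_add, Function.comp_apply, sub_add_cancel] at h4
  exact h4

end Pool.Agent.H14.GP
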