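import Mathlib
import Pool.Agent.H14.GP.Vd
import Pool.Agent.H14.GP.Vf
import Pool.Agent.H14.GP.Vg
import Pool.Agent.H14.GP.Vh

/-!
# Row Vj (260 lines): limits of the diagonal inner products (cells)

For `α, β : ℕ → ℕ` (exponents, only `j < M` matters) put `X_α = ∏_{j<M} bb(G_j)^{α_j}`.
`J1`: `ip X_α X_β → ∏_{j<M} [α_j = β_j] α_j! s_j^{α_j}`, `s_j = sM M j`.
`J2`: for `H` continuous, `H x = 0` for `x ≥ b'` (`b' ≤ 1`): `ip (bb H * X_α) X_β → ∑_{i<M} [β_i = α_i + 1] (α_i+1)! κ_i s_i^{α_i} ∏_{j<M, j≠i} [α_j=β_j] α_j! s_j^{α_j}`,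
`κ_i = ∫_{x>0} G_i(x) H(x)/x dx`.
PROOF. Let `P_j(T)` be the set of primes `p ≤ T` with `G_j(log p/log T) ≠ 0`. For `j ≠ j'` these are disjoint (`Cells.cell`: the cells are disjoint intervals, for
`1 ≤ j, j' < M`; for `j = 0` or `j ≥ M` `G_j = 0`, `P_j = ∅`). `bb (G j) T = pr (P_j) x_j` with `x_j(p) = G_j(u_p) p^{-1/2}` (terms with `G_j(u_p) = 0` vanish).
`∑_{P_j} x_j^2 = ∑_{p≤T} G_j(u_p)^2/p → ∫ G_j^2/x = 1/j = s_j` by `mertens_primes` (`g = G_j^2`, continuous, zero for `x ≤ a` and `x ≥ 1/2`) and `Cells.norm`;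
for `j = 0`, `j ≥ M` everything is `0`. `x_j(p)^2 ≤ B^2/p ≤ B^2 T^{-a} =: ε(T) → 0` as `p ≥ T^a` on the support (`G_j` is bounded: continuous with compact support).
J1: `ip_prod` (sets `P_j`) and `one_cell`, product of limits (`tendsto_finset_prod`).
J2: `bb H = ∑_{i<M} pr(P_i, y) + Z`, `y(p) = H(u_p) p^{-1/2}`, `Z` supported on primes outside `⋃_{i<M} P_i`; `ip_rest` kills `Z`; for each `i`:
`pr(P_i,y) X_α = (pr(P_i,y) bb(G_i)^{α_i}) ∏_{j≠i} bb(G_j)^{α_j}`, `ip_prod` again and `one_cell_ins`: `∑_{P_i} y x_i = ∑_p H(u_p) G_i(u_p)/p → κ_i` (`mertens_primes`, `g = H G_i`),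
`|y x_i| ≤ B B' T^{-a}` (`H` bounded on `[a,1]`), `∑|y x_i|` bounded (it converges, by `mertens_primes` for `|H| G_i`).
-/

open MeasureTheory Set Filter Topology
open scoped Real BigOperators

namespace Pool.Agent.H14.GP

/-- one-cell moment -/
noncomputable def m1 (s : ℝ) (a b : ℕ) : ℝ := if a = b then (a.factorial : ℝ) * s ^ a else 0

private theorem vj_log_pos : ∀ᶠ T : ℝ in atTop, 1 < T ∧ 0 < Real.log T := by
  filter_upwards [eventually_gt_atTop 1] with T hT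
  exact ⟨hT, Real.log_pos hT⟩

open Classical in
/-- primes `p ≤ T` in the cell `j` -/
private noncomputable def PT (G : ℕ → ℝ → ℝ) (j : ℕ) (T : ℝ) : Finset ℕ :=
  ((Finset.range (⌊T⌋₊ + 1)).filter Nat.Prime).filter
    (fun p : ℕ => G j (Real.log p / Real.log T) ≠ 0)

/-- coefficients of the prime sum -/
private noncomputable def xT (H : ℝ → ℝ) (T : ℝ) (p : ℕ) : ℝ :=
  H (Real.log p / Real.log T) * (p : ℝ) ^ (-(1 / 2) : ℝ)

private theorem mem_PT {G : ℕ → ℝ → ℝ} {j : ℕ} {T : ℝ} {p : ℕ} : p ∈ PT G j T ↔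
    p ∈ (Finset.range (⌊T⌋₊ + 1)).filter Nat.Prime ∧ G j (Real.log p / Real.log T) ≠ 0 := by
  classical
  unfold PT
  rw [Finset.mem_filter]

private theorem prime_PT {G : ℕ → ℝ → ℝ} {j : ℕ} {T : ℝ} : ∀ p ∈ PT G j T, p.Prime := by
  intro p hp
  exact (Finset.mem_filter.1 (mem_PT.1 hp).1).2

private theorem sum_PT {A : Type*} [AddCommMonoid A] {G : ℕ → ℝ → ℝ} {j : ℕ} {T : ℝ} (f : ℕ → A)
    (h : ∀ p : ℕ, G j (Real.log p / Real.log T) = 0 → f p = 0) :
    ∑ p ∈ PT G j T, f p = ∑ p ∈ (Finset.range (⌊T⌋₊ + 1)).filter Nat.Prime, f p := by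
  classical
  unfold PT
  refine Finset.sum_filter_of_ne ?_
  intro p _ hp h0
  exact hp (h p h0)

private theorem bb_eq_pr (G : ℕ → ℝ → ℝ) (j : ℕ) (T : ℝ) : bb (G j) T = pr (PT G j T) (xT (G j) T) := by
  unfold bb pr
  rw [sum_PT]
  · rfl
  · intro p hp
    unfold xT
    rw [hp, zero_mul]
    exact MonoidAlgebra.single_zero _

private theorem mul_xT (H K : ℝ → ℝ) (T : ℝ) {p : ℕ} (hp : p.Prime) : xT H T p * xT K T p =
    H (Real.log p / Real.log T) * K (Real.log p / Real.log T) / p := by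
  have hp0 : (0 : ℝ) < p := by exact_mod_cast hp.pos
  have h1 : (p : ℝ) ^ (-(1 / 2) : ℝ) * (p : ℝ) ^ (-(1 / 2) : ℝ) = (p : ℝ)⁻¹ := by
    rw [← Real.rpow_add hp0]
    norm_num
    exact Real.rpow_neg_one _
  unfold xT
  rw [div_eq_mul_inv _ (p : ℝ), ← h1]
  ring

private theorem on_pr {G : ℕ → ℝ → ℝ} {j : ℕ} {T : ℝ} (y : ℕ → ℝ) :
    On (PT G j T : Set ℕ) (pr (PT G j T) y) := by
  unfold pr
  exact On.sum _ fun p hp => on_single (prime_PT p hp) hp _

private theorem on_bb (G : ℕ → ℝ → ℝ) (j : ℕ) (T : ℝ) : On (PT G j T : Set ℕ) (bb (G j) T) := by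
  rw [bb_eq_pr]
  exact on_pr _

private theorem disj_PT {M : ℕ} {θ : ℝ} {G : ℕ → ℝ → ℝ} (hG : Cells M θ G) {T : ℝ} {i j : ℕ} (hij : i ≠ j) :
    Disjoint (PT G i T : Set ℕ) (PT G j T : Set ℕ) := by
  have hM : (0 : ℝ) < M := by
    have := hG.M_pos
    exact_mod_cast (by omega : 0 < M)
  have key : ∀ i j : ℕ, i < j → ∀ x : ℝ, G i x ≠ 0 → G j x ≠ 0 → False := by
    intro i j h x h1 h2
    have h3 := (hG.cell i x h1).2
    have h4 := (hG.cell j x h2).1
    have h5 : (i : ℝ) ≤ (j : ℝ) - 1 := by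
      have : (i : ℝ) + 1 ≤ j := by exact_mod_cast h
      linarith
    have h6 : θ * (i : ℝ) / M ≤ θ * ((j : ℝ) - 1) / M :=
      div_le_div_of_nonneg_right (mul_le_mul_of_nonneg_left h5 hG.θ_pos.le) hM.le
    linarith
  rw [Set.disjoint_left]
  intro p hp hq
  have h1 := (mem_PT.1 (Finset.mem_coe.1 hp)).2
  have h2 := (mem_PT.1 (Finset.mem_coe.1 hq)).2
  rcases lt_or_gt_of_ne hij with h | h
  · exact key i j h _ h1 h2
  · exact key j i h _ h2 h1

private theorem G_high {M : ℕ} {θ : ℝ} {G : ℕ → ℝ → ℝ} (hG : Cells M θ G) (j : ℕ) {x : ℝ}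
    (hx : 1 / 2 ≤ x) : G j x = 0 := by
  have hM : (0 : ℝ) < M := by
    have := hG.M_pos
    exact_mod_cast (by omega : 0 < M)
  by_contra h
  have hj : j < M := by
    by_contra hj
    exact h (hG.out j (Or.inr (not_lt.1 hj)) x)
  have h1 := (hG.cell j x h).2
  have h2 : (j : ℝ) ≤ M := by exact_mod_cast hj.le
  have h3 : θ * (j : ℝ) / M ≤ θ := by
    rw [div_le_iff₀ hM]
    exact mul_le_mul_of_nonneg_left h2 hG.θ_pos.le
  have h4 := hG.θ_lt
  linarith

private theorem cont_G {M : ℕ} {θ : ℝ} {G : ℕ → ℝ → ℝ} (hG : Cells M θ G) (j : ℕ) : Continuous (G j) :=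
  (hG.smooth j).continuous

/-- Mertens sums over a cell. -/
private theorem mert_PT {M : ℕ} {θ : ℝ} {G : ℕ → ℝ → ℝ} (hG : Cells M θ G) (j : ℕ) {g : ℝ → ℝ}
    (hg : Continuous g) (h0 : ∀ x, G j x = 0 → g x = 0) :
    Tendsto (fun T : ℝ => ∑ p ∈ PT G j T, g (Real.log p / Real.log T) / p) atTop
      (𝓝 (∫ x in Ioi (0 : ℝ), g x / x)) := by
  obtain ⟨a, ha, hlow⟩ := hG.low
  have h1 := mertens_primes hg ha (b := 1 / 2) (by norm_num) (fun x hx => h0 x (hlow j x hx))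
    (fun x hx => h0 x (G_high hG j hx))
  refine h1.congr fun T => ?_
  rw [sum_PT]
  intro p hp
  rw [h0 _ hp, zero_div]

/-- Terms of a Mertens sum over a cell are small. -/
private theorem small_PT {M : ℕ} {θ : ℝ} {G : ℕ → ℝ → ℝ} (hG : Cells M θ G) (j : ℕ) {g : ℝ → ℝ}
    (hg : Continuous g) (h0 : ∀ x, G j x = 0 → g x = 0) :
    ∃ ε : ℝ → ℝ, Tendsto ε atTop (𝓝 0) ∧
      ∀ᶠ T : ℝ in atTop, ∀ p ∈ PT G j T, |g (Real.log p / Real.log T) / p| ≤ ε T := by
  obtain ⟨a, ha, hlow⟩ := hG.low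
  have hcs : HasCompactSupport g := by
    refine HasCompactSupport.intro (isCompact_Icc (a := a) (b := (1 / 2 : ℝ))) ?_
    intro x hx
    rw [Set.mem_Icc, not_and_or, not_le, not_le] at hx
    rcases hx with hx | hx
    · exact h0 x (hlow j x hx.le)
    · exact h0 x (G_high hG j hx.le)
  obtain ⟨B, hB⟩ := hg.bounded_above_of_compact_support hcs
  have hB0 : 0 ≤ B := (norm_nonneg _).trans (hB 0)
  refine ⟨fun T => B * T ^ (-a), ?_, ?_⟩
  · have := (tendsto_rpow_neg_atTop ha).const_mul B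
    rwa [mul_zero] at this
  · filter_upwards [vj_log_pos] with T hT p hp
    obtain ⟨hT1, hlT⟩ := hT
    have hpp := prime_PT p hp
    have hp0 : (0 : ℝ) < p := by exact_mod_cast hpp.pos
    have h1 := (mem_PT.1 hp).2
    have h2 : a < Real.log p / Real.log T := by
      by_contra h
      exact h1 (hlow j _ (not_lt.1 h))
    have h3 : a * Real.log T < Real.log p := (lt_div_iff₀ hlT).1 h2
    have h4 : T ^ a ≤ (p : ℝ) := by
      rw [Real.rpow_def_of_pos (by linarith), mul_comm, ← Real.le_log_iff_exp_le hp0]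
      exact h3.le
    have h5 : (0 : ℝ) < T ^ a := Real.rpow_pos_of_pos (by linarith) a
    rw [abs_div, abs_of_pos hp0, div_eq_mul_inv, Real.rpow_neg (by linarith)]
    have h6 : |g (Real.log p / Real.log T)| ≤ B := hB _
    exact mul_le_mul h6 (inv_anti₀ h5 h4) (inv_nonneg.2 hp0.le) hB0

private theorem var_PT {M : ℕ} {θ : ℝ} {G : ℕ → ℝ → ℝ} (hG : Cells M θ G) (j : ℕ) :
    ∫ x in Ioi (0 : ℝ), G j x ^ 2 / x = sM M j := by
  unfold sM
  split_ifs with h
  · exact hG.norm j h.1 h.2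
  · have h1 : ∀ x, G j x = 0 := hG.out j (by omega)
    simp [h1]

private theorem sq_lim {M : ℕ} {θ : ℝ} {G : ℕ → ℝ → ℝ} (hG : Cells M θ G) (j : ℕ) :
    Tendsto (fun T : ℝ => ∑ p ∈ PT G j T, xT (G j) T p ^ 2) atTop (𝓝 (sM M j)) := by
  have h1 := mert_PT hG j (g := fun x => G j x ^ 2) ((cont_G hG j).pow 2)
    (fun x hx => by simp [hx])
  rw [var_PT hG j] at h1
  refine h1.congr fun T => Finset.sum_congr rfl fun p hp => ?_
  rw [sq (xT (G j) T p), mul_xT _ _ _ (prime_PT p hp), sq]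

private theorem sq_small {M : ℕ} {θ : ℝ} {G : ℕ → ℝ → ℝ} (hG : Cells M θ G) (j : ℕ) :
    ∃ ε : ℝ → ℝ, Tendsto ε atTop (𝓝 0) ∧
      ∀ᶠ T : ℝ in atTop, ∀ p ∈ PT G j T, xT (G j) T p ^ 2 ≤ ε T := by
  obtain ⟨ε, hε, h⟩ := small_PT hG j (g := fun x => G j x ^ 2) ((cont_G hG j).pow 2)
    (fun x hx => by simp [hx])
  refine ⟨ε, hε, ?_⟩
  filter_upwards [h] with T hT p hp
  rw [sq (xT (G j) T p), mul_xT _ _ _ (prime_PT p hp), ← sq]
  exact (le_abs_self _).trans (hT p hp)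

private theorem cell_lim {M : ℕ} {θ : ℝ} {G : ℕ → ℝ → ℝ} (hG : Cells M θ G) (j a b : ℕ) :
    Tendsto (fun T => ip (bb (G j) T ^ a) (bb (G j) T ^ b)) atTop (𝓝 (m1 (sM M j) a b)) := by
  obtain ⟨ε, hε, h⟩ := sq_small hG j
  have h1 := one_cell (P := PT G j) (fun T => prime_PT) (x := xT (G j)) hε h (sq_lim hG j) a b
  refine h1.congr fun T => ?_
  rw [← bb_eq_pr]

theorem J1 {M : ℕ} {θ : ℝ} {G : ℕ → ℝ → ℝ} (hG : Cells M θ G) (α β : ℕ → ℕ) :
    Tendsto (fun T => ip (∏ j ∈ Finset.range M, bb (G j) T ^ α j) (∏ j ∈ Finset.range M, bb (G j) T ^ β j)) atTop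
      (𝓝 (∏ j ∈ Finset.range M, m1 (sM M j) (α j) (β j))) := by
  have h : ∀ T, ip (∏ j ∈ Finset.range M, bb (G j) T ^ α j) (∏ j ∈ Finset.range M, bb (G j) T ^ β j)
      = ∏ j ∈ Finset.range M, ip (bb (G j) T ^ α j) (bb (G j) T ^ β j) := fun T =>
    ip_prod (Finset.range M) (P := fun j => (PT G j T : Set ℕ))
      (fun i _ j _ hij => disj_PT hG hij) (fun i _ => (on_bb G i T).pow _)
      (fun i _ => (on_bb G i T).pow _)
  simp_rw [h]
  exact tendsto_finsetProd _ fun j _ => cell_lim hG j _ _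

private theorem ins_lim {M : ℕ} {θ : ℝ} {G : ℕ → ℝ → ℝ} (hG : Cells M θ G) {H : ℝ → ℝ} (hH : Continuous H)
    (i a b : ℕ) :
    Tendsto (fun T => ip (pr (PT G i T) (xT H T) * bb (G i) T ^ a) (bb (G i) T ^ b)) atTop
      (𝓝 (if b = a + 1 then ((a + 1).factorial : ℝ) * (∫ x in Ioi (0 : ℝ), G i x * H x / x) *
        sM M i ^ a else 0)) := by
  obtain ⟨ε₁, hε₁, h1⟩ := sq_small hG i
  have hc : Continuous (fun x => G i x * H x) := (cont_G hG i).mul hH
  have hz : ∀ x, G i x = 0 → G i x * H x = 0 := fun x hx => by rw [hx, zero_mul]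
  obtain ⟨ε₂, hε₂, h2⟩ := small_PT hG i hc hz
  have h3 := mert_PT hG i hc hz
  have h4 := mert_PT hG i (g := fun x => |G i x * H x|) hc.abs (fun x hx => by rw [hz x hx, abs_zero])
  have hmul : ∀ T : ℝ, ∀ p ∈ PT G i T, xT H T p * xT (G i) T p =
      G i (Real.log p / Real.log T) * H (Real.log p / Real.log T) / p := by
    intro T p hp
    rw [mul_xT _ _ _ (prime_PT p hp)]
    ring
  have h5 := one_cell_ins (P := PT G i) (fun T => prime_PT) (x := xT (G i)) (y := xT H)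
    (s := sM M i) (κ := ∫ x in Ioi (0 : ℝ), G i x * H x / x)
    (U := (∫ x in Ioi (0 : ℝ), |G i x * H x| / x) + 1) (ε := fun T => max (ε₁ T) (ε₂ T))
    (by
      have := hε₁.max hε₂
      rwa [max_self] at this)
    (by
      filter_upwards [h1] with T hT p hp
      exact (hT p hp).trans (le_max_left _ _))
    (sq_lim hG i)
    (by
      filter_upwards [h2] with T hT p hp
      rw [hmul T p hp]
      exact (hT p hp).trans (le_max_right _ _))
    (by
      have h6 := h4.eventually (gt_mem_nhds (lt_add_one (∫ x in Ioi (0 : ℝ), |G i x * H x| / x)))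
      filter_upwards [h6] with T hT
      refine le_trans (le_of_eq ?_) hT.le
      refine Finset.sum_congr rfl fun p hp => ?_
      have hp0 : (0 : ℝ) < p := by exact_mod_cast (prime_PT p hp).pos
      rw [hmul T p hp, abs_div, abs_of_pos hp0])
    (by
      refine h3.congr fun T => Finset.sum_congr rfl fun p hp => ?_
      rw [hmul T p hp])
    a b
  refine h5.congr fun T => ?_
  rw [← bb_eq_pr]

/-- splitting of a prime sum over the cells -/
private theorem bb_split {M : ℕ} {θ : ℝ} {G : ℕ → ℝ → ℝ} (hG : Cells M θ G) (H : ℝ → ℝ) (T : ℝ) :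
    ∃ Z : DPoly, bb H T = (∑ i ∈ Finset.range M, pr (PT G i T) (xT H T)) + Z ∧
      ∀ n, Z.coeff n ≠ 0 → ∃ p, p.Prime ∧ p ∣ n ∧ p ∉ (⋃ i ∈ Finset.range M, (PT G i T : Set ℕ)) := by
  classical
  have hU : (Finset.range M).biUnion (fun i => PT G i T) =
      ((Finset.range (⌊T⌋₊ + 1)).filter Nat.Prime).filter
        (fun p : ℕ => ∃ i ∈ Finset.range M, G i (Real.log p / Real.log T) ≠ 0) := by
    ext p
    rw [Finset.mem_biUnion, Finset.mem_filter]
    constructor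
    · rintro ⟨i, hi, hp⟩
      exact ⟨(mem_PT.1 hp).1, i, hi, (mem_PT.1 hp).2⟩
    · rintro ⟨h1, i, hi, h2⟩
      exact ⟨i, hi, mem_PT.2 ⟨h1, h2⟩⟩
  refine ⟨pr (((Finset.range (⌊T⌋₊ + 1)).filter Nat.Prime).filter
        (fun p : ℕ => ¬ ∃ i ∈ Finset.range M, G i (Real.log p / Real.log T) ≠ 0)) (xT H T), ?_, ?_⟩
  · unfold pr
    rw [← Finset.sum_biUnion, hU, Finset.sum_filter_add_sum_filter_not]
    · rfl
    · intro i _ j _ hij
      exact Finset.disjoint_coe.1 (disj_PT hG hij)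
  · intro n hn
    refine ⟨n, ?_⟩
    have h1 : n ∈ ((Finset.range (⌊T⌋₊ + 1)).filter Nat.Prime).filter
        (fun p : ℕ => ¬ ∃ i ∈ Finset.range M, G i (Real.log p / Real.log T) ≠ 0) := by
      by_contra h
      apply hn
      unfold pr
      rw [MonoidAlgebra.coeff_sum, Finset.sum_apply']
      refine Finset.sum_eq_zero fun p hp => ?_
      rw [MonoidAlgebra.coeff_single, Finsupp.single_apply, if_neg]
      rintro rfl
      exact h hp
    rw [Finset.mem_filter, Finset.mem_filter] at h1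
    refine ⟨h1.1.2, dvd_rfl, ?_⟩
    intro h2
    rw [Set.mem_iUnion₂] at h2
    obtain ⟨i, hi, h3⟩ := h2
    exact h1.2 ⟨i, hi, (mem_PT.1 (Finset.mem_coe.1 h3)).2⟩

theorem J2 {M : ℕ} {θ : ℝ} {G : ℕ → ℝ → ℝ} (hG : Cells M θ G) {H : ℝ → ℝ} (hH : Continuous H) {b : ℝ} (hb : b ≤ 1)
    (hHb : ∀ x, b ≤ x → H x = 0) (α β : ℕ → ℕ) :
    Tendsto (fun T => ip (bb H T * ∏ j ∈ Finset.range M, bb (G j) T ^ α j) (∏ j ∈ Finset.range M, bb (G j) T ^ β j)) atTop
      (𝓝 (∑ i ∈ Finset.range M, (if β i = α i + 1 then ((α i + 1).factorial : ℝ) * (∫ x in Ioi (0 : ℝ), G i x * H x / x) * sM M i ^ α i else 0)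
        * ∏ j ∈ (Finset.range M).erase i, m1 (sM M j) (α j) (β j))) := by
  have key : ∀ T, ip (bb H T * ∏ j ∈ Finset.range M, bb (G j) T ^ α j)
      (∏ j ∈ Finset.range M, bb (G j) T ^ β j) = ∑ i ∈ Finset.range M,
        ip (pr (PT G i T) (xT H T) * bb (G i) T ^ α i) (bb (G i) T ^ β i) *
          ∏ j ∈ (Finset.range M).erase i, ip (bb (G j) T ^ α j) (bb (G j) T ^ β j) := by
    intro T
    obtain ⟨Z, hZ, hZ0⟩ := bb_split hG H T
    have hsub : ∀ j ∈ Finset.range M, (PT G j T : Set ℕ) ⊆ ⋃ i ∈ Finset.range M, (PT G i T : Set ℕ) :=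
      fun j hj => Set.subset_biUnion_of_mem (u := fun i => (PT G i T : Set ℕ)) hj
    rw [hZ, add_mul, ip_add_left, ip_rest hZ0 (On.prod _ fun j hj => ((on_bb G j T).mono
      (hsub j hj)).pow _), add_zero, Finset.sum_mul, ip_sum_left]
    refine Finset.sum_congr rfl fun i hi => ?_
    have hprod : ∀ γ : ℕ → ℕ, ∏ j ∈ Finset.range M, bb (G j) T ^ γ j =
        bb (G i) T ^ γ i * ∏ j ∈ (Finset.range M).erase i, bb (G j) T ^ γ j := fun γ =>
      (Finset.mul_prod_erase _ (fun j => bb (G j) T ^ γ j) hi).symm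
    have hon : ∀ γ : ℕ → ℕ, On (⋃ j ∈ (Finset.range M).erase i, (PT G j T : Set ℕ))
        (∏ j ∈ (Finset.range M).erase i, bb (G j) T ^ γ j) := fun γ =>
      On.prod _ fun j hj => ((on_bb G j T).mono
        (Set.subset_biUnion_of_mem (u := fun i => (PT G i T : Set ℕ)) hj)).pow _
    have hdis : Disjoint (PT G i T : Set ℕ) (⋃ j ∈ (Finset.range M).erase i, (PT G j T : Set ℕ)) := by
      rw [Set.disjoint_iUnion₂_right]
      intro j hj
      exact disj_PT hG (Finset.ne_of_mem_erase hj).symm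
    rw [hprod α, hprod β, ← mul_assoc, ip_mul hdis ((on_pr _).mul ((on_bb G i T).pow _))
      ((on_bb G i T).pow _) (hon α) (hon β)]
    congr 1
    exact ip_prod _ (P := fun j => (PT G j T : Set ℕ)) (fun i _ j _ hij => disj_PT hG hij)
      (fun i _ => (on_bb G i T).pow _) (fun i _ => (on_bb G i T).pow _)
  simp_rw [key]
  refine tendsto_finsetSum _ fun i _ => ?_
  exact (ins_lim hG hH i (α i) (β i)).mul (tendsto_finsetProd _ fun j _ => cell_lim hG j _ _)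

end Pool.Agent.H14.GP
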