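import Mathlib
import Pool.Agent.H14.GP.Vb
import Pool.Agent.H14.GP.Vj

/-!
# Row Vk (260 lines): transfer to the Gaussian functional

`transfer`: `P : PP` with weighted bidegree `≤ 2(M-1)`: `E_T[P(Y, Ȳ)] → (∫v) EG (sM M) P`.
`transferD`: `E_T[P(Y, Ȳ) · bb(H)(t)] → (∫v) EG (sM M) (DK M κ P)`, `κ_i = ∫ G_i H/x`, for `H` continuous, bounded, zero on `x ≥ b`, `b ≤ 1`.
PROOF. Both sides are linear in `P`; write `P = ∑_{m ∈ support} coeff m • monomial m 1` (`MvPolynomial.as_sum`), so it is enough to treat one monomial `m` with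
`∑ j m(inl j) ≤ 2(M-1)`, `∑ j m(inr j) ≤ 2(M-1)`.
* If `m(inl j) ≥ 1` or `m(inr j) ≥ 1` for some `j` outside `[1, M)`: then `Y_j = 0` (`G_j = 0`, so `bb (G j) T = 0`) and the left side is `0`; the right side: `mval = 0`
  because the factor `s_j^{e}` with `s_j = 0`, `e ≥ 1` occurs (or `m(inl j) ≠ m(inr j)`); for `transferD` every `pderiv (inr i)`, `i < M`, keeps such a variable, unless `j = i = 0`,
  where `κ_0 = 0`, as `G_0 = 0`.
* Otherwise `evP G T t (monomial m 1) = ev t (X_α) · conj (ev t X_β)` with `α_j = m(inl j)`, `β_j = m(inr j)`, `X_α = ∏_{j<M} bb(G_j)^{α_j}` (aeval of a monomial, `map_prod`, `map_pow`).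
  `X_β` is supported on `n ≤ T^{θ ∑ j β_j/M} ≤ T^{2θ(M-1)/M} ≤ T^{2θ} = T^{1-δ}`, `δ = 1 - 2θ > 0` (`bb_supp` with `b = θ j/M`, `SuppLe.pow`, `SuppLe.prod`), and
  `l1 (X_α) ≤ ∏ (B(T+1))^{α_j}` is at most a power of `T`. `mv` with `K` larger than all these powers gives
  `E_T[...] - (∫v) ip X_α X_β → 0`, and `J1` gives the limit `∏ m1 = mval (sM M) m`.
  For `transferD` the same with `X = bb H * X_α`, `X' = X_β` (no condition on the support of `X`), `J2`, and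
  `EG (DK M κ (monomial m 1)) = ∑_{i<M} κ_i m(inr i) mval (m - single (inr i) 1)` (`MvPolynomial.pderiv_monomial`), which is the limit in `J2`
  (`β_i (β_i - 1)! = β_i!`, with `β_i = α_i + 1`).
-/

open MeasureTheory Set Filter Topology
open scoped Real BigOperators ComplexConjugate

namespace Pool.Agent.H14.GP

/-! ### analysis -/

private lemma Vk_cont (G : ℕ → ℝ → ℝ) (T : ℝ) (Q : PP) : Continuous (fun t => evP G T t Q) := by
  unfold evP
  simp only [MvPolynomial.aeval_def, MvPolynomial.eval₂_eq]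
  refine continuous_finsetSum _ fun d _ => continuous_const.mul (continuous_finsetProd _ fun i _ => ?_)
  refine Continuous.pow ?_ _
  rcases i with j | j
  · exact continuous_ev _
  · exact Complex.continuous_conj.comp (continuous_ev _)

private lemma Vk_int {v : ℝ → ℝ} (hv : Wgt v) {T : ℝ} (hT : 0 < T) {f : ℝ → ℂ} (hf : Continuous f) :
    Integrable (fun t => (v (t / T) : ℂ) * f t) := by
  obtain ⟨a, b, ha, hab, hs⟩ := hv.supp
  have hc : Continuous (fun t => (v (t / T) : ℂ) * f t) :=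
    (Complex.continuous_ofReal.comp (hv.continuous.comp (continuous_id.div_const T))).mul hf
  refine hc.integrable_of_hasCompactSupport (HasCompactSupport.intro
    (isCompact_Icc (a := a * T) (b := b * T)) fun t ht => ?_)
  have h0 : v (t / T) = 0 := by
    apply hs
    intro h
    apply ht
    rw [mem_Icc] at h ⊢
    rw [le_div_iff₀ hT, div_le_iff₀ hT] at h
    exact h
  rw [h0, Complex.ofReal_zero, zero_mul]

private lemma Vk_sum {v : ℝ → ℝ} (hv : Wgt v) {T : ℝ} (hT : 0 < T) {ι : Type*} (s : Finset ι)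
    (c : ι → ℂ) (f : ι → ℝ → ℂ) (hf : ∀ i ∈ s, Continuous (f i)) :
    EC v T (fun t => ∑ i ∈ s, c i * f i t) = ∑ i ∈ s, c i * EC v T (f i) := by
  unfold EC
  have h : ∀ t, (v (t / T) : ℂ) * ∑ i ∈ s, c i * f i t =
      ∑ i ∈ s, c i * ((v (t / T) : ℂ) * f i t) := by
    intro t
    rw [Finset.mul_sum]
    exact Finset.sum_congr rfl fun i _ => by ring
  simp only [h]
  rw [MeasureTheory.integral_finsetSum _ (fun i hi => (Vk_int hv hT (hf i hi)).const_mul _),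
    Finset.mul_sum]
  refine Finset.sum_congr rfl fun i _ => ?_
  rw [MeasureTheory.integral_const_mul]
  ring

private lemma Vk_B {M : ℕ} {θ : ℝ} {G : ℕ → ℝ → ℝ} (hG : Cells M θ G) (j : ℕ) :
    ∃ B, 0 ≤ B ∧ ∀ x, |G j x| ≤ B := by
  obtain ⟨a, ha, hlow⟩ := hG.low
  have hcs : HasCompactSupport (G j) := by
    refine HasCompactSupport.intro (isCompact_Icc (a := a) (b := θ * j / M)) fun x hx => ?_
    by_contra h
    apply hx
    refine ⟨?_, (hG.cell j x h).2.le⟩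
    by_contra h2
    exact h (hlow j x (not_le.1 h2).le)
  obtain ⟨B, hB⟩ := (hG.smooth j).continuous.bounded_above_of_compact_support hcs
  exact ⟨max B 0, le_max_right _ _, fun x => (hB x).trans (le_max_left _ _)⟩

/-- the product of powers of the prime sums -/
private noncomputable def VkX (M : ℕ) (G : ℕ → ℝ → ℝ) (T : ℝ) (α : ℕ → ℕ) : DPoly :=
  ∏ j ∈ Finset.range M, bb (G j) T ^ α j

private lemma Vk_l1 {M : ℕ} {θ : ℝ} {G : ℕ → ℝ → ℝ} (hG : Cells M θ G) (α : ℕ → ℕ) :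
    ∃ C : ℝ, 0 ≤ C ∧ ∃ K : ℕ, ∀ T : ℝ, 1 ≤ T → l1 (VkX M G T α) ≤ C * T ^ K := by
  choose B hB0 hB using fun j => Vk_B hG j
  refine ⟨∏ j ∈ Finset.range M, (2 * B j) ^ α j,
    Finset.prod_nonneg fun j _ => pow_nonneg (mul_nonneg (by norm_num) (hB0 j)) _,
    ∑ j ∈ Finset.range M, α j, fun T hT => ?_⟩
  have hT0 : 0 ≤ T := by linarith
  refine (l1_prod_le _ _).trans ?_
  rw [← Finset.prod_pow_eq_pow_sum, ← Finset.prod_mul_distrib]
  refine Finset.prod_le_prod (fun j _ => l1_nonneg _) fun j _ => ?_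
  refine (l1_pow_le _ _).trans ?_
  rw [← mul_pow]
  refine pow_le_pow_left₀ (l1_nonneg _) ?_ _
  have h1 := bb_l1 (hB j) hT0
  nlinarith [hB0 j]

private lemma Vk_supp0 {M : ℕ} {θ : ℝ} {G : ℕ → ℝ → ℝ} (hG : Cells M θ G) (β : ℕ → ℕ) {T : ℝ}
    (hT : 1 < T) : SuppLe (∏ j ∈ Finset.range M, (T ^ (θ * j / M)) ^ β j) (VkX M G T β) := by
  refine SuppLe.prod _ fun j _ => (bb_supp (fun x hx => ?_) hT).pow _
  by_contra h
  exact absurd (hG.cell j x h).2 (not_lt.2 hx.le)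

private lemma Vk_supp {M : ℕ} {θ : ℝ} {G : ℕ → ℝ → ℝ} (hG : Cells M θ G) (β : ℕ → ℕ)
    (hβ : ∑ j ∈ Finset.range M, j * β j ≤ 2 * (M - 1)) {T : ℝ} (hT : 1 < T) :
    SuppLe (T ^ (1 - (1 - 2 * θ))) (VkX M G T β) := by
  have hT0 : 0 < T := by linarith
  refine (Vk_supp0 hG β hT).mono ?_
  have h2 : ∀ j ∈ Finset.range M, (T ^ (θ * j / M)) ^ β j = T ^ (θ * j / M * β j) := fun j _ =>
    (Real.rpow_mul_natCast hT0.le _ _).symm
  rw [Finset.prod_congr rfl h2, ← Real.rpow_sum_of_pos hT0]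
  refine Real.rpow_le_rpow_of_exponent_le hT.le ?_
  have hM : (0 : ℝ) < M := by
    have := hG.M_pos
    exact_mod_cast (by omega : 0 < M)
  have h3 : ∑ j ∈ Finset.range M, θ * (j : ℝ) / M * (β j : ℝ) =
      θ / M * ((∑ j ∈ Finset.range M, j * β j : ℕ) : ℝ) := by
    push_cast
    rw [Finset.mul_sum]
    refine Finset.sum_congr rfl fun j _ => ?_
    ring
  have h4 : ((∑ j ∈ Finset.range M, j * β j : ℕ) : ℝ) ≤ 2 * M := by
    exact_mod_cast (by omega : ∑ j ∈ Finset.range M, j * β j ≤ 2 * M)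
  have h5 : 0 ≤ θ / M := div_nonneg hG.θ_pos.le hM.le
  rw [h3]
  calc θ / M * ((∑ j ∈ Finset.range M, j * β j : ℕ) : ℝ) ≤ θ / M * (2 * M) :=
        mul_le_mul_of_nonneg_left h4 h5
    _ = 1 - (1 - 2 * θ) := by
        field_simp
        ring

private lemma Vk_core {v : ℝ → ℝ} (hv : Wgt v) {M : ℕ} {θ : ℝ} {G : ℕ → ℝ → ℝ}
    (hG : Cells M θ G) (β : ℕ → ℕ) (hβ : ∑ j ∈ Finset.range M, j * β j ≤ 2 * (M - 1))
    {X : ℝ → DPoly} (hX0 : ∀ T, 1 < T → (X T).coeff 0 = 0) {C₁ : ℝ} (hC₁ : 0 ≤ C₁) {K₁ : ℕ}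
    (hX : ∀ T, 1 ≤ T → l1 (X T) ≤ C₁ * T ^ K₁) {L : ℝ}
    (hL : Tendsto (fun T => ip (X T) (VkX M G T β)) atTop (𝓝 L)) :
    Tendsto (fun T => EC v T (fun t => ev t (X T) * conj (ev t (VkX M G T β)))) atTop
      (𝓝 (((∫ x, v x) * L : ℝ) : ℂ)) := by
  obtain ⟨C₂, hC₂, K₂, h2⟩ := Vk_l1 hG β
  obtain ⟨C, hC, h3⟩ := mv hv (δ := 1 - 2 * θ) (by linarith [hG.θ_lt]) (K₁ + K₂ + 1)
  have h4 : Tendsto (fun T => (((∫ x, v x) * ip (X T) (VkX M G T β) : ℝ) : ℂ)) atTop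
      (𝓝 (((∫ x, v x) * L : ℝ) : ℂ)) :=
    (Complex.continuous_ofReal.tendsto _).comp (hL.const_mul _)
  have h5 : Tendsto (fun T => EC v T (fun t => ev t (X T) * conj (ev t (VkX M G T β))) -
      (((∫ x, v x) * ip (X T) (VkX M G T β) : ℝ) : ℂ)) atTop (𝓝 0) := by
    refine squeeze_zero_norm' (a := fun T : ℝ => C * C₁ * C₂ * T⁻¹) ?_ ?_
    · filter_upwards [eventually_gt_atTop (1 : ℝ)] with T hT
      have hT0 : 0 < T := by linarith
      refine (h3 T hT.le _ _ (hX0 T hT) (Vk_supp hG β hβ hT)).trans ?_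
      have h6 := hX T hT.le
      have h7 := h2 T hT.le
      have h8 : T ^ (-((K₁ + K₂ + 1 : ℕ) : ℝ)) = (T ^ (K₁ + K₂ + 1))⁻¹ := by
        rw [Real.rpow_neg hT0.le, Real.rpow_natCast]
      rw [h8]
      calc C * (T ^ (K₁ + K₂ + 1))⁻¹ * l1 (X T) * l1 (VkX M G T β)
          ≤ C * (T ^ (K₁ + K₂ + 1))⁻¹ * (C₁ * T ^ K₁) * (C₂ * T ^ K₂) :=
            mul_le_mul (mul_le_mul_of_nonneg_left h6 (by positivity)) h7 (l1_nonneg _)
              (by positivity)
        _ = C * C₁ * C₂ * T⁻¹ := by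
            rw [pow_succ, pow_add]
            have h9 : T ^ K₁ ≠ 0 := by positivity
            have h10 : T ^ K₂ ≠ 0 := by positivity
            field_simp
    · have h : Tendsto (fun T : ℝ => C * C₁ * C₂ * T⁻¹) atTop (𝓝 (C * C₁ * C₂ * 0)) :=
        tendsto_inv_atTop_zero.const_mul _
      rwa [mul_zero] at h
  have h6 := h5.add h4
  simpa only [sub_add_cancel, zero_add] using h6

/-! ### monomials -/

private def VkS (M : ℕ) (m : (ℕ ⊕ ℕ) →₀ ℕ) : Prop :=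
  ∀ j, ¬ (1 ≤ j ∧ j < M) → m (Sum.inl j) = 0 ∧ m (Sum.inr j) = 0

private lemma Vk_sub {M : ℕ} {m : (ℕ ⊕ ℕ) →₀ ℕ} (h : VkS M m) :
    m.support ⊆ (Finset.range M).disjSum (Finset.range M) := by
  intro i hi
  rw [Finsupp.mem_support_iff] at hi
  rcases i with j | j
  · rw [Finset.inl_mem_disjSum, Finset.mem_range]
    by_contra hj
    exact hi (h j (fun h' => hj h'.2)).1
  · rw [Finset.inr_mem_disjSum, Finset.mem_range]
    by_contra hj
    exact hi (h j (fun h' => hj h'.2)).2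

private lemma Vk_ev {M : ℕ} {m : (ℕ ⊕ ℕ) →₀ ℕ} (h : VkS M m) (G : ℕ → ℝ → ℝ) (T t : ℝ) :
    evP G T t (MvPolynomial.monomial m 1) = ev t (VkX M G T (fun j => m (Sum.inl j))) *
      conj (ev t (VkX M G T (fun j => m (Sum.inr j)))) := by
  unfold evP VkX
  rw [MvPolynomial.aeval_monomial, map_one, one_mul,
    Finsupp.prod_of_support_subset _ (Vk_sub h) _ (fun i _ => pow_zero _), Finset.prod_disjSum]
  simp only [Sum.elim_inl, Sum.elim_inr, map_prod, map_pow]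

private lemma Vk_mval {M : ℕ} {m : (ℕ ⊕ ℕ) →₀ ℕ} (h : VkS M m) :
    mval (sM M) m = ∏ j ∈ Finset.range M, m1 (sM M j) (m (Sum.inl j)) (m (Sum.inr j)) := by
  unfold mval
  by_cases hh : ∀ j, m (Sum.inl j) = m (Sum.inr j)
  · rw [if_pos hh, Finsupp.prod_of_support_subset _ (Vk_sub h) _ ?_, Finset.prod_disjSum]
    · simp only [Sum.elim_inl, Sum.elim_inr, Finset.prod_const_one, mul_one]
      refine Finset.prod_congr rfl fun j _ => ?_
      unfold m1
      rw [if_pos (hh j)]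
    · intro i _
      rcases i with j | j
      · simp only [Sum.elim_inl, Nat.factorial_zero, Nat.cast_one, pow_zero, mul_one]
      · rfl
  · rw [if_neg hh]
    push Not at hh
    obtain ⟨j, hj⟩ := hh
    have hjM : j < M := by
      by_contra h'
      have h1 := h j (fun h'' => h' h''.2)
      exact hj (h1.1.trans h1.2.symm)
    symm
    refine Finset.prod_eq_zero (Finset.mem_range.2 hjM) ?_
    unfold m1
    rw [if_neg hj]

private lemma Vk_mval0 {M : ℕ} {m : (ℕ ⊕ ℕ) →₀ ℕ} {j : ℕ} (hj : ¬ (1 ≤ j ∧ j < M))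
    (h : m (Sum.inl j) ≠ 0 ∨ m (Sum.inr j) ≠ 0) : mval (sM M) m = 0 := by
  unfold mval
  by_cases hh : ∀ j, m (Sum.inl j) = m (Sum.inr j)
  · rw [if_pos hh]
    have hne : m (Sum.inl j) ≠ 0 := by
      rcases h with h | h
      · exact h
      · rw [hh j]
        exact h
    unfold Finsupp.prod
    refine Finset.prod_eq_zero (Finsupp.mem_support_iff.2 hne) ?_
    simp only [Sum.elim_inl]
    rw [sM, if_neg hj, zero_pow hne, mul_zero]
  · rw [if_neg hh]

private lemma Vk_ev0 {M : ℕ} {θ : ℝ} {G : ℕ → ℝ → ℝ} (hG : Cells M θ G) {m : (ℕ ⊕ ℕ) →₀ ℕ}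
    {j : ℕ} (hj : ¬ (1 ≤ j ∧ j < M)) (h : m (Sum.inl j) ≠ 0 ∨ m (Sum.inr j) ≠ 0) (T t : ℝ) :
    evP G T t (MvPolynomial.monomial m 1) = 0 := by
  have hz : ev t (bb (G j) T) = 0 := by
    have h1 : bb (G j) T = 0 := by
      unfold bb
      refine Finset.sum_eq_zero fun p _ => ?_
      rw [hG.out j (by omega), zero_mul, MonoidAlgebra.single_zero]
    rw [h1, map_zero]
  unfold evP
  rw [MvPolynomial.aeval_monomial, map_one, one_mul]
  unfold Finsupp.prod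
  rcases h with h | h
  · refine Finset.prod_eq_zero (Finsupp.mem_support_iff.2 h) ?_
    simp only [Sum.elim_inl]
    rw [hz, zero_pow h]
  · refine Finset.prod_eq_zero (Finsupp.mem_support_iff.2 h) ?_
    simp only [Sum.elim_inr]
    rw [hz, map_zero, zero_pow h]

private lemma Vk_deg {M : ℕ} {m : (ℕ ⊕ ℕ) →₀ ℕ} (h : VkS M m) :
    (m.sum fun i e => Sum.elim (fun _ => 0) (fun j => j * e) i) =
      ∑ j ∈ Finset.range M, j * m (Sum.inr j) := by
  rw [Finsupp.sum_of_support_subset _ (Vk_sub h) _ ?_, Finset.sum_disjSum]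
  · simp only [Sum.elim_inl, Sum.elim_inr, Finset.sum_const_zero, zero_add]
  · intro i _
    rcases i with j | j
    · rfl
    · simp only [Sum.elim_inr, mul_zero]

private lemma Vk_as (P : PP) :
    P = ∑ m ∈ P.support, MvPolynomial.coeff m P • (MvPolynomial.monomial m 1 : PP) := by
  conv_lhs => rw [P.as_sum]
  refine Finset.sum_congr rfl fun m _ => ?_
  rw [MvPolynomial.smul_monomial, smul_eq_mul, mul_one]

private lemma Vk_evsum (G : ℕ → ℝ → ℝ) (T t : ℝ) (P : PP) :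
    evP G T t P = ∑ m ∈ P.support, ((MvPolynomial.coeff m P : ℝ) : ℂ) * evP G T t (MvPolynomial.monomial m 1) := by
  conv_lhs => rw [Vk_as P]
  rw [map_sum]
  refine Finset.sum_congr rfl fun m _ => ?_
  rw [map_smul, Complex.real_smul]

lemma EG_monomial (s : ℕ → ℝ) (m : (ℕ ⊕ ℕ) →₀ ℕ) (a : ℝ) : EG s (MvPolynomial.monomial m a) = a * mval s m := by
  have h : (MvPolynomial.monomial m a : PP) = a • MvPolynomial.basisMonomials (ℕ ⊕ ℕ) ℝ m := by
    rw [MvPolynomial.coe_basisMonomials, MvPolynomial.smul_monomial, smul_eq_mul, mul_one]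
  rw [h, map_smul, smul_eq_mul]
  unfold EG
  rw [Module.Basis.constr_basis]

private lemma Vk_EGsum (s : ℕ → ℝ) (P : PP) :
    EG s P = ∑ m ∈ P.support, MvPolynomial.coeff m P * mval s m := by
  conv_lhs => rw [P.as_sum]
  rw [map_sum]
  exact Finset.sum_congr rfl fun m _ => EG_monomial s m _

private lemma Vk_mono {v : ℝ → ℝ} (hv : Wgt v) {M : ℕ} {θ : ℝ} {G : ℕ → ℝ → ℝ}
    (hG : Cells M θ G) {m : (ℕ ⊕ ℕ) →₀ ℕ}
    (hm : (m.sum fun i e => Sum.elim (fun _ => 0) (fun j => j * e) i) ≤ 2 * (M - 1)) :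
    Tendsto (fun T => EC v T (fun t => evP G T t (MvPolynomial.monomial m 1))) atTop
      (𝓝 (((∫ x, v x) * mval (sM M) m : ℝ) : ℂ)) := by
  by_cases hS : VkS M m
  · have hL := J1 hG (fun j => m (Sum.inl j)) (fun j => m (Sum.inr j))
    rw [← Vk_mval hS] at hL
    rw [Vk_deg hS] at hm
    obtain ⟨C₁, hC₁, K₁, h1⟩ := Vk_l1 hG (fun j => m (Sum.inl j))
    have h2 := Vk_core hv hG (fun j => m (Sum.inr j)) hm
      (X := fun T => VkX M G T (fun j => m (Sum.inl j)))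
      (fun T hT => (Vk_supp0 hG _ hT).coeff_zero) hC₁ h1 hL
    simpa only [Vk_ev hS] using h2
  · unfold VkS at hS
    push Not at hS
    obtain ⟨j, hj, hj2⟩ := hS
    have hj' : ¬ (1 ≤ j ∧ j < M) := by omega
    have hj3 : m (Sum.inl j) ≠ 0 ∨ m (Sum.inr j) ≠ 0 := by
      by_cases h : m (Sum.inl j) = 0
      · exact Or.inr (hj2 h)
      · exact Or.inl h
    simp only [Vk_ev0 hG hj' hj3]
    rw [Vk_mval0 hj' hj3, mul_zero, Complex.ofReal_zero]
    refine tendsto_const_nhds.congr fun T => ?_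
    unfold EC
    simp

theorem transfer {v : ℝ → ℝ} (hv : Wgt v) {M : ℕ} {θ : ℝ} {G : ℕ → ℝ → ℝ} (hG : Cells M θ G) {P : PP} (hP : Deg2 (2 * (M - 1)) P) :
    Tendsto (fun T => EC v T (fun t => evP G T t P)) atTop (𝓝 (((∫ x, v x) * EG (sM M) P : ℝ) : ℂ)) := by
  have h1 : Tendsto (fun T => ∑ m ∈ P.support, ((MvPolynomial.coeff m P : ℝ) : ℂ) *
      EC v T (fun t => evP G T t (MvPolynomial.monomial m 1))) atTop
      (𝓝 (∑ m ∈ P.support, ((MvPolynomial.coeff m P : ℝ) : ℂ) * (((∫ x, v x) * mval (sM M) m : ℝ) : ℂ))) :=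
    tendsto_finsetSum _ fun m hm => (Vk_mono hv hG (hP m hm).2).const_mul _
  have h2 : ∑ m ∈ P.support, ((MvPolynomial.coeff m P : ℝ) : ℂ) * (((∫ x, v x) * mval (sM M) m : ℝ) : ℂ) =
      (((∫ x, v x) * EG (sM M) P : ℝ) : ℂ) := by
    rw [Vk_EGsum, Finset.mul_sum, Complex.ofReal_sum]
    refine Finset.sum_congr rfl fun m _ => ?_
    push_cast
    ring
  rw [h2] at h1
  refine h1.congr' ?_
  filter_upwards [eventually_gt_atTop (0 : ℝ)] with T hT
  rw [← Vk_sum hv hT P.support (fun m => ((MvPolynomial.coeff m P : ℝ) : ℂ))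
    (fun m t => evP G T t (MvPolynomial.monomial m 1)) (fun m _ => Vk_cont G T _)]
  congr 1
  funext t
  exact (Vk_evsum G T t P).symm

private lemma Vk_DKsum (M : ℕ) (κ : ℕ → ℝ) (P : PP) :
    DK M κ P = ∑ m ∈ P.support, MvPolynomial.coeff m P • DK M κ (MvPolynomial.monomial m 1) := by
  unfold DK
  have h : ∀ j : ℕ, MvPolynomial.pderiv (Sum.inr j) P = ∑ m ∈ P.support,
      MvPolynomial.coeff m P • MvPolynomial.pderiv (Sum.inr j) (MvPolynomial.monomial m 1 : PP) := by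
    intro j
    conv_lhs => rw [Vk_as P]
    rw [map_sum]
    refine Finset.sum_congr rfl fun m _ => ?_
    exact Derivation.map_smul _ _ _
  simp only [h, Finset.smul_sum]
  rw [Finset.sum_comm]
  exact Finset.sum_congr rfl fun m _ => Finset.sum_congr rfl fun j _ => smul_comm _ _ _

private lemma Vk_DKmono (s : ℕ → ℝ) (M : ℕ) (κ : ℕ → ℝ) (m : (ℕ ⊕ ℕ) →₀ ℕ) :
    EG s (DK M κ (MvPolynomial.monomial m 1)) = ∑ i ∈ Finset.range M,
      κ i * ((m (Sum.inr i) : ℝ) * mval s (m - Finsupp.single (Sum.inr i) 1)) := by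
  unfold DK
  rw [map_sum]
  refine Finset.sum_congr rfl fun i _ => ?_
  rw [map_smul, MvPolynomial.pderiv_monomial, EG_monomial, one_mul, smul_eq_mul]

private lemma Vk_subl (m : (ℕ ⊕ ℕ) →₀ ℕ) (i j : ℕ) :
    (m - Finsupp.single (Sum.inr i) 1 : (ℕ ⊕ ℕ) →₀ ℕ) (Sum.inl j) = m (Sum.inl j) := by
  rw [Finsupp.tsub_apply, Finsupp.single_apply, if_neg (by simp)]
  rfl

private lemma Vk_subr (m : (ℕ ⊕ ℕ) →₀ ℕ) {i j : ℕ} (h : i ≠ j) :
    (m - Finsupp.single (Sum.inr i) 1 : (ℕ ⊕ ℕ) →₀ ℕ) (Sum.inr j) = m (Sum.inr j) := by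
  rw [Finsupp.tsub_apply, Finsupp.single_apply, if_neg (by simpa using h)]
  rfl

private lemma Vk_subi (m : (ℕ ⊕ ℕ) →₀ ℕ) (i : ℕ) :
    (m - Finsupp.single (Sum.inr i) 1 : (ℕ ⊕ ℕ) →₀ ℕ) (Sum.inr i) = m (Sum.inr i) - 1 := by
  rw [Finsupp.tsub_apply, Finsupp.single_apply, if_pos rfl]

private lemma Vk_term {M : ℕ} {m : (ℕ ⊕ ℕ) →₀ ℕ} (hS : VkS M m) (κ : ℕ → ℝ) {i : ℕ}
    (hi : i ∈ Finset.range M) :
    (if m (Sum.inr i) = m (Sum.inl i) + 1 then
      ((m (Sum.inl i) + 1).factorial : ℝ) * κ i * sM M i ^ m (Sum.inl i) else 0) *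
      ∏ j ∈ (Finset.range M).erase i, m1 (sM M j) (m (Sum.inl j)) (m (Sum.inr j)) =
    κ i * ((m (Sum.inr i) : ℝ) * mval (sM M) (m - Finsupp.single (Sum.inr i) 1)) := by
  have hS' : VkS M (m - Finsupp.single (Sum.inr i) 1) := by
    intro j hj
    have h1 := hS j hj
    rw [Vk_subl]
    refine ⟨h1.1, ?_⟩
    rw [Finsupp.tsub_apply]
    omega
  rw [Vk_mval hS', ← Finset.mul_prod_erase _ _ hi, Vk_subl, Vk_subi]
  have h2 : ∏ j ∈ (Finset.range M).erase i, m1 (sM M j)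
      ((m - Finsupp.single (Sum.inr i) 1 : (ℕ ⊕ ℕ) →₀ ℕ) (Sum.inl j))
      ((m - Finsupp.single (Sum.inr i) 1 : (ℕ ⊕ ℕ) →₀ ℕ) (Sum.inr j)) =
      ∏ j ∈ (Finset.range M).erase i, m1 (sM M j) (m (Sum.inl j)) (m (Sum.inr j)) := by
    refine Finset.prod_congr rfl fun j hj => ?_
    rw [Vk_subl, Vk_subr m (Finset.ne_of_mem_erase hj).symm]
  rw [h2]
  rcases Nat.eq_zero_or_pos (m (Sum.inr i)) with h | h
  · rw [h, if_neg (by omega)]
    simp
  · obtain ⟨b, hb⟩ : ∃ b, m (Sum.inr i) = b + 1 := ⟨m (Sum.inr i) - 1, by omega⟩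
    rw [hb, Nat.add_sub_cancel]
    unfold m1
    by_cases hab : m (Sum.inl i) = b
    · rw [hab, if_pos rfl, if_pos rfl, Nat.factorial_succ]
      push_cast
      ring
    · rw [if_neg (fun h' => hab (by omega)), if_neg hab]
      ring

private lemma Vk_monoD {v : ℝ → ℝ} (hv : Wgt v) {M : ℕ} {θ : ℝ} {G : ℕ → ℝ → ℝ}
    (hG : Cells M θ G) {H : ℝ → ℝ} (hH : Continuous H)
    {B : ℝ} (hB : ∀ x, |H x| ≤ B) {b : ℝ} (hb : b ≤ 1) (hHb : ∀ x, b ≤ x → H x = 0)
    {m : (ℕ ⊕ ℕ) →₀ ℕ}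
    (hm : (m.sum fun i e => Sum.elim (fun _ => 0) (fun j => j * e) i) ≤ 2 * (M - 1)) :
    Tendsto (fun T => EC v T (fun t => evP G T t (MvPolynomial.monomial m 1) * ev t (bb H T)))
      atTop (𝓝 (((∫ x, v x) * EG (sM M) (DK M (fun i => ∫ x in Ioi (0 : ℝ), G i x * H x / x)
        (MvPolynomial.monomial m 1)) : ℝ) : ℂ)) := by
  rw [Vk_DKmono]
  by_cases hS : VkS M m
  · have hL := J2 hG hH hb hHb (fun j => m (Sum.inl j)) (fun j => m (Sum.inr j))
    rw [Finset.sum_congr rfl fun i hi =>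
      Vk_term hS (fun i => ∫ x in Ioi (0 : ℝ), G i x * H x / x) hi] at hL
    rw [Vk_deg hS] at hm
    obtain ⟨C₁, hC₁, K₁, h1⟩ := Vk_l1 hG (fun j => m (Sum.inl j))
    have hB0 : 0 ≤ B := (abs_nonneg _).trans (hB 0)
    have h2 := Vk_core hv hG (fun j => m (Sum.inr j)) hm
      (X := fun T => bb H T * VkX M G T (fun j => m (Sum.inl j)))
      (fun T hT => ((bb_supp (fun x hx => hHb x hx.le) hT).mul (Vk_supp0 hG _ hT)).coeff_zero)
      (C₁ := 2 * B * C₁) (by positivity) (K₁ := K₁ + 1)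
      (fun T hT => by
        refine (l1_mul_le _ _).trans ?_
        have h3 := bb_l1 hB (by linarith : (0 : ℝ) ≤ T)
        have h4 := h1 T hT
        have h5 : B * (T + 1) ≤ 2 * B * T := by nlinarith
        calc l1 (bb H T) * l1 (VkX M G T (fun j => m (Sum.inl j)))
            ≤ (2 * B * T) * (C₁ * T ^ K₁) :=
              mul_le_mul (h3.trans h5) h4 (l1_nonneg _) (by positivity)
          _ = 2 * B * C₁ * T ^ (K₁ + 1) := by ring) hL
    refine h2.congr fun T => ?_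
    congr 1
    funext t
    rw [Vk_ev hS, map_mul]
    ring
  · unfold VkS at hS
    push Not at hS
    obtain ⟨j, hj, hj2⟩ := hS
    have hj' : ¬ (1 ≤ j ∧ j < M) := by omega
    have hj3 : m (Sum.inl j) ≠ 0 ∨ m (Sum.inr j) ≠ 0 := by
      by_cases h : m (Sum.inl j) = 0
      · exact Or.inr (hj2 h)
      · exact Or.inl h
    have h0 : ∑ i ∈ Finset.range M, (∫ x in Ioi (0 : ℝ), G i x * H x / x) *
        ((m (Sum.inr i) : ℝ) * mval (sM M) (m - Finsupp.single (Sum.inr i) 1)) = 0 := by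
      refine Finset.sum_eq_zero fun i hi => ?_
      by_cases hij : i = j
      · have h1 : ∀ x, G i x = 0 := hG.out i (by rw [hij]; omega)
        have h2 : (∫ x in Ioi (0 : ℝ), G i x * H x / x) = 0 := by
          simp only [h1, zero_mul, zero_div, integral_zero]
        rw [h2, zero_mul]
      · rw [Vk_mval0 hj' (m := m - Finsupp.single (Sum.inr i) 1)
          (by rw [Vk_subl, Vk_subr m hij]; exact hj3), mul_zero, mul_zero]
    rw [h0, mul_zero, Complex.ofReal_zero]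
    simp only [Vk_ev0 hG hj' hj3]
    refine tendsto_const_nhds.congr fun T => ?_
    unfold EC
    simp

theorem transferD {v : ℝ → ℝ} (hv : Wgt v) {M : ℕ} {θ : ℝ} {G : ℕ → ℝ → ℝ} (hG : Cells M θ G) {H : ℝ → ℝ} (hH : Continuous H)
    {B : ℝ} (hB : ∀ x, |H x| ≤ B) {b : ℝ} (hb : b ≤ 1) (hHb : ∀ x, b ≤ x → H x = 0) {P : PP} (hP : Deg2 (2 * (M - 1)) P) :
    Tendsto (fun T => EC v T (fun t => evP G T t P * ev t (bb H T))) atTop
      (𝓝 (((∫ x, v x) * EG (sM M) (DK M (fun i => ∫ x in Ioi (0 : ℝ), G i x * H x / x) P) : ℝ) : ℂ)) := by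
  obtain ⟨κ, hκ⟩ : ∃ κ : ℕ → ℝ, κ = fun i => ∫ x in Ioi (0 : ℝ), G i x * H x / x := ⟨_, rfl⟩
  have hmono : ∀ m ∈ P.support, Tendsto (fun T => EC v T
      (fun t => evP G T t (MvPolynomial.monomial m 1) * ev t (bb H T))) atTop
      (𝓝 (((∫ x, v x) * EG (sM M) (DK M κ (MvPolynomial.monomial m 1)) : ℝ) : ℂ)) := by
    intro m hm
    rw [hκ]
    exact Vk_monoD hv hG hH hB hb hHb (hP m hm).2
  rw [← hκ]
  have h1 : Tendsto (fun T => ∑ m ∈ P.support, ((MvPolynomial.coeff m P : ℝ) : ℂ) *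
      EC v T (fun t => evP G T t (MvPolynomial.monomial m 1) * ev t (bb H T))) atTop
      (𝓝 (∑ m ∈ P.support, ((MvPolynomial.coeff m P : ℝ) : ℂ) *
        (((∫ x, v x) * EG (sM M) (DK M κ (MvPolynomial.monomial m 1)) : ℝ) : ℂ))) :=
    tendsto_finsetSum _ fun m hm => (hmono m hm).const_mul _
  have h2 : ∑ m ∈ P.support, ((MvPolynomial.coeff m P : ℝ) : ℂ) *
        (((∫ x, v x) * EG (sM M) (DK M κ (MvPolynomial.monomial m 1)) : ℝ) : ℂ) =
      (((∫ x, v x) * EG (sM M) (DK M κ P) : ℝ) : ℂ) := by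
    rw [Vk_DKsum M κ P, map_sum, Finset.mul_sum, Complex.ofReal_sum]
    refine Finset.sum_congr rfl fun m _ => ?_
    rw [map_smul, smul_eq_mul]
    push_cast
    ring
  rw [h2] at h1
  refine h1.congr' ?_
  filter_upwards [eventually_gt_atTop (0 : ℝ)] with T hT
  rw [← Vk_sum hv hT P.support (fun m => ((MvPolynomial.coeff m P : ℝ) : ℂ))
    (fun m t => evP G T t (MvPolynomial.monomial m 1) * ev t (bb H T))
    (fun m _ => (Vk_cont G T _).mul (continuous_ev _))]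
  congr 1
  funext t
  rw [Vk_evsum G T t P, Finset.sum_mul]
  exact Finset.sum_congr rfl fun m _ => by ring

end Pool.Agent.H14.GP
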