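import Mathlib
import Pool.Agent.H14.GP.Ra
import Pool.Agent.H14.GP.Vk

/-!
# Row Rc (150 lines): limits of the second moment of the resonator and of its correlation with a prime sum

`lim_AR`: `E_T[AR^2] → (∫v) EG (Amp^2)`: `transfer` with `P = Amp * Amp` (`deg_Amp2`), `AR_sq`, `EC_ofReal`, take real parts.
`lim_AR_D`: `E_T[AR^2 · 2 Re ev t (bb H T)] → 2 (∫v) EG (DK κ (Amp^2))`, `κ_i = ∫_{x>0} G_i(x) h(x) dx` for `H x = x h(x)`:
`AR^2 · 2 Re(z) = 2 Re (evP(Amp^2) z)` because `evP(Amp^2) = AR^2` is real; `Re` commutes with the integral (`EC v T (fun t => (AR^2 : ℂ) * z) .re = EE v T (AR^2 * z.re)`, the integrands are continuous with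
compact support, hence integrable); `transferD` with `H x = x h(x)` (continuous, bounded: `h` continuous with compact support) and `G_i(x) H(x)/x = G_i(x) h(x)` for `x > 0`.
-/

open MeasureTheory Set Filter Topology MvPolynomial
open scoped ComplexConjugate

namespace Pool.Agent.H14.GP

theorem lim_AR {v : ℝ → ℝ} (hv : Wgt v) {M : ℕ} {θ : ℝ} {G : ℕ → ℝ → ℝ} (hG : Cells M θ G) (c : ℝ) (R : ℕ) (f : ℕ → ℝ) :
    Tendsto (fun T => EE v T (fun t => AR c R M f G T t ^ 2)) atTop
      (𝓝 ((∫ x, v x) * EG (sM M) (Amp c R M f * Amp c R M f))) := by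
  have hM : 1 ≤ M := le_trans one_le_two hG.M_pos
  have h1 := transfer hv hG (deg_Amp2 c R hM f)
  have h2 : ∀ T : ℝ, EC v T (fun t => evP G T t (Amp c R M f * Amp c R M f)) =
      ((EE v T (fun t => AR c R M f G T t ^ 2) : ℝ) : ℂ) := by
    intro T
    rw [← EC_ofReal]
    congr 1
    funext t
    rw [AR_sq]
  simp_rw [h2] at h1
  exact (Complex.continuous_re.tendsto _).comp h1

/-- real parts commute with weighted means of continuous functions -/
private theorem gprc_re {v : ℝ → ℝ} (hv : Wgt v) {T : ℝ} (hT : 0 < T) {F : ℝ → ℂ} (hF : Continuous F) :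
    (EC v T F).re = EE v T (fun t => (F t).re) := by
  obtain ⟨a, b, ha, hab, hsupp⟩ := hv.supp
  have hc : Continuous (fun t => (v (t / T) : ℂ) * F t) :=
    (Complex.continuous_ofReal.comp (hv.smooth.continuous.comp (continuous_id.div_const T))).mul hF
  have hcs : HasCompactSupport (fun t => (v (t / T) : ℂ) * F t) := by
    refine HasCompactSupport.intro (isCompact_Icc (a := a * T) (b := b * T)) ?_
    intro x hx
    have h1 : v (x / T) = 0 := by
      refine hsupp _ fun h => hx ?_
      exact ⟨(le_div_iff₀ hT).1 h.1, (div_le_iff₀ hT).1 h.2⟩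
    simp only [h1, Complex.ofReal_zero, zero_mul]
  have hi : Integrable (fun t => (v (t / T) : ℂ) * F t) := hc.integrable_of_hasCompactSupport hcs
  unfold EC EE
  rw [Complex.re_ofReal_mul]
  have h2 := Complex.reCLM.integral_comp_comm hi
  simp only [Complex.reCLM_apply, Complex.re_ofReal_mul] at h2
  rw [← h2]

theorem lim_AR_D {v : ℝ → ℝ} (hv : Wgt v) {M : ℕ} {θ : ℝ} {G : ℕ → ℝ → ℝ} (hG : Cells M θ G) (c : ℝ) (R : ℕ) (f : ℕ → ℝ)
    {h : ℝ → ℝ} (hh : Continuous h) {b : ℝ} (hb : b ≤ 1) (hhb : ∀ x, b ≤ |x| → h x = 0) :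
    Tendsto (fun T => EE v T (fun t => AR c R M f G T t ^ 2 * (2 * (ev t (bb (fun x => x * h x) T)).re))) atTop
      (𝓝 (2 * ((∫ x, v x) * EG (sM M) (DK M (fun i => ∫ x in Ioi (0 : ℝ), G i x * h x) (Amp c R M f * Amp c R M f))))) := by
  have hM : 1 ≤ M := le_trans one_le_two hG.M_pos
  have hHc : Continuous (fun x : ℝ => x * h x) := continuous_id.mul hh
  have hHs : HasCompactSupport (fun x : ℝ => x * h x) := by
    refine HasCompactSupport.intro (isCompact_Icc (a := (-1 : ℝ)) (b := 1)) ?_
    intro x hx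
    have h1 : b ≤ |x| := by
      refine hb.trans ?_
      by_contra h2
      rw [not_le, abs_lt] at h2
      exact hx ⟨h2.1.le, h2.2.le⟩
    simp only [hhb x h1, mul_zero]
  obtain ⟨B, hB⟩ := hHc.bounded_above_of_compact_support hHs
  have h1 := transferD hv hG hHc (B := B) (fun x => hB x) hb
    (fun x hx => by rw [hhb x (hx.trans (le_abs_self x)), mul_zero]) (deg_Amp2 c R hM f)
  have hκ : (fun i => ∫ x in Ioi (0 : ℝ), G i x * (x * h x) / x) =
      (fun i => ∫ x in Ioi (0 : ℝ), G i x * h x) := by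
    funext i
    refine setIntegral_congr_fun measurableSet_Ioi ?_
    intro x hx
    have hx0 : x ≠ 0 := ne_of_gt hx
    show G i x * (x * h x) / x = G i x * h x
    field_simp
  rw [hκ] at h1
  have h2 := ((Complex.continuous_re.tendsto _).comp h1).const_mul 2
  rw [Complex.ofReal_re] at h2
  refine h2.congr' ?_
  filter_upwards [eventually_gt_atTop 0] with T hT
  have hF : Continuous (fun t => evP G T t (Amp c R M f * Amp c R M f) * ev t (bb (fun x => x * h x) T)) :=
    (continuous_evP G T _).mul (continuous_ev _)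
  show 2 * (EC v T (fun t => evP G T t (Amp c R M f * Amp c R M f) * ev t (bb (fun x => x * h x) T))).re = _
  rw [gprc_re hv hT hF]
  unfold EE
  have h3 : ∀ t, v (t / T) * (AR c R M f G T t ^ 2 * (2 * (ev t (bb (fun x => x * h x) T)).re)) =
      2 * (v (t / T) * (evP G T t (Amp c R M f * Amp c R M f) * ev t (bb (fun x => x * h x) T)).re) := by
    intro t
    rw [← AR_sq, Complex.re_ofReal_mul]
    ring
  simp_rw [h3]
  rw [integral_const_mul]
  ring

end Pool.Agent.H14.GP
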