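import Mathlib
import Pool.Agent.H6.Final
import Pool.Agent.H14.GP.Ra
import Pool.Agent.H14.GP.Rc
import Pool.Agent.H87.GP.FCells
import Pool.Agent.H14.GP.Gg
import Pool.Agent.H5.GP.E3
import Pool.Agent.H98.GP.Mk

/-!
# MP_103a5c_GP: the main limit

`EE v T (AR^2) → (∫v) ν^2` and `EE v T (AR^2 · SS ψ (log T)) → (∫v) ν^2 JJ c R M f G ψ` for `c^2 = R`.
-/

open MeasureTheory Set Filter Topology
open scoped Real Interval

namespace Pool.Agent.H14.GP

open Pool.Agent.H6 Pool.Agent.H26.GH Pool.Agent.H98.GP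
open Pool.Agent.H5.GP (WW_bb_EE shortPoly_AR blockH_EE)

theorem EG_Amp2 {c : ℝ} {R M : ℕ} (hc : c ^ 2 = R) (f : ℕ → ℝ) :
    EG (sM M) (Amp c R M f * Amp c R M f) = nu R M f ^ 2 := by
  rw [← pow_two]
  exact EG_amp_sq hc f

theorem EG_DK_Amp2 {c : ℝ} {R M : ℕ} (hc : c ^ 2 = R) (f : ℕ → ℝ) (κ : ℕ → ℝ) (h0 : κ 0 = 0) :
    EG (sM M) (DK M κ (Amp c R M f * Amp c R M f)) = 2 * c * nu R M f * ∑ j ∈ Finset.range M, κ j * KK R M f j := by
  rw [← pow_two]
  exact EG_DK_amp hc f κ h0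

theorem AR_limit {v : ℝ → ℝ} (hv : Wgt v) {M : ℕ} {θ : ℝ} {G : ℕ → ℝ → ℝ} (hG : Cells M θ G) {c : ℝ} {R : ℕ}
    (hc : c ^ 2 = R) (hR : 1 ≤ R) (f : ℕ → ℝ) :
    Tendsto (fun T => EE v T (fun t => AR c R M f G T t ^ 2)) atTop (𝓝 ((∫ x, v x) * nu R M f ^ 2)) := by
  have h := lim_AR hv hG c R f
  rwa [EG_Amp2 hc] at h

theorem main_limit {ι : Type*} [Countable ι] {γ w : ι → ℝ} {F : ℝ → Finset ι} {CR : ℝ} (I : Inputs γ w F CR)
    {v : ℝ → ℝ} (hv : Wgt v) {M : ℕ} {θ : ℝ} {G : ℕ → ℝ → ℝ} (hG : Cells M θ G) {c : ℝ} {R : ℕ}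
    (hc : c ^ 2 = R) (hR : 1 ≤ R) (f : ℕ → ℝ) (hν : 0 < nu R M f) {ψ : ℝ → ℝ} (hψ : Nice ψ) :
    Tendsto (fun T => EE v T (fun t => AR c R M f G T t ^ 2 * SS γ w ψ (Real.log T) t)) atTop
      (𝓝 ((∫ x, v x) * nu R M f ^ 2 * H87GP.JJ c R M f G ψ)) := by
  have hθ0 := hG.θ_pos
  have hθ1 := hG.θ_lt
  set s0 : ℝ := (1 + 2 * θ) / 2 with hs0
  set s1 : ℝ := (s0 + 1) / 2 with hs1
  have a0 : 0 < s0 := by rw [hs0]; linarith
  have a1 : s0 < s1 := by rw [hs1, hs0]; linarith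
  have a2 : s1 < 1 := by rw [hs1, hs0]; linarith
  have a3 : 2 * θ < s0 := by rw [hs0]; linarith
  obtain ⟨ψl, hT, hlow, -, hH⟩ := blockH_EE I hv hψ a0 a1 a2
  obtain ⟨ε, hε, hsp⟩ := shortPoly_AR hG c R f a3 (a1.trans a2)
  obtain ⟨B, hB⟩ := EE_AR_le I hv hG c R f 4
  have hB' : ∀ᶠ T in atTop, EE v T (fun t => (AR c R M f G T t ^ 2) ^ 2) ≤ B := by
    filter_upwards [hB] with T hT
    have e : (fun t => (AR c R M f G T t ^ 2) ^ 2) = fun t => |AR c R M f G T t| ^ 4 := by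
      ext t
      rw [← pow_mul, ← abs_pow, abs_of_nonneg (by positivity)]
    rw [e]; exact hT
  have h1 := hH (fun T t => AR c R M f G T t ^ 2) ε B hε hsp hB'
  have hac : ∀ᶠ T in atTop, Continuous (fun t => AR c R M f G T t ^ 2) :=
    Eventually.of_forall fun T => (continuous_AR c R M f G T).pow 2
  have h2 := WW_bb_EE hv hT (a0.trans a1) a2 (a := fun T t => AR c R M f G T t ^ 2) hac hB'
  have hcont : Continuous (cosT ψl) := TestFn.continuous_cosT_of_integrable hT.integrable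
  have h3 := lim_AR_D hv hG c R f hcont a2.le (fun x hx => hT.supp x hx)
  have h4 := AR_limit hv hG hc hR f
  have hκ : (fun i => ∫ x in Ioi (0 : ℝ), G i x * cosT ψl x) = fun i => H87GP.kap G ψ i := by
    ext i
    unfold H87GP.kap
    apply setIntegral_congr_fun measurableSet_Ioi
    intro x hx
    simp only
    by_cases hx0 : G i x = 0
    · rw [hx0, zero_mul, zero_mul]
    · have h5 := (hG.cell i x hx0).2
      have hi : (i : ℝ) ≤ M := by
        by_contra hcon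
        apply hx0
        apply hG.out i (Or.inr _) x
        have : (M : ℝ) < i := not_le.mp hcon
        exact_mod_cast this.le
      have hM : (0 : ℝ) < M := by
        have := hG.M_pos
        have : (2 : ℝ) ≤ M := by exact_mod_cast this
        linarith
      have h6 : θ * i / M ≤ θ := by
        rw [div_le_iff₀ hM]
        exact mul_le_mul_of_nonneg_left hi hθ0.le
      rw [hlow x]
      rw [abs_of_pos hx]
      linarith
  rw [hκ, EG_DK_Amp2 hc f _ (by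
    unfold H87GP.kap
    have : ∀ x, G 0 x = 0 := hG.out 0 (Or.inl (by norm_num))
    simp [this])] at h3
  have h7 := h1.add ((h4.const_mul (cosT ψ 0)).sub (h2.add h3))
  have e : (∫ x, v x) * nu R M f ^ 2 * H87GP.JJ c R M f G ψ = 0 + (cosT ψ 0 * ((∫ x, v x) * nu R M f ^ 2) -
      (0 + 2 * ((∫ x, v x) * (2 * c * nu R M f * ∑ j ∈ Finset.range M, H87GP.kap G ψ j * KK R M f j)))) := by
    unfold H87GP.JJ
    have e1 : ∑ j ∈ Finset.range M, H87GP.kap G ψ j * (KK R M f j / nu R M f)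
        = (∑ j ∈ Finset.range M, H87GP.kap G ψ j * KK R M f j) / nu R M f := by
      rw [Finset.sum_div]
      apply Finset.sum_congr rfl
      intro j _
      ring
    rw [e1]
    field_simp
    ring
  rw [e]
  apply h7.congr
  intro T
  ring

end Pool.Agent.H14.GP
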